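import Mathlib

/-!
Quantile cells: iterated passage to consecutive blocks of equal size.
-/

namespace Pool.Agent.LibShatter

open Finset

variable {V : Type*}

/-- rank of `x` in `X` for the order given by `p`. -/
def rk (p : V → ℕ) (X : Finset V) (x : V) : ℕ := (X.filter (fun y => p y < p x)).card

theorem rk_mono {p : V → ℕ} {X : Finset V} {x y : V} (h : p y ≤ p x) : rk p X y ≤ rk p X x := by
  unfold rk
  apply Finset.card_le_card
  intro z hz
  rw [Finset.mem_filter] at hz ⊢
  exact ⟨hz.1, lt_of_lt_of_le hz.2 h⟩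

theorem lt_of_rk_lt {p : V → ℕ} {X : Finset V} {x y : V} (h : rk p X x < rk p X y) :
    p x < p y := by
  by_contra hcon
  rw [not_lt] at hcon
  have := rk_mono (X := X) hcon
  omega

theorem rk_lt_of_lt {p : V → ℕ} {X : Finset V} {x y : V} (hx : x ∈ X) (h : p x < p y) :
    rk p X x < rk p X y := by
  unfold rk
  apply Finset.card_lt_card
  rw [Finset.ssubset_iff_of_subset]
  · exact ⟨x, by rw [Finset.mem_filter]; exact ⟨hx, h⟩, by simp⟩
  · intro z hz
    rw [Finset.mem_filter] at hz ⊢
    exact ⟨hz.1, lt_trans hz.2 h⟩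

theorem rk_lt_card {p : V → ℕ} {X : Finset V} {x : V} (hx : x ∈ X) : rk p X x < X.card := by
  unfold rk
  apply Finset.card_lt_card
  rw [Finset.ssubset_iff_of_subset (Finset.filter_subset _ _)]
  exact ⟨x, hx, by simp⟩

/-- the `s`-th of `Q` consecutive blocks. -/
def block (Q : ℕ) (p : V → ℕ) (s : ℕ) (X : Finset V) : Finset V :=
  X.filter (fun x => s * (X.card / Q) ≤ rk p X x ∧ rk p X x < (s + 1) * (X.card / Q))

theorem block_subset (Q : ℕ) (p : V → ℕ) (s : ℕ) (X : Finset V) : block Q p s X ⊆ X :=
  Finset.filter_subset _ _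

theorem block_lt {Q : ℕ} {p : V → ℕ} {s t : ℕ} {X : Finset V} (hst : s < t) {x y : V}
    (hx : x ∈ block Q p s X) (hy : y ∈ block Q p t X) : p x < p y := by
  unfold block at hx hy
  rw [Finset.mem_filter] at hx hy
  apply lt_of_rk_lt (X := X)
  have : (s + 1) * (X.card / Q) ≤ t * (X.card / Q) := Nat.mul_le_mul_right _ hst
  omega

theorem card_block {Q : ℕ} {p : V → ℕ} (hp : Function.Injective p) {s : ℕ} (hs : s < Q)
    {X : Finset V} {N : ℕ} (hN : N * Q ≤ X.card) : N ≤ (block Q p s X).card := by
  classical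
  have hQ : 0 < Q := by omega
  have hb : N ≤ X.card / Q := (Nat.le_div_iff_mul_le hQ).mpr hN
  refine le_trans hb ?_
  -- surjectivity of the rank
  have hmaps : ∀ x ∈ X, rk p X x ∈ Finset.range X.card := fun x hx =>
    Finset.mem_range.mpr (rk_lt_card hx)
  have hinj : Set.InjOn (rk p X) X := by
    intro x hx y hy hxy
    by_contra hne
    rcases Nat.lt_or_gt_of_ne (fun h => hne (hp h)) with h | h
    · have := rk_lt_of_lt (X := X) hx h; omega
    · have := rk_lt_of_lt (X := X) hy h; omega
  have himg : X.image (rk p X) = Finset.range X.card := by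
    apply Finset.eq_of_subset_of_card_le
    · intro r hr
      obtain ⟨x, hx, rfl⟩ := Finset.mem_image.mp hr
      exact hmaps x hx
    · rw [Finset.card_image_of_injOn hinj, Finset.card_range]
  have hsub : Finset.Ico (s * (X.card / Q)) ((s + 1) * (X.card / Q)) ⊆
      (block Q p s X).image (rk p X) := by
    intro r hr
    rw [Finset.mem_Ico] at hr
    have hr2 : r ∈ Finset.range X.card := by
      rw [Finset.mem_range]
      have h1 : (s + 1) * (X.card / Q) ≤ Q * (X.card / Q) := Nat.mul_le_mul_right _ hs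
      have h2 : Q * (X.card / Q) ≤ X.card := Nat.mul_div_le _ _
      omega
    rw [← himg] at hr2
    obtain ⟨x, hx, rfl⟩ := Finset.mem_image.mp hr2
    apply Finset.mem_image_of_mem
    unfold block
    rw [Finset.mem_filter]
    exact ⟨hx, hr⟩
  have h3 := Finset.card_le_card hsub
  rw [Nat.card_Ico] at h3
  have h4 := Finset.card_image_le (s := block Q p s X) (f := rk p X)
  have h5 : (s + 1) * (X.card / Q) - s * (X.card / Q) = X.card / Q := by
    rw [Nat.add_mul, Nat.one_mul]; omega
  omega

/-- two sets are separated in the order `p`. -/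
def Sep (p : V → ℕ) (A B : Finset V) : Prop :=
  (∀ a ∈ A, ∀ b ∈ B, p a < p b) ∨ (∀ a ∈ A, ∀ b ∈ B, p b < p a)

theorem Sep.mono {p : V → ℕ} {A B A' B' : Finset V} (h : Sep p A B) (hA : A' ⊆ A)
    (hB : B' ⊆ B) : Sep p A' B' := by
  rcases h with h | h
  · left; intro a ha b hb; exact h a (hA ha) b (hB hb)
  · right; intro a ha b hb; exact h a (hA ha) b (hB hb)

open Classical in
theorem nonsep_count (Q : ℕ) (p : V → ℕ) (X Y : Finset V) :
    ((Finset.univ : Finset (Fin Q × Fin Q)).filter
      (fun st => ¬ Sep p (block Q p st.1 X) (block Q p st.2 Y))).card ≤ 2 * Q := by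
  have key : Set.InjOn (fun st : Fin Q × Fin Q => (st.1 : ℕ) + (st.2 : ℕ))
      ((Finset.univ : Finset (Fin Q × Fin Q)).filter
      (fun st => ¬ Sep p (block Q p st.1 X) (block Q p st.2 Y))) := by
    -- auxiliary: no two with opposite order
    have aux : ∀ s t s' t' : ℕ, ¬ Sep p (block Q p s X) (block Q p t Y) →
        ¬ Sep p (block Q p s' X) (block Q p t' Y) → s < s' → t' < t → False := by
      intro s t s' t' h h' hs ht
      unfold Sep at h h'
      push Not at h h'
      obtain ⟨⟨x, hx, y, hy, hxy⟩, -⟩ := h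
      obtain ⟨-, ⟨x', hx', y', hy', hxy'⟩⟩ := h'
      have h1 := block_lt hs hx hx'
      have h2 := block_lt ht hy' hy
      omega
    rintro ⟨s, t⟩ hst ⟨s', t'⟩ hst' heq
    simp only [Finset.coe_filter, Finset.mem_univ, true_and, Set.mem_ofPred_eq] at hst hst' heq
    rcases lt_trichotomy (s : ℕ) (s' : ℕ) with h | h | h
    · exact (aux _ _ _ _ hst hst' h (by omega)).elim
    · have h2 : (t : ℕ) = t' := by omega
      exact Prod.ext (Fin.ext h) (Fin.ext h2)
    · exact (aux _ _ _ _ hst' hst h (by omega)).elim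
  have h1 : ((Finset.univ : Finset (Fin Q × Fin Q)).filter
      (fun st => ¬ Sep p (block Q p st.1 X) (block Q p st.2 Y))).card ≤
      (Finset.range (2 * Q)).card := by
    apply Finset.card_le_card_of_injOn _ _ key
    rintro ⟨s, t⟩ _
    simp only [Finset.coe_range, Set.mem_Iio]
    have := s.2
    have := t.2
    omega
  simpa using h1

/-- the cell of `X` with address `c`. -/
def cell (Q : ℕ) : (m : ℕ) → (Fin m → V → ℕ) → (Fin m → Fin Q) → Finset V → Finset V
  | 0, _, _, X => X
  | m + 1, pos, c, X => cell Q m (Fin.tail pos) (Fin.tail c) (block Q (pos 0) (c 0) X)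

theorem cell_subset (Q : ℕ) : ∀ (m : ℕ) (pos : Fin m → V → ℕ) (c : Fin m → Fin Q)
    (X : Finset V), cell Q m pos c X ⊆ X
  | 0, _, _, X => by simp [cell]
  | m + 1, pos, c, X => by
      rw [cell]
      exact (cell_subset Q m _ _ _).trans (block_subset _ _ _ _)

theorem card_cell (Q : ℕ) : ∀ (m : ℕ) (pos : Fin m → V → ℕ)
    (_ : ∀ i, Function.Injective (pos i)) (c : Fin m → Fin Q)
    (X : Finset V) (N : ℕ) (_ : N * Q ^ m ≤ X.card), N ≤ (cell Q m pos c X).card
  | 0, _, _, _, X, N, h => by simpa [cell] using h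
  | m + 1, pos, hpos, c, X, N, h => by
      rw [cell]
      apply card_cell Q m _ (fun i => hpos _)
      apply card_block (hpos 0) (c 0).2
      rw [mul_assoc, ← pow_succ]
      exact h

open Classical in
/-- the set of orders in which two sets are not separated. -/
noncomputable def nsep {m : ℕ} (pos : Fin m → V → ℕ) (A B : Finset V) : Finset (Fin m) :=
  Finset.univ.filter (fun i => ¬ Sep (pos i) A B)

theorem nsep_succ_card {m : ℕ} (pos : Fin (m + 1) → V → ℕ) (A B A₀ B₀ : Finset V)
    (hA : A ⊆ A₀) (hB : B ⊆ B₀) [Decidable (Sep (pos 0) A₀ B₀)] :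
    (nsep pos A B).card ≤ (if Sep (pos 0) A₀ B₀ then 0 else 1) +
      (nsep (Fin.tail pos) A B).card := by
  classical
  have h1 : nsep pos A B ⊆ (if Sep (pos 0) A₀ B₀ then ∅ else {0}) ∪
      (nsep (Fin.tail pos) A B).image Fin.succ := by
    intro i hi
    unfold nsep at hi
    rw [Finset.mem_filter] at hi
    rw [Finset.mem_union]
    refine Fin.cases ?_ ?_ i (motive := fun i => ¬ Sep (pos i) A B →
      i ∈ (if Sep (pos 0) A₀ B₀ then (∅ : Finset (Fin (m + 1))) else {0}) ∨
      i ∈ (nsep (Fin.tail pos) A B).image Fin.succ) hi.2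
    · intro h0
      left
      rw [if_neg (fun h => h0 (h.mono hA hB))]
      simp
    · intro j hj
      right
      apply Finset.mem_image_of_mem
      unfold nsep
      rw [Finset.mem_filter]
      exact ⟨Finset.mem_univ _, hj⟩
  refine le_trans (Finset.card_le_card h1) (le_trans (Finset.card_union_le _ _) ?_)
  apply Nat.add_le_add
  · split_ifs <;> simp
  · exact Finset.card_image_le

theorem pair_sum (Q z : ℕ) (hz : 1 ≤ z) : ∀ (m : ℕ) (pos : Fin m → V → ℕ) (X Y : Finset V),
    ∑ c : Fin m → Fin Q, ∑ c' : Fin m → Fin Q,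
      z ^ (nsep pos (cell Q m pos c X) (cell Q m pos c' Y)).card ≤ (Q ^ 2 + 2 * Q * z) ^ m
  | 0, pos, X, Y => by
      have h : ∀ A B : Finset V, (nsep pos A B).card = 0 := by
        intro A B
        rw [Finset.card_eq_zero]
        ext i
        exact i.elim0
      simp [h]
  | m + 1, pos, X, Y => by
      classical
      have hstep : ∀ (a b : Fin Q) (c c' : Fin m → Fin Q),
          z ^ (nsep pos (cell Q (m + 1) pos (Fin.cons a c) X)
            (cell Q (m + 1) pos (Fin.cons b c') Y)).card ≤
          (z ^ (if Sep (pos 0) (block Q (pos 0) a X) (block Q (pos 0) b Y) then 0 else 1)) *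
          z ^ (nsep (Fin.tail pos) (cell Q m (Fin.tail pos) c (block Q (pos 0) a X))
            (cell Q m (Fin.tail pos) c' (block Q (pos 0) b Y))).card := by
        intro a b c c'
        rw [← pow_add]
        apply Nat.pow_le_pow_right hz
        rw [cell, cell]
        simp only [Fin.cons_zero, Fin.tail_cons]
        exact nsep_succ_card pos _ _ _ _ (cell_subset _ _ _ _ _) (cell_subset _ _ _ _ _)
      have hsum : ∑ c : Fin (m + 1) → Fin Q, ∑ c' : Fin (m + 1) → Fin Q,
          z ^ (nsep pos (cell Q (m + 1) pos c X) (cell Q (m + 1) pos c' Y)).card =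
          ∑ a : Fin Q, ∑ b : Fin Q, ∑ c : Fin m → Fin Q, ∑ c' : Fin m → Fin Q,
          z ^ (nsep pos (cell Q (m + 1) pos (Fin.cons a c) X)
            (cell Q (m + 1) pos (Fin.cons b c') Y)).card := by
        rw [← (Fin.consEquiv (fun _ => Fin Q)).sum_comp]
        rw [Fintype.sum_prod_type]
        apply Finset.sum_congr rfl
        intro a _
        rw [Finset.sum_comm]
        rw [← (Fin.consEquiv (fun _ => Fin Q)).sum_comp]
        rw [Fintype.sum_prod_type]
        apply Finset.sum_congr rfl
        intro b _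
        rw [Finset.sum_comm]
        rfl
      rw [hsum]
      have hab : ∀ a b : Fin Q, ∑ c : Fin m → Fin Q, ∑ c' : Fin m → Fin Q,
          z ^ (nsep pos (cell Q (m + 1) pos (Fin.cons a c) X)
            (cell Q (m + 1) pos (Fin.cons b c') Y)).card ≤
          (z ^ (if Sep (pos 0) (block Q (pos 0) a X) (block Q (pos 0) b Y) then 0 else 1)) *
            (Q ^ 2 + 2 * Q * z) ^ m := by
        intro a b
        calc _ ≤ ∑ c : Fin m → Fin Q, ∑ c' : Fin m → Fin Q,
            (z ^ (if Sep (pos 0) (block Q (pos 0) a X) (block Q (pos 0) b Y) then 0 else 1)) *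
            z ^ (nsep (Fin.tail pos) (cell Q m (Fin.tail pos) c (block Q (pos 0) a X))
            (cell Q m (Fin.tail pos) c' (block Q (pos 0) b Y))).card := by
              apply Finset.sum_le_sum; intro c _
              apply Finset.sum_le_sum; intro c' _
              exact hstep a b c c'
          _ = (z ^ (if Sep (pos 0) (block Q (pos 0) a X) (block Q (pos 0) b Y) then 0 else 1)) *
            ∑ c : Fin m → Fin Q, ∑ c' : Fin m → Fin Q,
            z ^ (nsep (Fin.tail pos) (cell Q m (Fin.tail pos) c (block Q (pos 0) a X))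
            (cell Q m (Fin.tail pos) c' (block Q (pos 0) b Y))).card := by
              rw [Finset.mul_sum]
              apply Finset.sum_congr rfl; intro c _
              rw [Finset.mul_sum]
          _ ≤ _ := Nat.mul_le_mul_left _ (pair_sum Q z hz m _ _ _)
      have hall : ∑ a : Fin Q, ∑ b : Fin Q,
          (z ^ (if Sep (pos 0) (block Q (pos 0) a X) (block Q (pos 0) b Y) then 0 else 1))
          ≤ Q ^ 2 + 2 * Q * z := by
        rw [← Fintype.sum_prod_type (f := fun ab : Fin Q × Fin Q =>
          z ^ (if Sep (pos 0) (block Q (pos 0) ab.1 X) (block Q (pos 0) ab.2 Y) then 0 else 1))]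
        calc _ ≤ ∑ ab : Fin Q × Fin Q, (1 + if ¬ Sep (pos 0) (block Q (pos 0) ab.1 X)
              (block Q (pos 0) ab.2 Y) then z else 0) := by
              apply Finset.sum_le_sum
              intro ab _
              by_cases h : Sep (pos 0) (block Q (pos 0) ab.1 X) (block Q (pos 0) ab.2 Y)
              · simp [h]
              · simp [h]
          _ = Q ^ 2 + (((Finset.univ : Finset (Fin Q × Fin Q)).filter
              (fun st => ¬ Sep (pos 0) (block Q (pos 0) st.1 X)
                (block Q (pos 0) st.2 Y))).card) * z := by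
              rw [Finset.sum_add_distrib, ← Finset.sum_filter, Finset.sum_const, Finset.sum_const]
              simp [pow_two]
          _ ≤ Q ^ 2 + 2 * Q * z := by
              apply Nat.add_le_add_left
              apply Nat.mul_le_mul_right
              exact nonsep_count Q (pos 0) X Y
      calc _ ≤ ∑ a : Fin Q, ∑ b : Fin Q,
          (z ^ (if Sep (pos 0) (block Q (pos 0) a X) (block Q (pos 0) b Y) then 0 else 1)) *
            (Q ^ 2 + 2 * Q * z) ^ m := by
              apply Finset.sum_le_sum; intro a _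
              apply Finset.sum_le_sum; intro b _
              exact hab a b
        _ = (∑ a : Fin Q, ∑ b : Fin Q,
          (z ^ (if Sep (pos 0) (block Q (pos 0) a X) (block Q (pos 0) b Y) then 0 else 1))) *
            (Q ^ 2 + 2 * Q * z) ^ m := by
              rw [Finset.sum_mul]
              apply Finset.sum_congr rfl; intro a _
              rw [Finset.sum_mul]
        _ ≤ (Q ^ 2 + 2 * Q * z) * (Q ^ 2 + 2 * Q * z) ^ m := Nat.mul_le_mul_right _ hall
        _ = _ := by rw [pow_succ]; ring

theorem succ_pow_le (m : ℕ) : (m + 1) ^ m ≤ 4 * m ^ m := by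
  rcases Nat.eq_zero_or_pos m with h0 | h0
  · subst h0; norm_num
  · have h1 : ((m : ℝ) + 1) ^ m ≤ 4 * (m : ℝ) ^ m := by
      have hm : (0 : ℝ) < m := by exact_mod_cast h0
      have h2 : (m : ℝ) + 1 = m * (1 + 1 / m) := by field_simp
      rw [h2, mul_pow]
      have h3 : (1 + 1 / (m : ℝ)) ^ m ≤ 4 := by
        have h4 : 1 + 1 / (m : ℝ) ≤ Real.exp (1 / m) := by
          have := Real.add_one_le_exp (1 / (m : ℝ)); linarith
        calc (1 + 1 / (m : ℝ)) ^ m ≤ (Real.exp (1 / m)) ^ m := by
              apply pow_le_pow_left₀ _ h4; positivity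
          _ = Real.exp 1 := by
              rw [← Real.exp_nat_mul]
              congr 1
              field_simp
          _ ≤ 4 := by
              have := Real.exp_one_lt_d9; linarith
      have h5 : (0 : ℝ) < (m : ℝ) ^ m := by positivity
      nlinarith
    exact_mod_cast h1

/-- with `Q = 2 m z` the pair sum is at most `4 |W|^2`. -/
theorem pair_sum' (m z : ℕ) (hz : 1 ≤ z) (pos : Fin m → V → ℕ) (X Y : Finset V) :
    ∑ c : Fin m → Fin (2 * m * z), ∑ c' : Fin m → Fin (2 * m * z),
      z ^ (nsep pos (cell (2 * m * z) m pos c X) (cell (2 * m * z) m pos c' Y)).card ≤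
      4 * (Fintype.card (Fin m → Fin (2 * m * z))) ^ 2 := by
  refine le_trans (pair_sum (2 * m * z) z hz m pos X Y) ?_
  have h1 : (2 * m * z) ^ 2 + 2 * (2 * m * z) * z = (4 * m * z ^ 2) * (m + 1) := by ring
  rw [h1, mul_pow]
  have h2 : Fintype.card (Fin m → Fin (2 * m * z)) = (2 * m * z) ^ m := by simp
  rw [h2]
  calc (4 * m * z ^ 2) ^ m * (m + 1) ^ m ≤ (4 * m * z ^ 2) ^ m * (4 * m ^ m) :=
        Nat.mul_le_mul_left _ (succ_pow_le m)
    _ = 4 * ((4 * m * z ^ 2 * m) ^ m) := by rw [mul_pow (4 * m * z ^ 2) m m]; ring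
    _ = 4 * ((2 * m * z) ^ m) ^ 2 := by
        congr 1
        rw [← pow_mul, mul_comm m 2, pow_mul]
        congr 1; ring

end Pool.Agent.LibShatter
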