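import Mathlib

/-!
Partial shattering by permutations: definitions and passage between permutations and
families of injective position functions.
-/

namespace Pool.Agent.LibShatter

open Finset

/-- The order induced on `X` by the permutation `ρ`: `x` comes before `y` when `ρ x < ρ y`. -/
def induced {n : ℕ} (ρ : Equiv.Perm (Fin n)) (X : Finset (Fin n)) : X → X → Prop :=
  fun x y => ρ x < ρ y

/-- The family `P` of permutations induces at least `t` distinct orders on `X`. -/
def Shatters {n : ℕ} (P : Finset (Equiv.Perm (Fin n))) (t : ℕ) (X : Finset (Fin n)) : Prop :=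
  t ≤ Set.ncard {r : X → X → Prop | ∃ ρ ∈ P, r = induced ρ X}

/-- `shatterNumber k n t` is the least size of a family of permutations of an `n`-element set
that `t`-shatters every `k`-element subset. -/
noncomputable def shatterNumber (k n t : ℕ) : ℕ :=
  sInf {m : ℕ | ∃ P : Finset (Equiv.Perm (Fin n)), P.card = m ∧
    ∀ X : Finset (Fin n), X.card = k → Shatters P t X}

/-- The set of orders induced on `X` by a family of position functions. -/
def ordSet {ι V : Type*} (pos : ι → V → ℕ) (X : Finset V) : Set (X → X → Prop) :=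
  {r | ∃ i, r = fun (x y : X) => pos i (x : V) < pos i (y : V)}

theorem ordSet_finite {ι V : Type*} [Finite ι] (pos : ι → V → ℕ) (X : Finset V) :
    (ordSet pos X).Finite := by
  have : ordSet pos X = Set.range (fun i => fun (x y : X) => pos i x < pos i y) := by
    ext r; constructor
    · rintro ⟨i, rfl⟩; exact ⟨i, rfl⟩
    · rintro ⟨i, rfl⟩; exact ⟨i, rfl⟩
  rw [this]
  exact Set.finite_range _

/-- a family of permutations, enumerated (with repetitions) by `Fin m`. -/
theorem exists_enum {n m : ℕ} (P : Finset (Equiv.Perm (Fin n))) (hP : P.Nonempty)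
    (hm : P.card ≤ m) :
    ∃ pos : Fin m → Fin n → ℕ, (∀ i, Function.Injective (pos i)) ∧
      ∀ X : Finset (Fin n), {r : X → X → Prop | ∃ ρ ∈ P, r = induced ρ X} = ordSet pos X := by
  classical
  obtain ⟨ρ₀, hρ₀⟩ := hP
  let e := P.equivFin
  let g : Fin m → Equiv.Perm (Fin n) := fun i =>
    if h : (i : ℕ) < P.card then (e.symm ⟨i, h⟩ : P) else ρ₀
  have hg : ∀ i, g i ∈ P := by
    intro i
    by_cases h : (i : ℕ) < P.card
    · simp only [g, h, dif_pos]
      exact (e.symm ⟨i, h⟩).2
    · simp only [g, h, dif_neg, not_false_iff]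
      exact hρ₀
  have hsurj : ∀ ρ ∈ P, ∃ i, g i = ρ := by
    intro ρ hρ
    have hlt : ((e ⟨ρ, hρ⟩ : Fin P.card) : ℕ) < P.card := (e ⟨ρ, hρ⟩).2
    refine ⟨⟨(e ⟨ρ, hρ⟩ : Fin P.card), lt_of_lt_of_le hlt hm⟩, ?_⟩
    simp only [g]
    rw [dif_pos hlt]
    simp
  refine ⟨fun i x => (g i x : ℕ), ?_, ?_⟩
  · intro i x y hxy
    exact (g i).injective (Fin.ext hxy)
  · intro X
    ext r
    constructor
    · rintro ⟨ρ, hρ, rfl⟩
      obtain ⟨i, rfl⟩ := hsurj ρ hρ
      refine ⟨i, ?_⟩
      funext x y
      rfl
    · rintro ⟨i, rfl⟩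
      exact ⟨g i, hg i, rfl⟩

/-- The permutation sorting an injective function. -/
theorem exists_perm {n : ℕ} (g : Fin n → ℕ) (hg : Function.Injective g) :
    ∃ ρ : Equiv.Perm (Fin n), ∀ x y, ρ x < ρ y ↔ g x < g y := by
  classical
  have hcard : (Finset.univ.image g).card = n := by
    rw [Finset.card_image_of_injective _ hg]; simp
  let e := (Finset.univ.image g).orderIsoOfFin hcard
  have hmem : ∀ x, g x ∈ Finset.univ.image g := fun x =>
    Finset.mem_image_of_mem _ (Finset.mem_univ x)
  let r : Fin n → Fin n := fun x => e.symm ⟨g x, hmem x⟩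
  have hr : Function.Injective r := by
    intro x y hxy
    have := e.symm.injective hxy
    exact hg (Subtype.ext_iff.mp this)
  refine ⟨Equiv.ofBijective r (Finite.injective_iff_bijective.mp hr), ?_⟩
  intro x y
  show r x < r y ↔ _
  simp only [r]
  rw [OrderIso.lt_iff_lt]
  exact Subtype.mk_lt_mk

/-- From position functions on a large set to a family of permutations. -/
theorem exists_shattering {ι V : Type*} [Fintype ι] [Fintype V] (k t : ℕ)
    (pos : ι → V → ℕ) (hinj : ∀ i, Function.Injective (pos i))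
    (hX : ∀ X : Finset V, X.card = k → t ≤ (ordSet pos X).ncard)
    (n : ℕ) (hn : n ≤ Fintype.card V) :
    ∃ P : Finset (Equiv.Perm (Fin n)), P.card ≤ Fintype.card ι ∧
      ∀ X : Finset (Fin n), X.card = k → Shatters P t X := by
  classical
  obtain ⟨emb⟩ : Nonempty (Fin n ↪ V) :=
    Function.Embedding.nonempty_of_card_le (by simpa using hn)
  choose ρ hρ using fun i => exists_perm (fun x => pos i (emb x))
    (fun x y h => emb.injective (hinj i h))
  let P : Finset (Equiv.Perm (Fin n)) := Finset.univ.image ρ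
  have hPcard : P.card ≤ Fintype.card ι := by
    simpa using (Finset.card_image_le (s := (Finset.univ : Finset ι)) (f := ρ))
  refine ⟨P, hPcard, ?_⟩
  intro X hXc
  have h1 := hX (X.map emb) (by simpa using hXc)
  refine le_trans h1 ?_
  -- transport relations
  let e : X → {v // v ∈ X.map emb} := fun x => ⟨emb x, Finset.mem_map_of_mem _ x.2⟩
  have he : Function.Surjective e := by
    rintro ⟨v, hv⟩
    obtain ⟨x, hx, rfl⟩ := Finset.mem_map.mp hv
    exact ⟨⟨x, hx⟩, rfl⟩
  let T : ({v // v ∈ X.map emb} → {v // v ∈ X.map emb} → Prop) → (X → X → Prop) :=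
    fun r x y => r (e x) (e y)
  have hT : Function.Injective T := by
    intro r r' h
    funext a b
    obtain ⟨x, rfl⟩ := he a
    obtain ⟨y, rfl⟩ := he b
    exact congrFun (congrFun h x) y
  have hsub : T '' (ordSet pos (X.map emb)) ⊆ {r : X → X → Prop | ∃ ρ ∈ P, r = induced ρ X} := by
    rintro _ ⟨r, ⟨i, rfl⟩, rfl⟩
    refine ⟨ρ i, Finset.mem_image_of_mem _ (Finset.mem_univ i), ?_⟩
    funext x y
    simp only [T, e, induced]
    exact propext (hρ i x y).symm
  have hfin : {r : X → X → Prop | ∃ ρ ∈ P, r = induced ρ X}.Finite := by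
    have : {r : X → X → Prop | ∃ ρ ∈ P, r = induced ρ X} = (fun ρ => induced ρ X) '' (P : Set _) := by
      ext r; constructor
      · rintro ⟨ρ, h, rfl⟩; exact ⟨ρ, h, rfl⟩
      · rintro ⟨ρ, h, rfl⟩; exact ⟨ρ, h, rfl⟩
    rw [this]
    exact (Finset.finite_toSet P).image _
  calc (ordSet pos (X.map emb)).ncard = (T '' (ordSet pos (X.map emb))).ncard :=
        (Set.ncard_image_of_injective _ hT).symm
    _ ≤ _ := Set.ncard_le_ncard hsub hfin

theorem shatterNumber_le {ι V : Type*} [Fintype ι] [Fintype V] (k t : ℕ)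
    (pos : ι → V → ℕ) (hinj : ∀ i, Function.Injective (pos i))
    (hX : ∀ X : Finset V, X.card = k → t ≤ (ordSet pos X).ncard)
    (n : ℕ) (hn : n ≤ Fintype.card V) :
    shatterNumber k n t ≤ Fintype.card ι := by
  obtain ⟨P, hP1, hP2⟩ := exists_shattering k t pos hinj hX n hn
  exact le_trans (Nat.sInf_le ⟨P, rfl, hP2⟩) hP1

/-- If every family of `m` position functions fails on some set, the shatter number
exceeds `m`. -/
theorem lt_shatterNumber {k n t m : ℕ} (ht : 0 < t) (htk : ∃ M, ∃ P : Finset (Equiv.Perm (Fin n)),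
      P.card = M ∧ ∀ X : Finset (Fin n), X.card = k → Shatters P t X) (hk : k ≤ n)
    (h : ∀ pos : Fin m → Fin n → ℕ, (∀ i, Function.Injective (pos i)) →
      ∃ X : Finset (Fin n), X.card = k ∧ (ordSet pos X).ncard < t) :
    m < shatterNumber k n t := by
  classical
  by_contra hcon
  rw [not_lt] at hcon
  obtain ⟨P, hPc, hP⟩ := Nat.sInf_mem (s := {m : ℕ | ∃ P : Finset (Equiv.Perm (Fin n)), P.card = m ∧
    ∀ X : Finset (Fin n), X.card = k → Shatters P t X}) htk
  change P.card = shatterNumber k n t at hPc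
  rcases P.eq_empty_or_nonempty with h0 | h0
  · obtain ⟨X, -, hX⟩ := Finset.exists_subset_card_eq (s := (Finset.univ : Finset (Fin n)))
      (n := k) (by simpa using hk)
    have := hP X hX
    unfold Shatters at this
    rw [h0] at this
    have h2 : {r : X → X → Prop | ∃ ρ ∈ (∅ : Finset (Equiv.Perm (Fin n))), r = induced ρ X} = ∅ := by
      ext r; simp
    rw [h2] at this
    simp at this
    omega
  · obtain ⟨pos, hinj, hset⟩ := exists_enum (m := m) P h0 (by omega)
    obtain ⟨X, hXc, hXt⟩ := h pos hinj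
    have := hP X hXc
    unfold Shatters at this
    rw [hset X] at this
    omega

end Pool.Agent.LibShatter
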