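import Mathlib

/-!
Lexicographic orders on words of blocks of bits.
-/

namespace Pool.Agent.LibShatter

open Finset

/-- a block of `d` bits. -/
abbrev Blk (d : ℕ) := Fin d → Bool

/-- a point: a word of `D` blocks. -/
abbrev Pt (D d : ℕ) := Fin D → Blk d

/-- `q` is the first place where the blocks differ, and `σ` has the smaller bit there. -/
def FDB {d : ℕ} (σ τ : Blk d) (q : Fin d) : Prop :=
  (∀ q', q' < q → σ q' = τ q') ∧ σ q = false ∧ τ q = true

theorem exists_FDB {d : ℕ} {σ τ : Blk d} (h : σ ≠ τ) : ∃ q, FDB σ τ q ∨ FDB τ σ q := by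
  classical
  have hex : ∃ q, σ q ≠ τ q := by
    by_contra hcon
    push Not at hcon
    exact h (funext hcon)
  let S := Finset.univ.filter (fun q => σ q ≠ τ q)
  have hS : S.Nonempty := by
    obtain ⟨q, hq⟩ := hex
    exact ⟨q, by simp [S, hq]⟩
  have hmin := S.min'_mem hS
  set q := S.min' hS with hq
  have hqne : σ q ≠ τ q := (Finset.mem_filter.mp hmin).2
  have hlt : ∀ q', q' < q → σ q' = τ q' := by
    intro q' hq'
    by_contra hcon
    have : q' ∈ S := by simp [S, hcon]
    have := S.min'_le q' this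
    exact absurd hq' (not_lt.mpr this)
  refine ⟨q, ?_⟩
  cases hσ : σ q <;> cases hτ : τ q
  · exact absurd (hσ.trans hτ.symm) hqne
  · left; exact ⟨hlt, hσ, hτ⟩
  · right; exact ⟨fun q' hq' => (hlt q' hq').symm, hτ, hσ⟩
  · exact absurd (hσ.trans hτ.symm) hqne

theorem exists_pos {V α : Type*} [Fintype V] [LinearOrder α] (k : V → α)
    (hk : Function.Injective k) :
    ∃ pos : V → ℕ, Function.Injective pos ∧ ∀ x y, pos x < pos y ↔ k x < k y := by
  classical
  let pos : V → ℕ := fun x => (Finset.univ.filter (fun y => k y < k x)).card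
  have hlt : ∀ x y, k x < k y → pos x < pos y := by
    intro x y hxy
    apply Finset.card_lt_card
    rw [Finset.ssubset_iff_of_subset]
    · exact ⟨x, by simp [hxy], by simp⟩
    · intro z hz
      rw [Finset.mem_filter] at hz ⊢
      exact ⟨hz.1, hz.2.trans hxy⟩
  have hiff : ∀ x y, pos x < pos y ↔ k x < k y := by
    intro x y
    refine ⟨fun h => ?_, hlt x y⟩
    by_contra hcon
    rcases lt_or_eq_of_le (not_lt.mp hcon) with h1 | h1
    · exact absurd h (not_lt.mpr (hlt _ _ h1).le)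
    · have := hk h1
      rw [this] at h
      exact lt_irrefl _ h
  refine ⟨pos, ?_, hiff⟩
  intro x y hxy
  by_contra hne
  rcases lt_or_gt_of_ne (fun h => hne (hk h)) with h | h
  · have := hlt _ _ h; omega
  · have := hlt _ _ h; omega

theorem exists_beta {d : ℕ} (φ : Fin d → Blk d → Bool)
    (hφ : ∀ q σ τ, (∀ q', q' < q → σ q' = τ q') → φ q σ = φ q τ) :
    ∃ β : Blk d → ℕ, Function.Injective β ∧
      ∀ σ τ q, FDB σ τ q → (β σ < β τ ↔ φ q σ = false) := by
  classical
  let key : Blk d → Lex (Fin d → Bool) := fun σ => toLex (fun q => xor (σ q) (φ q σ))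
  -- agreement before the first difference
  have hagree : ∀ σ τ q, FDB σ τ q → ∀ q', q' < q → xor (σ q') (φ q' σ) = xor (τ q') (φ q' τ) := by
    intro σ τ q h q' hq'
    rw [h.1 q' hq', hφ q' σ τ (fun q'' hq'' => h.1 q'' (hq''.trans hq'))]
  have hphi : ∀ σ τ q, FDB σ τ q → φ q σ = φ q τ := fun σ τ q h => hφ q σ τ h.1
  have hne : ∀ σ τ q, FDB σ τ q → key σ ≠ key τ := by
    intro σ τ q h heq
    have h1 := congrFun (congrArg ofLex heq) q
    simp only [key, ofLex_toLex] at h1
    rw [h.2.1, h.2.2, hphi σ τ q h] at h1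
    cases hh : φ q τ <;> rw [hh] at h1 <;> simp at h1
  have hkinj : Function.Injective key := by
    intro σ τ heq
    by_contra hcon
    obtain ⟨q, h | h⟩ := exists_FDB hcon
    · exact hne _ _ _ h heq
    · exact hne _ _ _ h heq.symm
  have hlt1 : ∀ σ τ q, FDB σ τ q → φ q σ = false → key σ < key τ := by
    intro σ τ q h hf
    refine ⟨q, hagree σ τ q h, ?_⟩
    show xor (σ q) (φ q σ) < xor (τ q) (φ q τ)
    rw [h.2.1, h.2.2, ← hphi σ τ q h, hf]
    decide
  have hlt2 : ∀ σ τ q, FDB σ τ q → φ q σ = true → key τ < key σ := by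
    intro σ τ q h hf
    refine ⟨q, fun q' hq' => (hagree σ τ q h q' hq').symm, ?_⟩
    show xor (τ q) (φ q τ) < xor (σ q) (φ q σ)
    rw [h.2.1, h.2.2, ← hphi σ τ q h, hf]
    decide
  obtain ⟨pos, hinj, hpos⟩ := exists_pos key hkinj
  refine ⟨pos, hinj, ?_⟩
  intro σ τ q h
  rw [hpos]
  constructor
  · intro hk
    by_contra hcon
    have : φ q σ = true := by cases hh : φ q σ <;> simp_all
    exact lt_asymm hk (hlt2 σ τ q h this)
  · exact hlt1 σ τ q h

theorem exists_gamma {d : ℕ} (b : Blk d × Bool → Bool) :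
    ∃ γ : Blk d → ℕ, Function.Injective γ ∧
      ∀ u w v, b (u, false) = false → b (w, false) = true → b (v, false) = true →
        b (w, true) = false → b (v, true) = true → γ u < γ w ∧ γ w < γ v := by
  classical
  let key : Blk d → Bool ×ₗ (Bool ×ₗ (Lex (Fin d → Bool))) := fun σ =>
    toLex (b (σ, false), toLex (b (σ, true), toLex σ))
  have hkinj : Function.Injective key := by
    intro σ τ h
    have h1 := congrArg (fun z => ofLex (ofLex (ofLex z).2).2) h
    simpa [key] using h1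
  obtain ⟨pos, hinj, hpos⟩ := exists_pos key hkinj
  refine ⟨pos, hinj, ?_⟩
  intro u w v h1 h2 h3 h4 h5
  rw [hpos, hpos]
  simp only [key]
  rw [Prod.Lex.toLex_lt_toLex, Prod.Lex.toLex_lt_toLex, Prod.Lex.toLex_lt_toLex]
  constructor
  · left
    simp [h1, h2]
  · right
    refine ⟨by simp [h2, h3], ?_⟩
    left
    simp [h4, h5]

/-- `pos` is the lexicographic order reading the blocks in the order `c`, block `l` being
compared by `β l`. -/
structure IsOuter {D' D d : ℕ} (c : Fin D' → Fin D) (β : Fin D → Blk d → ℕ)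
    (pos : Pt D d → ℕ) : Prop where
  inj : Function.Injective pos
  lt_iff : ∀ x y, pos x < pos y ↔ ∃ l, (∀ l', l' < l → x (c l') = y (c l')) ∧
    β (c l) (x (c l)) < β (c l) (y (c l))

theorem exists_outer {D' D d : ℕ} (c : Fin D' → Fin D) (hc : Function.Surjective c)
    (β : Fin D → Blk d → ℕ) (hβ : ∀ l, Function.Injective (β l)) :
    ∃ pos : Pt D d → ℕ, IsOuter c β pos := by
  classical
  let key : Pt D d → Lex (Fin D' → ℕ) := fun x => toLex (fun l => β (c l) (x (c l)))
  have hkinj : Function.Injective key := by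
    intro x y h
    funext l
    obtain ⟨l', rfl⟩ := hc l
    have h1 := congrFun (congrArg ofLex h) l'
    exact hβ _ h1
  obtain ⟨pos, hinj, hpos⟩ := exists_pos key hkinj
  refine ⟨pos, hinj, ?_⟩
  intro x y
  rw [hpos]
  constructor
  · rintro ⟨l, h1, h2⟩
    exact ⟨l, fun l' hl' => hβ _ (h1 l' hl'), h2⟩
  · rintro ⟨l, h1, h2⟩
    exact ⟨l, fun l' hl' => congrArg (β (c l')) (h1 l' hl'), h2⟩

/-- the pairs `{y, z}` and `{y', z'}` are separated in the relation `R`. -/
def Sep4 {V : Type*} (R : V → V → Prop) (y z y' z' : V) : Prop :=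
  (R y y' ∧ R y z' ∧ R z y' ∧ R z z') ∨ (R y' y ∧ R z' y ∧ R y' z ∧ R z' z)

theorem sep4_cross {V : Type*} (pos : V → ℕ) {y z y' z' : V}
    (h1 : Sep4 (fun a b => pos a < pos b) y z y' z')
    (h2 : Sep4 (fun a b => pos a < pos b) y y' z z') : False := by
  unfold Sep4 at h1 h2
  omega

theorem sep_of {D' D d : ℕ} {c : Fin D' → Fin D} {β : Fin D → Blk d → ℕ} {pos : Pt D d → ℕ}
    (hβ : ∀ l, Function.Injective (β l))
    (h : IsOuter c β pos) {y z y' z' : Pt D d} (l₀ : Fin D')
    (h1 : ∀ l, l ≤ l₀ → y (c l) = z (c l)) (h2 : ∀ l, l ≤ l₀ → y' (c l) = z' (c l))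
    (h3 : y (c l₀) ≠ y' (c l₀)) : Sep4 (fun a b => pos a < pos b) y z y' z' := by
  classical
  let S := Finset.univ.filter (fun l => y (c l) ≠ y' (c l))
  have hS : S.Nonempty := ⟨l₀, by simp [S, h3]⟩
  have hmin := S.min'_mem hS
  obtain ⟨l, hl⟩ : ∃ l, l = S.min' hS := ⟨_, rfl⟩
  rw [← hl] at hmin
  have hne : y (c l) ≠ y' (c l) := (Finset.mem_filter.mp hmin).2
  have hll : l ≤ l₀ := by
    rw [hl]
    apply S.min'_le
    simp [S, h3]
  have hlt : ∀ l', l' < l → y (c l') = y' (c l') := by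
    intro l' hl'
    by_contra hcon
    have h5 : l' ∈ S := by simp [S, hcon]
    have h6 := S.min'_le l' h5
    rw [← hl] at h6
    exact absurd hl' (not_lt.mpr h6)
  have hz : ∀ l', l' ≤ l → y (c l') = z (c l') := fun l' hl' => h1 l' (hl'.trans hll)
  have hz' : ∀ l', l' ≤ l → y' (c l') = z' (c l') := fun l' hl' => h2 l' (hl'.trans hll)
  unfold Sep4
  rcases lt_or_gt_of_ne (fun hh => hne (hβ (c l) hh)) with hb | hb
  · left
    refine ⟨(h.lt_iff _ _).mpr ?_, (h.lt_iff _ _).mpr ?_, (h.lt_iff _ _).mpr ?_,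
      (h.lt_iff _ _).mpr ?_⟩
    · exact ⟨l, hlt, hb⟩
    · exact ⟨l, fun l' hl' => (hlt l' hl').trans (hz' l' hl'.le), by
        rw [← hz' l le_rfl]; exact hb⟩
    · exact ⟨l, fun l' hl' => (hz l' hl'.le).symm.trans (hlt l' hl'), by
        rw [← hz l le_rfl]; exact hb⟩
    · exact ⟨l, fun l' hl' => (hz l' hl'.le).symm.trans ((hlt l' hl').trans (hz' l' hl'.le)), by
        rw [← hz l le_rfl, ← hz' l le_rfl]; exact hb⟩
  · right
    refine ⟨(h.lt_iff _ _).mpr ?_, (h.lt_iff _ _).mpr ?_, (h.lt_iff _ _).mpr ?_,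
      (h.lt_iff _ _).mpr ?_⟩
    · exact ⟨l, fun l' hl' => (hlt l' hl').symm, hb⟩
    · exact ⟨l, fun l' hl' => ((hlt l' hl').trans (hz' l' hl'.le)).symm, by
        rw [← hz' l le_rfl]; exact hb⟩
    · exact ⟨l, fun l' hl' => ((hz l' hl'.le).symm.trans (hlt l' hl')).symm, by
        rw [← hz l le_rfl]; exact hb⟩
    · exact ⟨l, fun l' hl' => ((hz l' hl'.le).symm.trans
        ((hlt l' hl').trans (hz' l' hl'.le))).symm, by
        rw [← hz l le_rfl, ← hz' l le_rfl]; exact hb⟩

end Pool.Agent.LibShatter
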