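import Mathlib
import Pool.Agent.LibShatter.Defs
import Pool.Agent.LibShatter.Orders

/-!
Counting induced orders from below.
-/

namespace Pool.Agent.LibShatter

open Finset

/-- two members of the family induce different orders on `X`. -/
def Differ {ι V : Type*} (pos : ι → V → ℕ) (X : Finset V) (i j : ι) : Prop :=
  ∃ x ∈ X, ∃ y ∈ X, ¬ (pos i x < pos i y ↔ pos j x < pos j y)

theorem Differ.symm {ι V : Type*} {pos : ι → V → ℕ} {X : Finset V} {i j : ι}
    (h : Differ pos X i j) : Differ pos X j i := by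
  obtain ⟨x, hx, y, hy, h⟩ := h
  exact ⟨x, hx, y, hy, fun h' => h h'.symm⟩

theorem card_le_ncard {ι V C : Type*} [Finite ι] [Fintype C] (pos : ι → V → ℕ) (X : Finset V)
    (u : C → ι) (h : ∀ c c', c ≠ c' → Differ pos X (u c) (u c')) :
    Fintype.card C ≤ (ordSet pos X).ncard := by
  classical
  let g : C → (X → X → Prop) := fun c (x y : X) => pos (u c) (x : V) < pos (u c) (y : V)
  have hg : Function.Injective g := by
    intro c c' hcc
    by_contra hne
    obtain ⟨x, hx, y, hy, hxy⟩ := h c c' hne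
    apply hxy
    have := congrFun (congrFun hcc ⟨x, hx⟩) ⟨y, hy⟩
    simp only [g] at this
    exact iff_of_eq this
  have hsub : g '' Set.univ ⊆ ordSet pos X := by
    rintro _ ⟨c, -, rfl⟩
    exact ⟨u c, rfl⟩
  calc Fintype.card C = (Set.univ : Set C).ncard := by
        rw [Set.ncard_univ, Nat.card_eq_fintype_card]
    _ = (g '' Set.univ).ncard := (Set.ncard_image_of_injective _ hg).symm
    _ ≤ _ := Set.ncard_le_ncard hsub (ordSet_finite pos X)

/-- a set of members of the family realizing all sign vectors on `k` pairs. -/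
def Signs {ι V : Type*} (pos : ι → V → ℕ) (X : Finset V) (k : ℕ) (u : (Fin k → Bool) → ι) :
    Prop :=
  ∃ a b : Fin k → V, (∀ j, a j ∈ X) ∧ (∀ j, b j ∈ X) ∧
    ∀ ε j, pos (u ε) (a j) < pos (u ε) (b j) ↔ ε j = false

theorem Signs.differ {ι V : Type*} {pos : ι → V → ℕ} {X : Finset V} {k : ℕ}
    {u : (Fin k → Bool) → ι} (h : Signs pos X k u) (ε δ : Fin k → Bool) (hne : ε ≠ δ) :
    Differ pos X (u ε) (u δ) := by
  obtain ⟨a, b, ha, hb, h⟩ := h
  obtain ⟨j, hj⟩ : ∃ j, ε j ≠ δ j := by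
    by_contra hcon
    push Not at hcon
    exact hne (funext hcon)
  refine ⟨a j, ha j, b j, hb j, ?_⟩
  rw [h ε j, h δ j]
  intro hiff
  apply hj
  cases h1 : ε j <;> cases h2 : δ j <;> simp_all

theorem count_five {ι V : Type*} [Finite ι] {pos : ι → V → ℕ} {X : Finset V}
    {u : (Fin 5 → Bool) → ι} (h : Signs pos X 5 u) : 17 ≤ (ordSet pos X).ncard := by
  have h1 := card_le_ncard pos X u (fun ε δ hne => h.differ ε δ hne)
  have h2 : Fintype.card (Fin 5 → Bool) = 32 := by simp
  omega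

theorem count_four {ι V : Type*} [Finite ι] {pos : ι → V → ℕ} {X : Finset V}
    {u : (Fin 4 → Bool) → ι} (h : Signs pos X 4 u) {w : ι} (hw : ∀ ε, Differ pos X (u ε) w) :
    17 ≤ (ordSet pos X).ncard := by
  have h1 := card_le_ncard pos X (Sum.elim u (fun _ : Unit => w)) (by
    rintro (ε | ⟨⟩) (δ | ⟨⟩) hne
    · exact h.differ ε δ (fun h => hne (congrArg _ h))
    · exact hw ε
    · exact (hw δ).symm
    · exact absurd rfl hne)
  have h2 : Fintype.card ((Fin 4 → Bool) ⊕ Unit) = 17 := by simp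
  omega

theorem count_three {ι V : Type*} [Finite ι] {pos : ι → V → ℕ} {X : Finset V}
    {u v : (Fin 3 → Bool) → ι} (hu : Signs pos X 3 u) (hv : Signs pos X 3 v) {w : ι}
    (huv : ∀ ε δ, Differ pos X (u ε) (v δ))
    (huw : ∀ ε, Differ pos X (u ε) w) (hvw : ∀ ε, Differ pos X (v ε) w) :
    17 ≤ (ordSet pos X).ncard := by
  have h1 := card_le_ncard pos X (Sum.elim u (Sum.elim v (fun _ : Unit => w))) (by
    rintro (ε | ε | ⟨⟩) (δ | δ | ⟨⟩) hne
    · exact hu.differ ε δ (fun h => hne (congrArg _ h))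
    · exact huv ε δ
    · exact huw ε
    · exact (huv δ ε).symm
    · exact hv.differ ε δ (fun h => hne (congrArg _ (congrArg _ h)))
    · exact hvw ε
    · exact (huw δ).symm
    · exact (hvw δ).symm
    · exact absurd rfl hne)
  have h2 : Fintype.card ((Fin 3 → Bool) ⊕ ((Fin 3 → Bool) ⊕ Unit)) = 17 := by simp
  omega

theorem differ_of_sep {ι V : Type*} {pos : ι → V → ℕ} {X : Finset V} {i j : ι}
    {y z y' z' : V} (hy : y ∈ X) (hz : z ∈ X) (hy' : y' ∈ X) (hz' : z' ∈ X)
    (h1 : Sep4 (fun a b => pos i a < pos i b) y z y' z')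
    (h2 : Sep4 (fun a b => pos j a < pos j b) y y' z z') : Differ pos X i j := by
  by_contra hcon
  unfold Differ at hcon
  push Not at hcon
  apply sep4_cross (pos i) h1
  unfold Sep4 at h2 ⊢
  rcases h2 with ⟨a, b, c, d⟩ | ⟨a, b, c, d⟩
  · left
    exact ⟨(hcon _ hy _ hz).mpr a, (hcon _ hy _ hz').mpr b, (hcon _ hy' _ hz).mpr c,
      (hcon _ hy' _ hz').mpr d⟩
  · right
    exact ⟨(hcon _ hz _ hy).mpr a, (hcon _ hz' _ hy).mpr b, (hcon _ hz _ hy').mpr c,
      (hcon _ hz' _ hy').mpr d⟩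

/-- `o` is between `a` and `b` in one order and not in the other. -/
theorem differ_of_between {ι V : Type*} {pos : ι → V → ℕ} {X : Finset V} {i j : ι}
    {o a b : V} (ho : o ∈ X) (ha : a ∈ X) (hb : b ∈ X)
    (h1 : pos i o < pos i a ↔ pos i o < pos i b)
    (h2 : pos j a < pos j o) (h3 : pos j o < pos j b) : Differ pos X i j := by
  by_contra hcon
  unfold Differ at hcon
  push Not at hcon
  have e1 := (hcon _ ho _ hb).mpr h3
  have e2 := (hcon _ ho _ ha).mp (h1.mpr e1)
  omega

end Pool.Agent.LibShatter
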