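import Mathlib

/-!
Medians, and separation of two populations of intervals.
-/

namespace Pool.Agent.LibShatter

open Finset

variable {α β V : Type*}

theorem median (A : Finset α) (hA : A.Nonempty) (f : α → ℕ) :
    ∃ t, A.card ≤ 2 * (A.filter (fun x => f x ≤ t)).card ∧
      A.card ≤ 2 * (A.filter (fun x => t ≤ f x)).card := by
  classical
  have hex : ∃ t, A.card ≤ 2 * (A.filter (fun x => f x ≤ t)).card := by
    refine ⟨A.sup f, ?_⟩
    have : A.filter (fun x => f x ≤ A.sup f) = A := by
      rw [Finset.filter_true_of_mem]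
      intro x hx
      exact Finset.le_sup hx
    rw [this]; omega
  refine ⟨Nat.find hex, Nat.find_spec hex, ?_⟩
  rcases Nat.eq_zero_or_pos (Nat.find hex) with h0 | h0
  · have : A.filter (fun x => Nat.find hex ≤ f x) = A := by
      rw [Finset.filter_true_of_mem]
      intro x hx
      omega
    rw [this]; omega
  · have h1 := Nat.find_min hex (m := Nat.find hex - 1) (by omega)
    have h2 := Finset.card_filter_add_card_filter_not (s := A)
        (p := fun x => f x ≤ Nat.find hex - 1)
    have h3 : A.filter (fun x => ¬ f x ≤ Nat.find hex - 1) =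
        A.filter (fun x => Nat.find hex ≤ f x) := by
      apply Finset.filter_congr
      intro x _
      omega
    rw [h3] at h2
    omega

theorem nonempty_of_card_le {A A' : Finset α} {c : ℕ} (hA : A.Nonempty)
    (h : A.card ≤ c * A'.card) : A'.Nonempty := by
  rw [← Finset.card_pos] at hA ⊢
  rcases Nat.eq_zero_or_pos A'.card with h0 | h0
  · rw [h0, Nat.mul_zero] at h; omega
  · exact h0

theorem halve (A : Finset α) (B : Finset β) (hA : A.Nonempty) (hB : B.Nonempty)
    (f : α → ℕ) (g : β → ℕ) :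
    ∃ A' ⊆ A, ∃ B' ⊆ B, A.card ≤ 2 * A'.card ∧ B.card ≤ 2 * B'.card ∧
      ((∀ x ∈ A', ∀ y ∈ B', f x ≤ g y) ∨ (∀ x ∈ A', ∀ y ∈ B', g y ≤ f x)) := by
  classical
  obtain ⟨s, hs1, hs2⟩ := median A hA f
  obtain ⟨t, ht1, ht2⟩ := median B hB g
  rcases le_total s t with h | h
  · refine ⟨_, Finset.filter_subset _ _, _, Finset.filter_subset _ _, hs1, ht2, Or.inl ?_⟩
    intro x hx y hy
    rw [Finset.mem_filter] at hx hy
    omega
  · refine ⟨_, Finset.filter_subset _ _, _, Finset.filter_subset _ _, hs2, ht1, Or.inr ?_⟩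
    intro x hx y hy
    rw [Finset.mem_filter] at hx hy
    omega

/-- separate two populations of intervals or find a clique. -/
theorem cut (A : Finset α) (B : Finset β) (hA : A.Nonempty) (hB : B.Nonempty)
    (lf hf : α → ℕ) (lg hg : β → ℕ) :
    (∃ A' ⊆ A, ∃ B' ⊆ B, A.card ≤ 4 * A'.card ∧ B.card ≤ 4 * B'.card ∧
      ((∀ x ∈ A', ∀ y ∈ B', hf x < lg y) ∨ (∀ x ∈ A', ∀ y ∈ B', hg y < lf x))) ∨
    (∃ Z ⊆ A, A.card ≤ 4 * Z.card ∧ ∀ x ∈ Z, ∀ y ∈ Z, lf x ≤ hf y) ∨
    (∃ Z ⊆ B, B.card ≤ 4 * Z.card ∧ ∀ x ∈ Z, ∀ y ∈ Z, lg x ≤ hg y) := by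
  classical
  obtain ⟨s, hs1, hs2⟩ := median A hA hf
  obtain ⟨t, ht1, ht2⟩ := median B hB hg
  rcases le_total s t with h | h
  · -- `A' = {hf ≤ s}`
    set B1 := B.filter (fun y => t ≤ hg y) with hB1
    have hsplit := Finset.card_filter_add_card_filter_not (s := B1) (p := fun y => s < lg y)
    by_cases hc : B.card ≤ 4 * (B1.filter (fun y => s < lg y)).card
    · left
      refine ⟨A.filter (fun x => hf x ≤ s), Finset.filter_subset _ _,
        B1.filter (fun y => s < lg y), (Finset.filter_subset _ _).trans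
        (Finset.filter_subset _ _), by omega, hc, Or.inl ?_⟩
      intro x hx y hy
      rw [Finset.mem_filter] at hx hy
      omega
    · right; right
      refine ⟨B1.filter (fun y => ¬ s < lg y), (Finset.filter_subset _ _).trans
        (Finset.filter_subset _ _), by omega, ?_⟩
      intro x hx y hy
      rw [Finset.mem_filter] at hx hy
      have := (Finset.mem_filter.mp hy.1).2
      omega
  · set A1 := A.filter (fun y => s ≤ hf y) with hA1
    have hsplit := Finset.card_filter_add_card_filter_not (s := A1) (p := fun y => t < lf y)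
    by_cases hc : A.card ≤ 4 * (A1.filter (fun y => t < lf y)).card
    · left
      refine ⟨A1.filter (fun y => t < lf y), (Finset.filter_subset _ _).trans
        (Finset.filter_subset _ _), B.filter (fun x => hg x ≤ t),
        Finset.filter_subset _ _, hc, by omega, Or.inr ?_⟩
      intro x hx y hy
      rw [Finset.mem_filter] at hx hy
      omega
    · right; left
      refine ⟨A1.filter (fun y => ¬ t < lf y), (Finset.filter_subset _ _).trans
        (Finset.filter_subset _ _), by omega, ?_⟩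
      intro x hx y hy
      rw [Finset.mem_filter] at hx hy
      have := (Finset.mem_filter.mp hy.1).2
      omega

theorem refine_sep {ι : Type*} [DecidableEq ι] (lf hf : ι → α → ℕ) (lg hg : ι → β → ℕ)
    (A : Finset α) (B : Finset β) (hA : A.Nonempty) (hB : B.Nonempty) (L : Finset ι) :
    (∃ A' ⊆ A, ∃ B' ⊆ B, A.card ≤ 4 ^ L.card * A'.card ∧ B.card ≤ 4 ^ L.card * B'.card ∧
      ∀ i ∈ L, ((∀ x ∈ A', ∀ y ∈ B', hf i x < lg i y) ∨
        (∀ x ∈ A', ∀ y ∈ B', hg i y < lf i x))) ∨
    (∃ i ∈ L, ∃ Z ⊆ A, A.card ≤ 4 ^ L.card * Z.card ∧ ∀ x ∈ Z, ∀ y ∈ Z, lf i x ≤ hf i y) ∨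
    (∃ i ∈ L, ∃ Z ⊆ B, B.card ≤ 4 ^ L.card * Z.card ∧ ∀ x ∈ Z, ∀ y ∈ Z, lg i x ≤ hg i y) := by
  induction L using Finset.induction_on with
  | empty =>
    left
    exact ⟨A, Finset.Subset.refl _, B, Finset.Subset.refl _, by simp, by simp, by simp⟩
  | insert j L hj ih =>
    have hpow : 4 ^ (insert j L).card = 4 ^ L.card * 4 := by
      rw [Finset.card_insert_of_notMem hj, pow_succ]
    rw [hpow]
    rcases ih with ⟨A', hA', B', hB', hcA, hcB, hsep⟩ | ⟨i, hi, Z, hZ, hcZ, hcl⟩ |
      ⟨i, hi, Z, hZ, hcZ, hcl⟩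
    · have hA'n : A'.Nonempty := nonempty_of_card_le hA hcA
      have hB'n : B'.Nonempty := nonempty_of_card_le hB hcB
      rcases cut A' B' hA'n hB'n (lf j) (hf j) (lg j) (hg j) with
        ⟨A2, hA2, B2, hB2, h2A, h2B, hs⟩ | ⟨Z, hZ, hcZ, hcl⟩ | ⟨Z, hZ, hcZ, hcl⟩
      · left
        refine ⟨A2, hA2.trans hA', B2, hB2.trans hB', ?_, ?_, ?_⟩
        · calc A.card ≤ 4 ^ L.card * A'.card := hcA
            _ ≤ 4 ^ L.card * (4 * A2.card) := Nat.mul_le_mul_left _ h2A
            _ = _ := by ring
        · calc B.card ≤ 4 ^ L.card * B'.card := hcB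
            _ ≤ 4 ^ L.card * (4 * B2.card) := Nat.mul_le_mul_left _ h2B
            _ = _ := by ring
        · intro i hi
          rw [Finset.mem_insert] at hi
          rcases hi with rfl | hi
          · exact hs
          · rcases hsep i hi with h | h
            · left; intro x hx y hy; exact h x (hA2 hx) y (hB2 hy)
            · right; intro x hx y hy; exact h x (hA2 hx) y (hB2 hy)
      · right; left
        refine ⟨j, Finset.mem_insert_self _ _, Z, hZ.trans hA', ?_, hcl⟩
        calc A.card ≤ 4 ^ L.card * A'.card := hcA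
            _ ≤ 4 ^ L.card * (4 * Z.card) := Nat.mul_le_mul_left _ hcZ
            _ = _ := by ring
      · right; right
        refine ⟨j, Finset.mem_insert_self _ _, Z, hZ.trans hB', ?_, hcl⟩
        calc B.card ≤ 4 ^ L.card * B'.card := hcB
            _ ≤ 4 ^ L.card * (4 * Z.card) := Nat.mul_le_mul_left _ hcZ
            _ = _ := by ring
    · right; left
      refine ⟨i, Finset.mem_insert_of_mem hi, Z, hZ, le_trans hcZ ?_, hcl⟩
      nlinarith [Nat.zero_le (4 ^ L.card * Z.card)]
    · right; right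
      refine ⟨i, Finset.mem_insert_of_mem hi, Z, hZ, le_trans hcZ ?_, hcl⟩
      nlinarith [Nat.zero_le (4 ^ L.card * Z.card)]

theorem refine_ord {ι : Type*} [DecidableEq ι] (u : ι → α → ℕ) (v : ι → β → ℕ)
    (A : Finset α) (B : Finset β) (hA : A.Nonempty) (hB : B.Nonempty) (L : Finset ι) :
    ∃ A' ⊆ A, ∃ B' ⊆ B, ∃ η ⊆ L, A.card ≤ 2 ^ L.card * A'.card ∧
      B.card ≤ 2 ^ L.card * B'.card ∧
      ∀ i ∈ L, (i ∈ η → ∀ x ∈ A', ∀ y ∈ B', u i x ≤ v i y) ∧
        (i ∉ η → ∀ x ∈ A', ∀ y ∈ B', v i y ≤ u i x) := by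
  induction L using Finset.induction_on with
  | empty =>
    exact ⟨A, Finset.Subset.refl _, B, Finset.Subset.refl _, ∅, Finset.Subset.refl _,
      by simp, by simp, by simp⟩
  | insert j L hj ih =>
    have hpow : 2 ^ (insert j L).card = 2 ^ L.card * 2 := by
      rw [Finset.card_insert_of_notMem hj, pow_succ]
    rw [hpow]
    obtain ⟨A', hA', B', hB', η, hη, hcA, hcB, hsep⟩ := ih
    have hA'n : A'.Nonempty := nonempty_of_card_le hA hcA
    have hB'n : B'.Nonempty := nonempty_of_card_le hB hcB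
    obtain ⟨A2, hA2, B2, hB2, h2A, h2B, hs⟩ := halve A' B' hA'n hB'n (u j) (v j)
    have e1 : A.card ≤ 2 ^ L.card * 2 * A2.card := by
      calc A.card ≤ 2 ^ L.card * A'.card := hcA
        _ ≤ 2 ^ L.card * (2 * A2.card) := Nat.mul_le_mul_left _ h2A
        _ = _ := by ring
    have e2 : B.card ≤ 2 ^ L.card * 2 * B2.card := by
      calc B.card ≤ 2 ^ L.card * B'.card := hcB
        _ ≤ 2 ^ L.card * (2 * B2.card) := Nat.mul_le_mul_left _ h2B
        _ = _ := by ring
    have hne : ∀ i ∈ L, i ≠ j := by rintro i hi rfl; exact hj hi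
    rcases hs with hs | hs
    · refine ⟨A2, hA2.trans hA', B2, hB2.trans hB', insert j η,
        Finset.insert_subset_insert _ hη, e1, e2, ?_⟩
      intro i hi
      rw [Finset.mem_insert] at hi
      rcases hi with rfl | hi
      · refine ⟨fun _ => hs, fun h => ?_⟩
        exact absurd (Finset.mem_insert_self _ _) h
      · have hij := hne i hi
        constructor
        · intro h x hx y hy
          rw [Finset.mem_insert] at h
          rcases h with h | h
          · exact absurd h hij
          · exact (hsep i hi).1 h x (hA2 hx) y (hB2 hy)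
        · intro h x hx y hy
          rw [Finset.mem_insert, not_or] at h
          exact (hsep i hi).2 h.2 x (hA2 hx) y (hB2 hy)
    · refine ⟨A2, hA2.trans hA', B2, hB2.trans hB', η,
        hη.trans (Finset.subset_insert _ _), e1, e2, ?_⟩
      intro i hi
      rw [Finset.mem_insert] at hi
      rcases hi with rfl | hi
      · refine ⟨fun h => absurd (hη h) hj, fun _ => hs⟩
      · constructor
        · intro h x hx y hy
          exact (hsep i hi).1 h x (hA2 hx) y (hB2 hy)
        · intro h x hx y hy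
          exact (hsep i hi).2 h x (hA2 hx) y (hB2 hy)

end Pool.Agent.LibShatter
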