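import Mathlib
import Pool.Agent.LibShatter.Cells
import Pool.Agent.LibShatter.Refine

/-!
The main induction of the lower bound.
-/

namespace Pool.Agent.LibShatter

open Finset

variable {V : Type*} {m : ℕ} (pos : Fin m → V → ℕ)

/-- left end of the interval of a pair. -/
def lo (i : Fin m) (x : V × V) : ℕ := min (pos i x.1) (pos i x.2)

/-- right end of the interval of a pair. -/
def hi (i : Fin m) (x : V × V) : ℕ := max (pos i x.1) (pos i x.2)

/-- the pair `x` is ordered in the `i`-th order as prescribed by `s`. -/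
structure HasType (s : Fin m → Bool) (x : V × V) : Prop where
  ne : x.1 ≠ x.2
  iff : ∀ i, pos i x.1 < pos i x.2 ↔ s i = true

/-- position of an outside pair `y` relative to a population. -/
structure Rel (E : Finset (Fin m)) (η : Finset (Fin m) × Finset (Fin m)) (y : V × V)
    {α : Type*} (P : Finset α) (pt : α → V × V) : Prop where
  out : ∀ i, i ∉ E → (∀ w ∈ P, hi pos i (pt w) < lo pos i y) ∨
    (∀ w ∈ P, hi pos i y < lo pos i (pt w))
  cross : ∀ i ∈ E, ∀ w ∈ P, lo pos i (pt w) ≤ hi pos i y ∧ lo pos i y ≤ hi pos i (pt w)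
  a1 : ∀ i ∈ E, i ∈ η.1 → ∀ w ∈ P, pos i (pt w).1 ≤ pos i y.1
  a2 : ∀ i ∈ E, i ∉ η.1 → ∀ w ∈ P, pos i y.1 ≤ pos i (pt w).1
  b1 : ∀ i ∈ E, i ∈ η.2 → ∀ w ∈ P, pos i (pt w).2 ≤ pos i y.2
  b2 : ∀ i ∈ E, i ∉ η.2 → ∀ w ∈ P, pos i y.2 ≤ pos i (pt w).2

/-- the target configuration. -/
structure Config (K : ℕ) (E : Finset (Fin m)) (x₁ x₂ x₃ : V × V) : Prop where
  card : E.card ≤ K
  sep12 : ∀ i, i ∉ E → hi pos i x₁ < lo pos i x₂ ∨ hi pos i x₂ < lo pos i x₁
  sep3 : ∀ i, i ∉ E → (hi pos i x₁ < lo pos i x₃ ∧ hi pos i x₂ < lo pos i x₃) ∨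
    (hi pos i x₃ < lo pos i x₁ ∧ hi pos i x₃ < lo pos i x₂)
  cross12 : ∀ i ∈ E, lo pos i x₁ ≤ hi pos i x₂ ∧ lo pos i x₂ ≤ hi pos i x₁
  cross13 : ∀ i ∈ E, lo pos i x₁ ≤ hi pos i x₃ ∧ lo pos i x₃ ≤ hi pos i x₁
  cross23 : ∀ i ∈ E, lo pos i x₂ ≤ hi pos i x₃ ∧ lo pos i x₃ ≤ hi pos i x₂
  amono : ∀ i ∈ E, (pos i x₁.1 ≤ pos i x₂.1 ∧ pos i x₂.1 ≤ pos i x₃.1) ∨
    (pos i x₃.1 ≤ pos i x₂.1 ∧ pos i x₂.1 ≤ pos i x₁.1)
  bmono : ∀ i ∈ E, (pos i x₁.2 ≤ pos i x₂.2 ∧ pos i x₂.2 ≤ pos i x₃.2) ∨
    (pos i x₃.2 ≤ pos i x₂.2 ∧ pos i x₂.2 ≤ pos i x₁.2)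

/-- the leaf cell of a word of words. -/
def leafcell (Q : ℕ) : (r : ℕ) → (Fin r → (Fin m → Fin Q)) → Finset V → Finset V
  | 0, _, X => X
  | r + 1, w, X => leafcell Q r (Fin.tail w) (cell Q m pos (w 0) X)

theorem leafcell_subset (Q : ℕ) : ∀ (r : ℕ) (w : Fin r → (Fin m → Fin Q)) (X : Finset V),
    leafcell pos Q r w X ⊆ X
  | 0, _, X => by simp [leafcell]
  | r + 1, w, X => by
      rw [leafcell]
      exact (leafcell_subset Q r _ _).trans (cell_subset _ _ _ _ _)

theorem card_leafcell (Q : ℕ) (hpos : ∀ i, Function.Injective (pos i)) :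
    ∀ (r : ℕ) (w : Fin r → (Fin m → Fin Q)) (X : Finset V) (N : ℕ)
    (_ : N * (Q ^ m) ^ r ≤ X.card), N ≤ (leafcell pos Q r w X).card
  | 0, _, X, N, h => by simpa [leafcell] using h
  | r + 1, w, X, N, h => by
      rw [leafcell]
      apply card_leafcell Q hpos r
      apply card_cell Q m pos hpos
      rw [mul_assoc, ← pow_succ]
      exact h

/-- number of branchings still needed. -/
def fuel (K : ℕ) (E : Finset (Fin m)) (H : Finset (Finset (Fin m) × Finset (Fin m))) : ℕ :=
  (K - E.card) * (4 ^ K + 1) + ((E.powerset ×ˢ E.powerset) \ H).card + 1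

theorem fuel_insert_pattern {K : ℕ} {E : Finset (Fin m)}
    {H : Finset (Finset (Fin m) × Finset (Fin m))} {η : Finset (Fin m) × Finset (Fin m)}
    (hη : η ∈ E.powerset ×ˢ E.powerset) (hη2 : η ∉ H) :
    fuel K E (insert η H) + 1 ≤ fuel K E H := by
  unfold fuel
  have h1 : ((E.powerset ×ˢ E.powerset) \ insert η H).card <
      ((E.powerset ×ˢ E.powerset) \ H).card := by
    apply Finset.card_lt_card
    rw [Finset.ssubset_iff_of_subset]
    · exact ⟨η, Finset.mem_sdiff.mpr ⟨hη, hη2⟩, by simp⟩
    · intro x hx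
      rw [Finset.mem_sdiff] at hx ⊢
      refine ⟨hx.1, fun h => hx.2 (Finset.mem_insert_of_mem h)⟩
  omega

theorem fuel_insert_clique {K : ℕ} {E : Finset (Fin m)}
    {H : Finset (Finset (Fin m) × Finset (Fin m))} {i : Fin m}
    (hi : i ∉ E) (hE : (insert i E).card ≤ K) :
    fuel K (insert i E) ∅ + 1 ≤ fuel K E H := by
  unfold fuel
  have h0 : (insert i E).card = E.card + 1 := Finset.card_insert_of_notMem hi
  have h1 : (((insert i E).powerset ×ˢ (insert i E).powerset) \ ∅).card ≤ 4 ^ K := by
    rw [Finset.sdiff_empty, Finset.card_product, Finset.card_powerset, ← pow_add, ← two_mul,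
      pow_mul]
    exact Nat.pow_le_pow_right (by norm_num) hE
  have h2 : K - E.card = (K - (insert i E).card) + 1 := by omega
  rw [h2, Nat.add_mul]
  omega

theorem inv_branch {N K lam r T T' a p z : ℕ} (hN : 0 < N) (hK : 2 * K + 1 ≤ lam)
    (hT : T' + 1 ≤ T) (hTr : 2 * T ≤ r + 1) (hpa : p ≤ 2 * N * a) (haz : a ≤ 4 ^ K * z)
    (hinv : N ^ (r + 1) ≤ p * 2 ^ (lam * (r + 1 - 2 * T))) :
    2 * T' ≤ r ∧ N ^ r ≤ z * 2 ^ (lam * (r - 2 * T')) := by
  refine ⟨by omega, ?_⟩
  have h1 : p ≤ N * z * 2 ^ lam := by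
    calc p ≤ 2 * N * a := hpa
      _ ≤ 2 * N * (4 ^ K * z) := Nat.mul_le_mul_left _ haz
      _ = N * z * 2 ^ (2 * K + 1) := by
          rw [pow_succ, pow_mul]; norm_num; ring
      _ ≤ N * z * 2 ^ lam := Nat.mul_le_mul_left _ (Nat.pow_le_pow_right (by norm_num) hK)
  have h2 : N * N ^ r ≤ N * (z * 2 ^ (lam * (r - 2 * T'))) := by
    calc N * N ^ r = N ^ (r + 1) := by rw [pow_succ]; ring
      _ ≤ p * 2 ^ (lam * (r + 1 - 2 * T)) := hinv
      _ ≤ N * z * 2 ^ lam * 2 ^ (lam * (r + 1 - 2 * T)) := Nat.mul_le_mul_right _ h1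
      _ = N * z * 2 ^ (lam * (r + 1 - 2 * T + 1)) := by
          rw [mul_assoc (N * z), ← pow_add]; congr 2; ring
      _ ≤ N * z * 2 ^ (lam * (r - 2 * T')) := by
          apply Nat.mul_le_mul_left
          apply Nat.pow_le_pow_right (by norm_num)
          apply Nat.mul_le_mul_left
          omega
      _ = _ := by ring
  exact Nat.le_of_mul_le_mul_left h2 hN

theorem hi_lt_lo {i : Fin m} {x y : V × V} {A B : Finset V}
    (h : ∀ a ∈ A, ∀ b ∈ B, pos i a < pos i b) (hx1 : x.1 ∈ A) (hx2 : x.2 ∈ A)
    (hy1 : y.1 ∈ B) (hy2 : y.2 ∈ B) : hi pos i x < lo pos i y := by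
  unfold hi lo
  rw [max_lt_iff, lt_min_iff, lt_min_iff]
  exact ⟨⟨h _ hx1 _ hy1, h _ hx1 _ hy2⟩, ⟨h _ hx2 _ hy1, h _ hx2 _ hy2⟩⟩

open Classical in
theorem main_induction {Q K lam : ℕ} (hK : 2 * K + 1 ≤ lam)
    (hW : 0 < Fintype.card (Fin m → Fin Q))
    (hbad : ∀ (X : Finset V) (R : Finset (Fin m → Fin Q)),
      (∀ c ∈ R, ∀ c' ∈ R, K < (nsep pos (cell Q m pos c X) (cell Q m pos c' X)).card) →
      R.card * (4 * 2 ^ lam) ≤ 2 * Fintype.card (Fin m → Fin Q))
    (s : Fin m → Bool) :
    ∀ (r : ℕ) (X : Finset V) (P : Finset (Fin r → (Fin m → Fin Q)))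
      (pt : (Fin r → (Fin m → Fin Q)) → V × V) (E : Finset (Fin m))
      (H : Finset (Finset (Fin m) × Finset (Fin m))),
      (∀ w ∈ P, (pt w).1 ∈ leafcell pos Q r w X ∧ (pt w).2 ∈ leafcell pos Q r w X) →
      (∀ w ∈ P, HasType pos s (pt w)) →
      (∀ i ∈ E, ∀ w ∈ P, ∀ w' ∈ P, lo pos i (pt w) ≤ hi pos i (pt w')) →
      (∀ η ∈ H, ∃ y, HasType pos s y ∧ Rel pos E η y P pt) →
      2 * fuel K E H ≤ r →
      (Fintype.card (Fin m → Fin Q)) ^ r ≤ P.card * 2 ^ (lam * (r - 2 * fuel K E H)) →
      ∃ (E' : Finset (Fin m)) (x₁ x₂ x₃ : V × V), HasType pos s x₁ ∧ HasType pos s x₂ ∧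
        HasType pos s x₃ ∧ Config pos K E' x₁ x₂ x₃ := by
  intro r
  induction r with
  | zero =>
    intro X P pt E H _ _ _ _ hf _
    exfalso
    unfold fuel at hf
    omega
  | succ r ih =>
    intro X P pt E H hmem htype hclique hH hf hinv
    set N := Fintype.card (Fin m → Fin Q) with hN
    have hPpos : 0 < P.card := by
      rcases Nat.eq_zero_or_pos P.card with h0 | h0
      · rw [h0, Nat.zero_mul] at hinv
        have : 0 < N ^ (r + 1) := Nat.pow_pos hW
        omega
      · exact h0
    let Pc : (Fin m → Fin Q) → Finset (Fin r → (Fin m → Fin Q)) := fun c =>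
      Finset.univ.filter (fun w' => (Fin.cons c w' : Fin (r + 1) → (Fin m → Fin Q)) ∈ P)
    have hPcmem : ∀ c w', w' ∈ Pc c ↔ (Fin.cons c w' : Fin (r + 1) → (Fin m → Fin Q)) ∈ P := by
      intro c w'
      simp [Pc]
    have hsum : ∑ c, (Pc c).card = P.card := by
      have h1 : P.card = ∑ w : Fin (r + 1) → (Fin m → Fin Q), if w ∈ P then 1 else 0 := by
        rw [Finset.sum_ite_mem]
        simp
      rw [h1, ← (Fin.consEquiv (fun _ => (Fin m → Fin Q))).sum_comp, Fintype.sum_prod_type]
      apply Finset.sum_congr rfl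
      intro c _
      simp only [Pc]
      rw [Finset.card_filter]
      rfl
    set R : Finset (Fin m → Fin Q) := Finset.univ.filter (fun c => P.card ≤ 2 * N * (Pc c).card)
      with hR
    have hRsum : P.card ≤ 2 * ∑ c ∈ R, (Pc c).card := by
      set Rc : Finset (Fin m → Fin Q) :=
        Finset.univ.filter (fun c => ¬ P.card ≤ 2 * N * (Pc c).card) with hRc
      have h1 : ∑ c ∈ R, (Pc c).card + ∑ c ∈ Rc, (Pc c).card = P.card := by
        rw [← hsum, hR, hRc]
        exact Finset.sum_filter_add_sum_filter_not _ _ _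
      have h2 : 2 * N * ∑ c ∈ Rc, (Pc c).card ≤ N * P.card := by
        rw [Finset.mul_sum]
        calc _ ≤ ∑ c ∈ Rc, P.card := by
              apply Finset.sum_le_sum
              intro c hc
              rw [hRc, Finset.mem_filter] at hc
              omega
          _ = Rc.card * P.card := by
              rw [Finset.sum_const, smul_eq_mul]
          _ ≤ N * P.card := by
              apply Nat.mul_le_mul_right
              rw [hN]
              exact Finset.card_le_univ _
      have h3 : 2 * ∑ c ∈ Rc, (Pc c).card ≤ P.card := by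
        have h4 : N * (2 * ∑ c ∈ Rc, (Pc c).card) ≤ N * P.card := by
          calc N * (2 * ∑ c ∈ Rc, (Pc c).card) = 2 * N * ∑ c ∈ Rc, (Pc c).card := by ring
            _ ≤ _ := h2
        exact Nat.le_of_mul_le_mul_left h4 hW
      omega
    -- data inherited by a child
    have hchild : ∀ (c : Fin m → Fin Q) (Z : Finset (Fin r → (Fin m → Fin Q))), Z ⊆ Pc c →
        ∀ w ∈ Z, (pt (Fin.cons c w)).1 ∈ leafcell pos Q r w (cell Q m pos c X) ∧
          (pt (Fin.cons c w)).2 ∈ leafcell pos Q r w (cell Q m pos c X) := by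
      intro c Z hZ w hw
      have h1 := hmem (Fin.cons c w) ((hPcmem c w).mp (hZ hw))
      rw [leafcell] at h1
      simpa only [Fin.cons_zero, Fin.tail_cons] using h1
    have hcellmem : ∀ (c : Fin m → Fin Q), ∀ w ∈ Pc c,
        (pt (Fin.cons c w)).1 ∈ cell Q m pos c X ∧ (pt (Fin.cons c w)).2 ∈ cell Q m pos c X := by
      intro c w hw
      have h1 := hchild c (Pc c) (Finset.Subset.refl _) w hw
      exact ⟨leafcell_subset pos Q r _ _ h1.1, leafcell_subset pos Q r _ _ h1.2⟩
    by_cases hgood : ∃ c ∈ R, ∃ c' ∈ R,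
        (nsep pos (cell Q m pos c X) (cell Q m pos c' X)).card ≤ K
    · -- branching
      obtain ⟨c, hc, c', hc', hcc⟩ := hgood
      set EE := nsep pos (cell Q m pos c X) (cell Q m pos c' X) with hEE
      have hcR : P.card ≤ 2 * N * (Pc c).card := (Finset.mem_filter.mp hc).2
      have hcR' : P.card ≤ 2 * N * (Pc c').card := (Finset.mem_filter.mp hc').2
      have hAn : (Pc c).Nonempty := by
        rw [← Finset.card_pos]
        rcases Nat.eq_zero_or_pos (Pc c).card with h0 | h0
        · rw [h0, Nat.mul_zero] at hcR; omega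
        · exact h0
      have hBn : (Pc c').Nonempty := by
        rw [← Finset.card_pos]
        rcases Nat.eq_zero_or_pos (Pc c').card with h0 | h0
        · rw [h0, Nat.mul_zero] at hcR'; omega
        · exact h0
      have hsepout : ∀ i, i ∉ EE →
          (∀ w ∈ Pc c, ∀ w' ∈ Pc c', hi pos i (pt (Fin.cons c w)) <
            lo pos i (pt (Fin.cons c' w'))) ∨
          (∀ w ∈ Pc c, ∀ w' ∈ Pc c', hi pos i (pt (Fin.cons c' w')) <
            lo pos i (pt (Fin.cons c w))) := by
        intro i hi
        have h1 : Sep (pos i) (cell Q m pos c X) (cell Q m pos c' X) := by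
          by_contra hcon
          apply hi
          rw [hEE]
          unfold nsep
          rw [Finset.mem_filter]
          exact ⟨Finset.mem_univ _, hcon⟩
        rcases h1 with h1 | h1
        · left
          intro w hw w' hw'
          exact hi_lt_lo pos h1 (hcellmem c w hw).1 (hcellmem c w hw).2
            (hcellmem c' w' hw').1 (hcellmem c' w' hw').2
        · right
          intro w hw w' hw'
          exact hi_lt_lo pos (fun a ha b hb => h1 b hb a ha) (hcellmem c' w' hw').1
            (hcellmem c' w' hw').2 (hcellmem c w hw).1 (hcellmem c w hw).2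
      have hEsub : E ⊆ EE := by
        intro i hiE
        by_contra hcon
        obtain ⟨w, hw⟩ := hAn
        obtain ⟨w', hw'⟩ := hBn
        have h1 := hclique i hiE _ ((hPcmem c w).mp hw) _ ((hPcmem c' w').mp hw')
        have h2 := hclique i hiE _ ((hPcmem c' w').mp hw') _ ((hPcmem c w).mp hw)
        rcases hsepout i hcon with h | h
        · have := h w hw w' hw'; omega
        · have := h w hw w' hw'; omega
      have hEcard : E.card ≤ K := le_trans (Finset.card_le_card hEsub) hcc
      have hLcard : (EE \ E).card + E.card = EE.card := by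
        rw [Finset.card_sdiff_of_subset hEsub]
        have := Finset.card_le_card hEsub
        omega
      have hpowL : 4 ^ (EE \ E).card ≤ 4 ^ K := Nat.pow_le_pow_right (by norm_num) (by omega)
      -- continuing with a clique
      have hcont : ∀ (d : Fin m → Fin Q), P.card ≤ 2 * N * (Pc d).card → ∀ i ∈ EE \ E,
          ∀ Z ⊆ Pc d, (Pc d).card ≤ 4 ^ (EE \ E).card * Z.card →
          (∀ x ∈ Z, ∀ y ∈ Z, lo pos i (pt (Fin.cons d x)) ≤ hi pos i (pt (Fin.cons d y))) →
          ∃ (E' : Finset (Fin m)) (x₁ x₂ x₃ : V × V), HasType pos s x₁ ∧ HasType pos s x₂ ∧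
            HasType pos s x₃ ∧ Config pos K E' x₁ x₂ x₃ := by
        intro d hd i hi Z hZ hcZ hcl
        have hiE : i ∉ E := (Finset.mem_sdiff.mp hi).2
        have hins : (insert i E).card ≤ K := by
          apply le_trans _ hcc
          apply Finset.card_le_card
          intro j hj
          rw [Finset.mem_insert] at hj
          rcases hj with rfl | hj
          · exact (Finset.mem_sdiff.mp hi).1
          · exact hEsub hj
        have hfu := fuel_insert_clique (H := H) hiE hins
        obtain ⟨g1, g2⟩ := inv_branch (z := Z.card) hW hK hfu hf hd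
          (le_trans hcZ (Nat.mul_le_mul_right _ hpowL)) hinv
        apply ih (cell Q m pos d X) Z (fun w => pt (Fin.cons d w)) (insert i E) ∅
          (hchild d Z hZ) (fun w hw => htype _ ((hPcmem d w).mp (hZ hw))) ?_ (by simp) g1 g2
        intro j hj w hw w' hw'
        rw [Finset.mem_insert] at hj
        rcases hj with rfl | hj
        · exact hcl w hw w' hw'
        · exact hclique j hj _ ((hPcmem d w).mp (hZ hw)) _ ((hPcmem d w').mp (hZ hw'))
      rcases refine_sep (fun i w => lo pos i (pt (Fin.cons c w)))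
        (fun i w => hi pos i (pt (Fin.cons c w))) (fun i w => lo pos i (pt (Fin.cons c' w)))
        (fun i w => hi pos i (pt (Fin.cons c' w))) (Pc c) (Pc c') hAn hBn (EE \ E) with
        ⟨A', hA', B', hB', hcA, hcB, hsepL⟩ | ⟨i, hi, Z, hZ, hcZ, hcl⟩ | ⟨i, hi, Z, hZ, hcZ, hcl⟩
      · have hA'n := nonempty_of_card_le hAn hcA
        have hB'n := nonempty_of_card_le hBn hcB
        obtain ⟨A1, hA1, B1, hB1, η1, hη1, hcA1, hcB1, ho1⟩ := refine_ord
          (fun i w => pos i (pt (Fin.cons c w)).1) (fun i w => pos i (pt (Fin.cons c' w)).1)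
          A' B' hA'n hB'n E
        have hA1n := nonempty_of_card_le hA'n hcA1
        have hB1n := nonempty_of_card_le hB'n hcB1
        obtain ⟨A2, hA2, B2, hB2, η2, hη2, hcA2, hcB2, ho2⟩ := refine_ord
          (fun i w => pos i (pt (Fin.cons c w)).2) (fun i w => pos i (pt (Fin.cons c' w)).2)
          A1 B1 hA1n hB1n E
        have hA2n := nonempty_of_card_le hA1n hcA2
        have hB2n := nonempty_of_card_le hB1n hcB2
        have hA2P : A2 ⊆ Pc c := hA2.trans (hA1.trans hA')
        have hB2P : B2 ⊆ Pc c' := hB2.trans (hB1.trans hB')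
        -- separation outside E
        have hsepAll : ∀ i, i ∉ E →
            (∀ w ∈ A2, ∀ w' ∈ B2, hi pos i (pt (Fin.cons c w)) <
              lo pos i (pt (Fin.cons c' w'))) ∨
            (∀ w ∈ A2, ∀ w' ∈ B2, hi pos i (pt (Fin.cons c' w')) <
              lo pos i (pt (Fin.cons c w))) := by
          intro i hiE
          by_cases hiEE : i ∈ EE
          · rcases hsepL i (Finset.mem_sdiff.mpr ⟨hiEE, hiE⟩) with h | h
            · left; intro w hw w' hw'
              exact h w (hA1 (hA2 hw)) w' (hB1 (hB2 hw'))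
            · right; intro w hw w' hw'
              exact h w (hA1 (hA2 hw)) w' (hB1 (hB2 hw'))
          · rcases hsepout i hiEE with h | h
            · left; intro w hw w' hw'
              exact h w (hA2P hw) w' (hB2P hw')
            · right; intro w hw w' hw'
              exact h w (hA2P hw) w' (hB2P hw')
        obtain ⟨w₀, hw₀⟩ := hA2n
        obtain ⟨v₀, hv₀⟩ := hB2n
        have hw₀P := (hPcmem c w₀).mp (hA2P hw₀)
        have hv₀P := (hPcmem c' v₀).mp (hB2P hv₀)
        by_cases hη : (η1, η2) ∈ H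
        · -- repeated pattern: configuration found
          obtain ⟨y, hy, hrel⟩ := hH _ hη
          refine ⟨E, pt (Fin.cons c w₀), pt (Fin.cons c' v₀), y, htype _ hw₀P, htype _ hv₀P,
            hy, ?_⟩
          refine ⟨hEcard, ?_, ?_, ?_, ?_, ?_, ?_, ?_⟩
          · intro i hiE
            rcases hsepAll i hiE with h | h
            · left; exact h _ hw₀ _ hv₀
            · right; exact h _ hw₀ _ hv₀
          · intro i hiE
            rcases hrel.out i hiE with h | h
            · left; exact ⟨h _ hw₀P, h _ hv₀P⟩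
            · right; exact ⟨h _ hw₀P, h _ hv₀P⟩
          · intro i hiE
            exact ⟨hclique i hiE _ hw₀P _ hv₀P, hclique i hiE _ hv₀P _ hw₀P⟩
          · intro i hiE
            exact hrel.cross i hiE _ hw₀P
          · intro i hiE
            exact hrel.cross i hiE _ hv₀P
          · intro i hiE
            by_cases h : i ∈ η1
            · left
              exact ⟨(ho1 i hiE).1 h _ (hA2 hw₀) _ (hB2 hv₀), hrel.a1 i hiE h _ hv₀P⟩
            · right
              exact ⟨hrel.a2 i hiE h _ hv₀P, (ho1 i hiE).2 h _ (hA2 hw₀) _ (hB2 hv₀)⟩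
          · intro i hiE
            by_cases h : i ∈ η2
            · left
              exact ⟨(ho2 i hiE).1 h _ hw₀ _ hv₀, hrel.b1 i hiE h _ hv₀P⟩
            · right
              exact ⟨hrel.b2 i hiE h _ hv₀P, (ho2 i hiE).2 h _ hw₀ _ hv₀⟩
        · -- new pattern
          have hfu := fuel_insert_pattern (K := K) (E := E) (H := H) (η := (η1, η2))
            (by rw [Finset.mem_product, Finset.mem_powerset, Finset.mem_powerset]
                exact ⟨hη1, hη2⟩) hη
          have hcard : (Pc c).card ≤ 4 ^ K * A2.card := by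
            calc (Pc c).card ≤ 4 ^ (EE \ E).card * A'.card := hcA
              _ ≤ 4 ^ (EE \ E).card * (2 ^ E.card * A1.card) := Nat.mul_le_mul_left _ hcA1
              _ ≤ 4 ^ (EE \ E).card * (2 ^ E.card * (2 ^ E.card * A2.card)) := by
                  apply Nat.mul_le_mul_left
                  exact Nat.mul_le_mul_left _ hcA2
              _ = 4 ^ (EE \ E).card * 4 ^ E.card * A2.card := by
                  have : (4 : ℕ) ^ E.card = 2 ^ E.card * 2 ^ E.card := by
                    rw [← mul_pow]; norm_num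
                  rw [this]; ring
              _ = 4 ^ EE.card * A2.card := by rw [← pow_add, hLcard]
              _ ≤ 4 ^ K * A2.card := Nat.mul_le_mul_right _
                  (Nat.pow_le_pow_right (by norm_num) hcc)
          obtain ⟨g1, g2⟩ := inv_branch (z := A2.card) hW hK hfu hf hcR hcard hinv
          apply ih (cell Q m pos c X) A2 (fun w => pt (Fin.cons c w)) E (insert (η1, η2) H)
            (hchild c A2 hA2P) (fun w hw => htype _ ((hPcmem c w).mp (hA2P hw))) ?_ ?_ g1 g2
          · intro i hiE w hw w' hw'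
            exact hclique i hiE _ ((hPcmem c w).mp (hA2P hw)) _ ((hPcmem c w').mp (hA2P hw'))
          · intro η hη'
            rw [Finset.mem_insert] at hη'
            rcases hη' with rfl | hη'
            · refine ⟨pt (Fin.cons c' v₀), htype _ hv₀P, ?_⟩
              refine ⟨?_, ?_, ?_, ?_, ?_, ?_⟩
              · intro i hiE
                rcases hsepAll i hiE with h | h
                · left; intro w hw; exact h w hw _ hv₀
                · right; intro w hw; exact h w hw _ hv₀
              · intro i hiE w hw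
                exact ⟨hclique i hiE _ ((hPcmem c w).mp (hA2P hw)) _ hv₀P,
                  hclique i hiE _ hv₀P _ ((hPcmem c w).mp (hA2P hw))⟩
              · intro i hiE h w hw
                exact (ho1 i hiE).1 h w (hA2 hw) _ (hB2 hv₀)
              · intro i hiE h w hw
                exact (ho1 i hiE).2 h w (hA2 hw) _ (hB2 hv₀)
              · intro i hiE h w hw
                exact (ho2 i hiE).1 h w hw _ hv₀
              · intro i hiE h w hw
                exact (ho2 i hiE).2 h w hw _ hv₀
            · obtain ⟨y, hy, hrel⟩ := hH η hη'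
              refine ⟨y, hy, ?_⟩
              have hsubP : ∀ w ∈ A2, (Fin.cons c w : Fin (r + 1) → (Fin m → Fin Q)) ∈ P :=
                fun w hw => (hPcmem c w).mp (hA2P hw)
              refine ⟨?_, ?_, ?_, ?_, ?_, ?_⟩
              · intro i hiE
                rcases hrel.out i hiE with h | h
                · left; intro w hw; exact h _ (hsubP w hw)
                · right; intro w hw; exact h _ (hsubP w hw)
              · intro i hiE w hw
                exact hrel.cross i hiE _ (hsubP w hw)
              · intro i hiE h w hw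
                exact hrel.a1 i hiE h _ (hsubP w hw)
              · intro i hiE h w hw
                exact hrel.a2 i hiE h _ (hsubP w hw)
              · intro i hiE h w hw
                exact hrel.b1 i hiE h _ (hsubP w hw)
              · intro i hiE h w hw
                exact hrel.b2 i hiE h _ (hsubP w hw)
      · exact hcont c hcR i hi Z hZ hcZ hcl
      · exact hcont c' hcR' i hi Z hZ hcZ hcl
    · -- density increment
      push Not at hgood
      have hRb := hbad X R hgood
      have hRn : R.Nonempty := by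
        rw [Finset.nonempty_iff_ne_empty]
        intro h0
        rw [h0, Finset.sum_empty] at hRsum
        omega
      obtain ⟨c, hcR, hc⟩ : ∃ c ∈ R, P.card ≤ 2 * R.card * (Pc c).card := by
        by_contra hcon
        push Not at hcon
        have h1 : ∑ c ∈ R, 2 * R.card * (Pc c).card < ∑ c ∈ R, P.card :=
          Finset.sum_lt_sum_of_nonempty hRn hcon
        rw [← Finset.mul_sum, Finset.sum_const, smul_eq_mul] at h1
        have h2 : R.card * P.card ≤ R.card * (2 * ∑ c ∈ R, (Pc c).card) :=
          Nat.mul_le_mul_left _ hRsum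
        have h3 : 2 * R.card * ∑ c ∈ R, (Pc c).card = R.card * (2 * ∑ c ∈ R, (Pc c).card) := by
          ring
        omega
      have hinc : P.card * 2 ^ lam ≤ N * (Pc c).card := by
        have h1 : 4 * (P.card * 2 ^ lam) ≤ 4 * (N * (Pc c).card) := by
          calc 4 * (P.card * 2 ^ lam) = P.card * (4 * 2 ^ lam) := by ring
            _ ≤ 2 * R.card * (Pc c).card * (4 * 2 ^ lam) := Nat.mul_le_mul_right _ hc
            _ = 2 * (Pc c).card * (R.card * (4 * 2 ^ lam)) := by ring
            _ ≤ 2 * (Pc c).card * (2 * N) := Nat.mul_le_mul_left _ hRb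
            _ = _ := by ring
        omega
      have hPcle : (Pc c).card ≤ N ^ r := by
        calc (Pc c).card ≤ Fintype.card (Fin r → (Fin m → Fin Q)) := Finset.card_le_univ _
          _ = N ^ r := by rw [hN]; simp
      have hTr : 2 * fuel K E H ≤ r := by
        by_contra hcon
        have h1 : r + 1 - 2 * fuel K E H = 0 := by omega
        rw [h1, Nat.mul_zero, pow_zero, Nat.mul_one] at hinv
        have h2 : P.card * 2 ^ lam ≤ P.card := by
          calc _ ≤ N * (Pc c).card := hinc
            _ ≤ N * N ^ r := Nat.mul_le_mul_left _ hPcle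
            _ = N ^ (r + 1) := by rw [pow_succ]; ring
            _ ≤ _ := hinv
        have h3 : 2 ≤ 2 ^ lam := by
          calc 2 = 2 ^ 1 := by norm_num
            _ ≤ 2 ^ lam := Nat.pow_le_pow_right (by norm_num) (by omega)
        have h4 : P.card * 2 ≤ P.card * 2 ^ lam := Nat.mul_le_mul_left _ h3
        omega
      have hinv' : N ^ r ≤ (Pc c).card * 2 ^ (lam * (r - 2 * fuel K E H)) := by
        have h1 : r + 1 - 2 * fuel K E H = (r - 2 * fuel K E H) + 1 := by omega
        have h2 : N * N ^ r ≤ N * ((Pc c).card * 2 ^ (lam * (r - 2 * fuel K E H))) := by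
          calc N * N ^ r = N ^ (r + 1) := by rw [pow_succ]; ring
            _ ≤ P.card * 2 ^ (lam * (r + 1 - 2 * fuel K E H)) := hinv
            _ = P.card * 2 ^ lam * 2 ^ (lam * (r - 2 * fuel K E H)) := by
                rw [h1, mul_assoc, ← pow_add]; congr 2; ring
            _ ≤ N * (Pc c).card * 2 ^ (lam * (r - 2 * fuel K E H)) :=
                Nat.mul_le_mul_right _ hinc
            _ = _ := by ring
        exact Nat.le_of_mul_le_mul_left h2 hW
      have hsubP : ∀ w ∈ Pc c, (Fin.cons c w : Fin (r + 1) → (Fin m → Fin Q)) ∈ P :=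
        fun w hw => (hPcmem c w).mp hw
      apply ih (cell Q m pos c X) (Pc c) (fun w => pt (Fin.cons c w)) E H
        (hchild c (Pc c) (Finset.Subset.refl _)) (fun w hw => htype _ (hsubP w hw)) ?_ ?_ hTr
        hinv'
      · intro i hiE w hw w' hw'
        exact hclique i hiE _ (hsubP w hw) _ (hsubP w' hw')
      · intro η hη
        obtain ⟨y, hy, hrel⟩ := hH η hη
        refine ⟨y, hy, ?_⟩
        refine ⟨?_, ?_, ?_, ?_, ?_, ?_⟩
        · intro i hiE
          rcases hrel.out i hiE with h | h
          · left; intro w hw; exact h _ (hsubP w hw)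
          · right; intro w hw; exact h _ (hsubP w hw)
        · intro i hiE w hw
          exact hrel.cross i hiE _ (hsubP w hw)
        · intro i hiE h w hw
          exact hrel.a1 i hiE h _ (hsubP w hw)
        · intro i hiE h w hw
          exact hrel.a2 i hiE h _ (hsubP w hw)
        · intro i hiE h w hw
          exact hrel.b1 i hiE h _ (hsubP w hw)
        · intro i hiE h w hw
          exact hrel.b2 i hiE h _ (hsubP w hw)

end Pool.Agent.LibShatter
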