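import Mathlib
import Pool.Agent.LibShatter.Main

/-!
Existence of the configuration.
-/

namespace Pool.Agent.LibShatter

open Finset

variable {V : Type*} {m : ℕ} (pos : Fin m → V → ℕ)

theorem bad_count {K lam q : ℕ} (hq1 : 1 ≤ q) (hq : q ^ (K + 1) = 4 * 2 ^ lam)
    (X : Finset V) (R : Finset (Fin m → Fin (2 * m * q ^ 2)))
    (hR : ∀ c ∈ R, ∀ c' ∈ R, K < (nsep pos (cell (2 * m * q ^ 2) m pos c X)
      (cell (2 * m * q ^ 2) m pos c' X)).card) :
    R.card * (4 * 2 ^ lam) ≤ 2 * Fintype.card (Fin m → Fin (2 * m * q ^ 2)) := by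
  classical
  have h1 := pair_sum' m (q ^ 2) (Nat.one_le_pow _ _ hq1) pos X X
  set N := Fintype.card (Fin m → Fin (2 * m * q ^ 2)) with hN
  have h2 : (R.card * (4 * 2 ^ lam)) ^ 2 ≤ (2 * N) ^ 2 := by
    calc (R.card * (4 * 2 ^ lam)) ^ 2 = R.card * (R.card * (q ^ 2) ^ (K + 1)) := by
          rw [← hq]; ring
      _ = ∑ c ∈ R, ∑ c' ∈ R, (q ^ 2) ^ (K + 1) := by
          rw [Finset.sum_const, Finset.sum_const, smul_eq_mul, smul_eq_mul]
      _ ≤ ∑ c ∈ R, ∑ c' ∈ R, (q ^ 2) ^ (nsep pos (cell (2 * m * q ^ 2) m pos c X)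
            (cell (2 * m * q ^ 2) m pos c' X)).card := by
          apply Finset.sum_le_sum; intro c hc
          apply Finset.sum_le_sum; intro c' hc'
          exact Nat.pow_le_pow_right (Nat.one_le_pow _ _ hq1) (hR c hc c' hc')
      _ ≤ ∑ c, ∑ c', (q ^ 2) ^ (nsep pos (cell (2 * m * q ^ 2) m pos c X)
            (cell (2 * m * q ^ 2) m pos c' X)).card := by
          refine le_trans (Finset.sum_le_sum (fun c _ => Finset.sum_le_sum_of_subset
            (Finset.subset_univ R))) ?_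
          exact Finset.sum_le_sum_of_subset (Finset.subset_univ R)
      _ ≤ 4 * N ^ 2 := h1
      _ = (2 * N) ^ 2 := by ring
  exact (Nat.pow_le_pow_iff_left (by norm_num)).mp h2

open Classical in
theorem exists_config [Fintype V] (hpos : ∀ i, Function.Injective (pos i)) {K lam q J : ℕ}
    (hm : 0 < m) (hq1 : 1 ≤ q)
    (hq : q ^ (K + 1) = 4 * 2 ^ lam) (hK : 2 * K + 1 ≤ lam)
    (hJ : 2 * (K * (4 ^ K + 1) + 2) ≤ J)
    (hmJ : m ≤ lam * (J - 2 * (K * (4 ^ K + 1) + 2)))
    (hV : 2 * ((2 * m * q ^ 2) ^ m) ^ J ≤ Fintype.card V) :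
    ∃ (s : Fin m → Bool) (E : Finset (Fin m)) (x₁ x₂ x₃ : V × V), HasType pos s x₁ ∧
      HasType pos s x₂ ∧ HasType pos s x₃ ∧ Config pos K E x₁ x₂ x₃ := by
  set Q := 2 * m * q ^ 2 with hQ
  have hQpos : 0 < Q := by
    rw [hQ]; have : 0 < q ^ 2 := Nat.pow_pos hq1; positivity
  have hW : 0 < Fintype.card (Fin m → Fin Q) := by
    have h : Fintype.card (Fin m → Fin Q) = Q ^ m := by simp
    rw [h]
    exact Nat.pow_pos hQpos
  have hleaf : ∀ w : Fin J → (Fin m → Fin Q), ∃ p : V × V,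
      p.1 ∈ leafcell pos Q J w Finset.univ ∧ p.2 ∈ leafcell pos Q J w Finset.univ ∧
      p.1 ≠ p.2 := by
    intro w
    have h := card_leafcell pos Q hpos J w Finset.univ 2 (by simpa using hV)
    obtain ⟨a, ha, b, hb, hab⟩ := Finset.one_lt_card.mp (lt_of_lt_of_le one_lt_two h)
    exact ⟨(a, b), ha, hb, hab⟩
  choose pt hpt1 hpt2 hpt3 using hleaf
  let ty : (Fin J → (Fin m → Fin Q)) → (Fin m → Bool) :=
    fun w i => decide (pos i (pt w).1 < pos i (pt w).2)
  obtain ⟨s, -, hs⟩ : ∃ s ∈ (Finset.univ : Finset (Fin m → Bool)),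
      Fintype.card (Fin J → (Fin m → Fin Q)) ≤
      2 ^ m * ((Finset.univ : Finset (Fin J → (Fin m → Fin Q))).filter
        (fun w => ty w = s)).card := by
    by_contra hcon
    push Not at hcon
    have h1 := Finset.card_eq_sum_card_fiberwise (f := ty)
      (s := (Finset.univ : Finset (Fin J → (Fin m → Fin Q))))
      (t := (Finset.univ : Finset (Fin m → Bool))) (fun w _ => Finset.mem_coe.mpr (Finset.mem_univ _))
    have h2 : ∑ s : Fin m → Bool, 2 ^ m * ((Finset.univ : Finset (Fin J → (Fin m → Fin Q))).filter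
        (fun w => ty w = s)).card < ∑ s : Fin m → Bool,
          Fintype.card (Fin J → (Fin m → Fin Q)) :=
      Finset.sum_lt_sum_of_nonempty Finset.univ_nonempty (fun s hs => hcon s hs)
    rw [← Finset.mul_sum, ← h1, Finset.sum_const, smul_eq_mul] at h2
    simp at h2
  have hfuel : fuel K (∅ : Finset (Fin m)) ∅ = K * (4 ^ K + 1) + 2 := by
    unfold fuel
    simp
  have hcardW : Fintype.card (Fin J → (Fin m → Fin Q)) = (Fintype.card (Fin m → Fin Q)) ^ J := by
    simp
  obtain ⟨E, x₁, x₂, x₃, h1, h2, h3, h4⟩ := main_induction pos hK hW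
    (fun X R hR => bad_count pos hq1 hq X R hR) s J Finset.univ
    ((Finset.univ : Finset (Fin J → (Fin m → Fin Q))).filter (fun w => ty w = s)) pt ∅ ∅
    (fun w _ => ⟨hpt1 w, hpt2 w⟩)
    (fun w hw => by
      rw [Finset.mem_filter] at hw
      refine ⟨hpt3 w, fun i => ?_⟩
      rw [← hw.2]
      simp [ty])
    (by simp) (by simp) (by rw [hfuel]; exact hJ)
    (by
      rw [hfuel, ← hcardW]
      calc Fintype.card (Fin J → (Fin m → Fin Q)) ≤ 2 ^ m *
            ((Finset.univ : Finset (Fin J → (Fin m → Fin Q))).filter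
            (fun w => ty w = s)).card := hs
        _ ≤ 2 ^ (lam * (J - 2 * (K * (4 ^ K + 1) + 2))) *
            ((Finset.univ : Finset (Fin J → (Fin m → Fin Q))).filter
            (fun w => ty w = s)).card :=
            Nat.mul_le_mul_right _ (Nat.pow_le_pow_right (by norm_num) hmJ)
        _ = _ := by ring)
  exact ⟨s, E, x₁, x₂, x₃, h1, h2, h3, h4⟩

end Pool.Agent.LibShatter
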