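import Mathlib

/-!
Small families of Boolean functions realizing every pattern on five points.
-/

namespace Pool.Agent.LibShatter

open Finset

theorem card_good {Λ : Type*} [Fintype Λ] [DecidableEq Λ] (s : Fin 5 → Λ) (ε : Λ → Bool) :
    Fintype.card (Λ → Bool) ≤
      32 * ((Finset.univ : Finset (Λ → Bool)).filter (fun f => ∀ a, f (s a) = ε (s a))).card := by
  classical
  let φ : (Λ → Bool) → (Fin 5 → Bool) × (Λ → Bool) := fun f =>
    (fun a => f (s a), fun x => if ∃ a, s a = x then ε x else f x)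
  have hφ : Function.Injective φ := by
    intro f g hfg
    rw [Prod.ext_iff] at hfg
    funext x
    by_cases hx : ∃ a, s a = x
    · obtain ⟨a, rfl⟩ := hx
      exact congrFun hfg.1 a
    · have := congrFun hfg.2 x
      simp only [φ, if_neg hx] at this
      exact this
  have h1 : (Finset.univ : Finset (Λ → Bool)).card ≤
      ((Finset.univ : Finset (Fin 5 → Bool)) ×ˢ
      ((Finset.univ : Finset (Λ → Bool)).filter (fun f => ∀ a, f (s a) = ε (s a)))).card := by
    apply Finset.card_le_card_of_injOn φ _ hφ.injOn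
    intro f _
    rw [Finset.mem_coe, Finset.mem_product]
    refine ⟨Finset.mem_univ _, ?_⟩
    rw [Finset.mem_filter]
    refine ⟨Finset.mem_univ _, fun a => ?_⟩
    have : ∃ b, s b = s a := ⟨a, rfl⟩
    simp only [φ, if_pos this]
  rw [Finset.card_product] at h1
  simpa using h1

theorem pow_31 (n : ℕ) : 2 ^ n * 31 ^ (22 * n) ≤ 32 ^ (22 * n) := by
  rw [pow_mul, pow_mul, ← mul_pow]
  exact Nat.pow_le_pow_left (by norm_num) n

theorem exists_indep (Λ : Type*) [Fintype Λ] [DecidableEq Λ] (L : ℕ)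
    (hL : Fintype.card Λ ≤ 2 ^ L) :
    ∃ F : Fin (22 * (5 * L + 6)) → Λ → Bool, ∀ (s : Fin 5 → Λ) (ε : Λ → Bool),
      ∃ i, ∀ a, F i (s a) = ε (s a) := by
  classical
  set m := 22 * (5 * L + 6) with hm
  by_contra hcon
  push Not at hcon
  -- bad families
  let bad : (Fin 5 → Λ) × (Fin 5 → Bool) → Finset (Fin m → Λ → Bool) := fun st =>
    if ∃ ε : Λ → Bool, ∀ a, ε (st.1 a) = st.2 a then
      Finset.univ.filter (fun F => ∀ i, ∃ a, F i (st.1 a) ≠ st.2 a)
    else ∅
  have hcover : (Finset.univ : Finset (Fin m → Λ → Bool)) ⊆ Finset.univ.biUnion bad := by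
    intro F _
    obtain ⟨s, ε, h⟩ := hcon F
    rw [Finset.mem_biUnion]
    refine ⟨(s, fun a => ε (s a)), Finset.mem_univ _, ?_⟩
    have hex : ∃ ε' : Λ → Bool, ∀ a, ε' (s a) = ε (s a) := ⟨ε, fun _ => rfl⟩
    simp only [bad, if_pos hex]
    rw [Finset.mem_filter]
    exact ⟨Finset.mem_univ _, h⟩
  set N := Fintype.card (Λ → Bool) with hN
  have hNpos : 0 < N := by rw [hN]; exact Fintype.card_pos
  have hbad : ∀ st, 32 ^ m * (bad st).card ≤ (31 * N) ^ m := by
    rintro ⟨s, t⟩
    by_cases hex : ∃ ε : Λ → Bool, ∀ a, ε (s a) = t a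
    · obtain ⟨ε, hε⟩ := id hex
      simp only [bad, if_pos hex]
      have hg := card_good s ε
      have hsplit := Finset.card_filter_add_card_filter_not
        (s := (Finset.univ : Finset (Λ → Bool))) (p := fun f => ∀ a, f (s a) = ε (s a))
      rw [Finset.card_univ, ← hN] at hsplit
      rw [← hN] at hg
      have hb : 32 * ((Finset.univ : Finset (Λ → Bool)).filter
          (fun f => ¬ ∀ a, f (s a) = ε (s a))).card ≤ 31 * N := by omega
      have hpi : (Finset.univ.filter (fun F : Fin m → Λ → Bool => ∀ i, ∃ a, F i (s a) ≠ t a)) =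
          Fintype.piFinset (fun _ : Fin m => (Finset.univ : Finset (Λ → Bool)).filter
          (fun f => ¬ ∀ a, f (s a) = ε (s a))) := by
        ext F
        simp only [Finset.mem_filter, Finset.mem_univ, true_and, Fintype.mem_piFinset, not_forall,
          hε]
      rw [hpi, Fintype.card_piFinset, Finset.prod_const, Finset.card_univ, Fintype.card_fin,
        ← mul_pow]
      exact Nat.pow_le_pow_left hb m
    · simp only [bad, if_neg hex]
      simp
  have htotal : N ^ m ≤ ∑ st, (bad st).card := by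
    calc N ^ m = (Finset.univ : Finset (Fin m → Λ → Bool)).card := by
          rw [Finset.card_univ, Fintype.card_fun, ← hN, Fintype.card_fin]
      _ ≤ (Finset.univ.biUnion bad).card := Finset.card_le_card hcover
      _ ≤ _ := Finset.card_biUnion_le
  have h1 : 32 ^ m * N ^ m ≤ (Fintype.card Λ ^ 5 * 32) * (31 * N) ^ m := by
    calc 32 ^ m * N ^ m ≤ 32 ^ m * ∑ st, (bad st).card := Nat.mul_le_mul_left _ htotal
      _ = ∑ st, 32 ^ m * (bad st).card := by rw [Finset.mul_sum]
      _ ≤ ∑ _st : (Fin 5 → Λ) × (Fin 5 → Bool), (31 * N) ^ m :=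
          Finset.sum_le_sum (fun st _ => hbad st)
      _ = _ := by
          rw [Finset.sum_const, smul_eq_mul, Finset.card_univ]
          simp
  have h2 : (Fintype.card Λ ^ 5 * 32) * (31 * N) ^ m ≤ 2 ^ (5 * L + 5) * 31 ^ m * N ^ m := by
    rw [mul_pow]
    calc Fintype.card Λ ^ 5 * 32 * (31 ^ m * N ^ m) ≤ (2 ^ L) ^ 5 * 32 * (31 ^ m * N ^ m) := by
          apply Nat.mul_le_mul_right
          apply Nat.mul_le_mul_right
          exact Nat.pow_le_pow_left hL 5
      _ = _ := by rw [pow_add, ← pow_mul, mul_comm L 5]; ring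
  have h3 : 2 * (2 ^ (5 * L + 5) * 31 ^ m) ≤ 32 ^ m := by
    have := pow_31 (5 * L + 6)
    rw [← hm] at this
    calc 2 * (2 ^ (5 * L + 5) * 31 ^ m) = 2 ^ (5 * L + 6) * 31 ^ m := by ring
      _ ≤ _ := this
  have h4 : 0 < 2 ^ (5 * L + 5) * 31 ^ m := by positivity
  have h5 : 0 < N ^ m := Nat.pow_pos hNpos
  have h6 : 2 * (2 ^ (5 * L + 5) * 31 ^ m) * N ^ m ≤ 2 ^ (5 * L + 5) * 31 ^ m * N ^ m :=
    (Nat.mul_le_mul_right _ h3).trans (h1.trans h2)
  have h7 := Nat.le_of_mul_le_mul_right h6 h5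
  omega

end Pool.Agent.LibShatter
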