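import Mathlib
import Pool.Agent.LibShatter.Orders
import Pool.Agent.LibShatter.Indep

/-!
The family of orders used for the upper bound.
-/

namespace Pool.Agent.LibShatter

open Finset

/-- keep the bits before `q`. -/
def trunc {d : ℕ} (q : Fin d) (σ : Blk d) : Blk d := fun q' => if q' < q then σ q' else false

theorem trunc_eq {d : ℕ} {q : Fin d} {σ τ : Blk d} (h : ∀ q', q' < q → σ q' = τ q') :
    trunc q σ = trunc q τ := by
  funext q'
  unfold trunc
  split_ifs with h1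
  · exact h q' h1
  · rfl

theorem eq_of_trunc {d : ℕ} {q : Fin d} {σ τ : Blk d} (h : trunc q σ = trunc q τ) :
    ∀ q', q' < q → σ q' = τ q' := by
  intro q' hq'
  have := congrFun h q'
  unfold trunc at this
  rwa [if_pos hq', if_pos hq'] at this

/-- labels: block, position, bits before the position. -/
abbrev Lab (D d : ℕ) := Fin D × Fin d × Blk d

/-- all the orders used in the upper bound. -/
structure Family (D d mB mT mG : ℕ) where
  F : Fin mB → Lab D d → Bool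
  indF : ∀ (s : Fin 5 → Lab D d) (ε : Lab D d → Bool), ∃ i, ∀ a, F i (s a) = ε (s a)
  H : Fin mT → Fin D × Fin d → Bool
  indH : ∀ (s : Fin 5 → Fin D × Fin d) (ε : Fin D × Fin d → Bool), ∃ i, ∀ a, H i (s a) = ε (s a)
  bB : Fin mB → Fin D → Blk d → ℕ
  bBinj : ∀ i l, Function.Injective (bB i l)
  bBlt : ∀ i l σ τ q, FDB σ τ q → (bB i l σ < bB i l τ ↔ F i (l, q, trunc q σ) = false)
  bT : Fin mT → Fin D → Blk d → ℕ
  bTinj : ∀ i l, Function.Injective (bT i l)
  bTlt : ∀ i l σ τ q, FDB σ τ q → (bT i l σ < bT i l τ ↔ H i (l, q) = false)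
  b0 : Fin D → Blk d → ℕ
  b0inj : ∀ l, Function.Injective (b0 l)
  b0lt : ∀ l σ τ q, FDB σ τ q → b0 l σ < b0 l τ
  g : Fin mG → Blk d → ℕ
  ginj : ∀ i, Function.Injective (g i)
  gmid : ∀ u w v : Blk d, u ≠ w → u ≠ v → w ≠ v → ∃ i, g i u < g i w ∧ g i w < g i v
  pB : Fin mB → Pt D d → ℕ
  hB : ∀ i, IsOuter (id : Fin D → Fin D) (bB i) (pB i)
  pT : Fin D → Fin mT → Pt D d → ℕ
  hT : ∀ j i, IsOuter (Fin.cons j id : Fin (D + 1) → Fin D) (bT i) (pT j i)
  pP : Fin D → Fin D → Pt D d → ℕ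
  hP : ∀ j j', IsOuter (Fin.cons j (Fin.cons j' id : Fin (D + 1) → Fin D) :
    Fin (D + 2) → Fin D) b0 (pP j j')
  pG : Fin mG → Pt D d → ℕ
  hG : ∀ i, IsOuter (id : Fin D → Fin D) (fun _ => g i) (pG i)
  p0 : Pt D d → ℕ
  h0 : IsOuter (id : Fin D → Fin D) b0 p0

theorem exists_family (D d LB LT LG : ℕ) (hLB : Fintype.card (Lab D d) ≤ 2 ^ LB)
    (hLT : Fintype.card (Fin D × Fin d) ≤ 2 ^ LT)
    (hLG : Fintype.card (Blk d × Bool) ≤ 2 ^ LG) :
    Nonempty (Family D d (22 * (5 * LB + 6)) (22 * (5 * LT + 6)) (22 * (5 * LG + 6))) := by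
  classical
  obtain ⟨F, hF⟩ := exists_indep (Lab D d) LB hLB
  obtain ⟨H, hH⟩ := exists_indep (Fin D × Fin d) LT hLT
  obtain ⟨G, hG⟩ := exists_indep (Blk d × Bool) LG hLG
  choose bB bBinj bBlt using fun (i : Fin (22 * (5 * LB + 6))) (l : Fin D) =>
    exists_beta (d := d) (fun q σ => F i (l, q, trunc q σ)) (by
      intro q σ τ h
      show F i (l, q, trunc q σ) = F i (l, q, trunc q τ)
      rw [trunc_eq h])
  choose bT bTinj bTlt using fun (i : Fin (22 * (5 * LT + 6))) (l : Fin D) =>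
    exists_beta (d := d) (fun q _ => H i (l, q)) (fun _ _ _ _ => rfl)
  choose b0 b0inj b0lt using fun (_ : Fin D) =>
    exists_beta (d := d) (fun _ _ => false) (fun _ _ _ _ => rfl)
  choose g ginj gmid using fun (i : Fin (22 * (5 * LG + 6))) => exists_gamma (d := d) (G i)
  choose pB hpB using fun (i : Fin (22 * (5 * LB + 6))) =>
    exists_outer (id : Fin D → Fin D) Function.surjective_id (bB i) (bBinj i)
  have hs1 : ∀ j : Fin D, Function.Surjective (Fin.cons j id : Fin (D + 1) → Fin D) := by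
    intro j l
    exact ⟨l.succ, by simp⟩
  have hs2 : ∀ j j' : Fin D, Function.Surjective (Fin.cons j (Fin.cons j' id : Fin (D + 1) → Fin D) :
      Fin (D + 2) → Fin D) := by
    intro j j' l
    exact ⟨l.succ.succ, by simp⟩
  choose pT hpT using fun (j : Fin D) (i : Fin (22 * (5 * LT + 6))) =>
    exists_outer (Fin.cons j id : Fin (D + 1) → Fin D) (hs1 j) (bT i) (bTinj i)
  choose pP hpP using fun (j j' : Fin D) =>
    exists_outer (Fin.cons j (Fin.cons j' id : Fin (D + 1) → Fin D) :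
      Fin (D + 2) → Fin D) (hs2 j j') b0 b0inj
  choose pG hpG using fun (i : Fin (22 * (5 * LG + 6))) =>
    exists_outer (id : Fin D → Fin D) Function.surjective_id (fun _ => g i) (fun _ => ginj i)
  obtain ⟨p0, hp0⟩ := exists_outer (id : Fin D → Fin D) Function.surjective_id b0 b0inj
  refine ⟨⟨F, hF, H, hH, bB, bBinj, fun i l σ τ q h => bBlt i l σ τ q h, bT, bTinj,
    fun i l σ τ q h => bTlt i l σ τ q h, b0, b0inj, fun l σ τ q h => (b0lt l σ τ q h).mpr rfl,
    g, ginj, ?_, pB, hpB, pT, hpT, pP, hpP, pG, hpG, p0, hp0⟩⟩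
  intro u w v huw huv hwv
  -- choose the pattern
  let s : Fin 5 → Blk d × Bool := ![(u, false), (w, false), (v, false), (w, true), (v, true)]
  let ε : Blk d × Bool → Bool := fun z =>
    if z = (u, false) then false else if z = (w, false) then true
    else if z = (v, false) then true else if z = (w, true) then false else true
  obtain ⟨i, hi⟩ := hG s ε
  refine ⟨i, gmid i u w v ?_ ?_ ?_ ?_ ?_⟩
  · have := hi 0
    simpa [s, ε] using this
  · have := hi 1
    simpa [s, ε, huw.symm] using this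
  · have := hi 2
    simpa [s, ε, huv.symm, hwv.symm] using this
  · have := hi 3
    simpa [s, ε] using this
  · have := hi 4
    simpa [s, ε, hwv.symm] using this

variable {D d mB mT mG : ℕ}

/-- index type of the family. -/
abbrev Idx (D mB mT mG : ℕ) := Fin mB ⊕ (Fin D × Fin mT) ⊕ (Fin D × Fin D) ⊕ Fin mG

/-- the positions. -/
def Family.pos (𝓕 : Family D d mB mT mG) : Idx D mB mT mG → Pt D d → ℕ :=
  Sum.elim 𝓕.pB (Sum.elim (fun jh => 𝓕.pT jh.1 jh.2)
    (Sum.elim (fun jj => 𝓕.pP jj.1 jj.2) 𝓕.pG))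

theorem Family.pos_inj (𝓕 : Family D d mB mT mG) (i : Idx D mB mT mG) :
    Function.Injective (𝓕.pos i) := by
  rcases i with i | ⟨j, i⟩ | ⟨j, j'⟩ | i
  · exact (𝓕.hB i).inj
  · exact (𝓕.hT j i).inj
  · exact (𝓕.hP j j').inj
  · exact (𝓕.hG i).inj

/-- first difference of two points. -/
def FD (x y : Pt D d) (l : Fin D) (q : Fin d) : Prop :=
  (∀ l', l' < l → x l' = y l') ∧ FDB (x l) (y l) q

theorem Family.exists_FD (𝓕 : Family D d mB mT mG) {x y : Pt D d} (h : 𝓕.p0 x < 𝓕.p0 y) :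
    ∃ l q, FD x y l q := by
  obtain ⟨l, h1, h2⟩ := (𝓕.h0.lt_iff x y).mp h
  have hne : x l ≠ y l := by
    intro heq
    simp only [id] at h2
    rw [heq] at h2
    exact lt_irrefl _ h2
  obtain ⟨q, hq | hq⟩ := exists_FDB hne
  · exact ⟨l, q, h1, hq⟩
  · have := 𝓕.b0lt l _ _ _ hq
    simp only [id] at h2
    exact absurd h2 (not_lt.mpr this.le)

theorem Family.p0_lt (𝓕 : Family D d mB mT mG) {x y : Pt D d} {l : Fin D} {q : Fin d}
    (h : FD x y l q) : 𝓕.p0 x < 𝓕.p0 y :=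
  (𝓕.h0.lt_iff x y).mpr ⟨l, h.1, 𝓕.b0lt l _ _ _ h.2⟩

/-- deciding a comparison from a first difference. -/
theorem outer_lt_iff {D' : ℕ} {c : Fin D' → Fin D} {β : Fin D → Blk d → ℕ} {pos : Pt D d → ℕ}
    (hβ : ∀ l, Function.Injective (β l)) (h : IsOuter c β pos) {x y : Pt D d} (l₀ : Fin D')
    (h1 : ∀ l, l < l₀ → x (c l) = y (c l)) (h2 : x (c l₀) ≠ y (c l₀)) :
    pos x < pos y ↔ β (c l₀) (x (c l₀)) < β (c l₀) (y (c l₀)) := by
  constructor
  · intro hlt
    by_contra hcon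
    have h3 : β (c l₀) (y (c l₀)) < β (c l₀) (x (c l₀)) :=
      lt_of_le_of_ne (not_lt.mp hcon) (fun hh => h2 (hβ _ hh).symm)
    have h4 : pos y < pos x := (h.lt_iff y x).mpr ⟨l₀, fun l hl => (h1 l hl).symm, h3⟩
    exact lt_asymm hlt h4
  · intro h3
    exact (h.lt_iff x y).mpr ⟨l₀, h1, h3⟩

theorem FDB.ne {σ τ : Blk d} {q : Fin d} (h : FDB σ τ q) : σ ≠ τ := by
  rintro rfl
  have := h.2.1.symm.trans h.2.2
  exact absurd this (by decide)

theorem Family.base_lt (𝓕 : Family D d mB mT mG) {x y : Pt D d} {l : Fin D} {q : Fin d}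
    (h : FD x y l q) (i : Fin mB) :
    𝓕.pB i x < 𝓕.pB i y ↔ 𝓕.F i (l, q, trunc q (x l)) = false := by
  rw [outer_lt_iff (𝓕.bBinj i) (𝓕.hB i) l h.1 h.2.ne]
  exact 𝓕.bBlt i l _ _ q h.2

theorem Family.base_gt (𝓕 : Family D d mB mT mG) {x y : Pt D d} {l : Fin D} {q : Fin d}
    (h : FD x y l q) (i : Fin mB) :
    𝓕.pB i y < 𝓕.pB i x ↔ 𝓕.F i (l, q, trunc q (x l)) = true := by
  have h1 := 𝓕.base_lt h i
  have h2 : 𝓕.pB i x ≠ 𝓕.pB i y := by
    intro heq
    have := (𝓕.hB i).inj heq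
    rw [this] at h
    exact h.2.ne rfl
  constructor
  · intro h3
    by_contra h4
    have h5 : 𝓕.F i (l, q, trunc q (x l)) = false := by
      cases hh : 𝓕.F i (l, q, trunc q (x l)) <;> simp_all
    exact lt_asymm h3 (h1.mpr h5)
  · intro h3
    rcases lt_or_gt_of_ne h2 with h4 | h4
    · have := h1.mp h4
      rw [h3] at this
      exact absurd this (by decide)
    · exact h4

/-- the four comparisons across a common bit. -/
theorem cross_of {D' : ℕ} {c : Fin D' → Fin D} {β : Fin D → Blk d → ℕ} {pos : Pt D d → ℕ}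
    (hβ : ∀ l, Function.Injective (β l)) (h : IsOuter c β pos) {y y' z z' : Pt D d}
    (l₀ : Fin D') (q : Fin d) (e : Bool)
    (hlt : ∀ σ τ, FDB σ τ q → (β (c l₀) σ < β (c l₀) τ ↔ e = false))
    (hyy : ∀ l, l < l₀ → y (c l) = y' (c l)) (hyz : ∀ l, l < l₀ → y (c l) = z (c l))
    (hyz' : ∀ l, l < l₀ → y (c l) = z' (c l))
    (h1 : FDB (y (c l₀)) (z (c l₀)) q) (h2 : FDB (y (c l₀)) (z' (c l₀)) q)
    (h3 : FDB (y' (c l₀)) (z (c l₀)) q) (h4 : FDB (y' (c l₀)) (z' (c l₀)) q) :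
    Sep4 (fun a b => pos a < pos b) y y' z z' := by
  have e1 := outer_lt_iff hβ h l₀ hyz h1.ne
  have e2 := outer_lt_iff hβ h l₀ hyz' h2.ne
  have e3 := outer_lt_iff hβ h l₀ (fun l hl => (hyy l hl).symm.trans (hyz l hl)) h3.ne
  have e4 := outer_lt_iff hβ h l₀ (fun l hl => (hyy l hl).symm.trans (hyz' l hl)) h4.ne
  have d1 := outer_lt_iff hβ h l₀ (fun l hl => (hyz l hl).symm) h1.ne.symm
  have d2 := outer_lt_iff hβ h l₀ (fun l hl => (hyz' l hl).symm) h2.ne.symm
  have d3 := outer_lt_iff hβ h l₀ (fun l hl => ((hyy l hl).symm.trans (hyz l hl)).symm) h3.ne.symm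
  have d4 := outer_lt_iff hβ h l₀ (fun l hl => ((hyy l hl).symm.trans (hyz' l hl)).symm)
    h4.ne.symm
  have key : ∀ σ τ, FDB σ τ q → e = true → β (c l₀) τ < β (c l₀) σ := by
    intro σ τ hf he
    have h5 : ¬ β (c l₀) σ < β (c l₀) τ := by
      rw [hlt σ τ hf, he]; decide
    exact lt_of_le_of_ne (not_lt.mp h5) (fun hh => hf.ne (hβ _ hh).symm)
  unfold Sep4
  cases he : e
  · left
    exact ⟨e1.mpr ((hlt _ _ h1).mpr he), e2.mpr ((hlt _ _ h2).mpr he),
      e3.mpr ((hlt _ _ h3).mpr he), e4.mpr ((hlt _ _ h4).mpr he)⟩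
  · right
    exact ⟨d1.mpr (key _ _ h1 he), d2.mpr (key _ _ h2 he), d3.mpr (key _ _ h3 he),
      d4.mpr (key _ _ h4 he)⟩

end Pool.Agent.LibShatter
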