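import Mathlib
import Pool.Agent.LibShatter.Defs
import Pool.Agent.LibShatter.Exists

/-!
A configuration gives a six-element set with at most sixteen induced orders.
-/

namespace Pool.Agent.LibShatter

open Finset

/-- block index of the three pairs. -/
def blk : Bool → Bool → ℕ × ℕ × ℕ
  | true, true => (0, 1, 2)
  | true, false => (1, 0, 2)
  | false, true => (1, 2, 0)
  | false, false => (2, 1, 0)

/-- ranks of the six points outside the exceptional set. -/
def tblOut (s d1 d2 : Bool) : Fin 6 → ℕ :=
  ![2 * (blk d1 d2).1 + cond s 0 1, 2 * (blk d1 d2).1 + cond s 1 0,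
    2 * (blk d1 d2).2.1 + cond s 0 1, 2 * (blk d1 d2).2.1 + cond s 1 0,
    2 * (blk d1 d2).2.2 + cond s 0 1, 2 * (blk d1 d2).2.2 + cond s 1 0]

/-- ranks of the six points in the exceptional set. -/
def tblIn (s d1 d2 : Bool) : Fin 6 → ℕ :=
  ![cond s 0 3 + cond d1 0 2, cond s 3 0 + cond d2 0 2,
    cond s 0 3 + 1, cond s 3 0 + 1,
    cond s 0 3 + cond d1 2 0, cond s 3 0 + cond d2 2 0]

theorem tblOut_spec (P : Fin 6 → ℕ) (s d1 d2 : Bool) (n1 : P 0 ≠ P 1) (n2 : P 2 ≠ P 3)
    (n3 : P 4 ≠ P 5) (s1 : P 0 < P 1 ↔ s = true) (s2 : P 2 < P 3 ↔ s = true)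
    (s3 : P 4 < P 5 ↔ s = true)
    (h12 : if d2 = true then max (P 0) (P 1) < min (P 2) (P 3)
      else max (P 2) (P 3) < min (P 0) (P 1))
    (h3 : if d1 = true then max (P 0) (P 1) < min (P 4) (P 5) ∧ max (P 2) (P 3) < min (P 4) (P 5)
      else max (P 4) (P 5) < min (P 0) (P 1) ∧ max (P 4) (P 5) < min (P 2) (P 3)) :
    ∀ a b, P a < P b ↔ tblOut s d1 d2 a < tblOut s d1 d2 b := by
  cases s <;> cases d1 <;> cases d2 <;> simp only [Bool.false_eq_true, if_false, if_true,
    iff_false, iff_true] at s1 s2 s3 h12 h3 <;>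
  · intro a b
    fin_cases a <;> fin_cases b <;> simp [tblOut, blk] <;> omega

theorem tblIn_spec (P : Fin 6 → ℕ) (s d1 d2 : Bool)
    (hinj : Function.Injective P) (s1 : P 0 < P 1 ↔ s = true) (s2 : P 2 < P 3 ↔ s = true)
    (s3 : P 4 < P 5 ↔ s = true)
    (c12 : min (P 0) (P 1) ≤ max (P 2) (P 3) ∧ min (P 2) (P 3) ≤ max (P 0) (P 1))
    (c13 : min (P 0) (P 1) ≤ max (P 4) (P 5) ∧ min (P 4) (P 5) ≤ max (P 0) (P 1))
    (c23 : min (P 2) (P 3) ≤ max (P 4) (P 5) ∧ min (P 4) (P 5) ≤ max (P 2) (P 3))
    (ha : if d1 = true then P 0 ≤ P 2 ∧ P 2 ≤ P 4 else P 4 ≤ P 2 ∧ P 2 ≤ P 0)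
    (hb : if d2 = true then P 1 ≤ P 3 ∧ P 3 ≤ P 5 else P 5 ≤ P 3 ∧ P 3 ≤ P 1) :
    ∀ a b, P a < P b ↔ tblIn s d1 d2 a < tblIn s d1 d2 b := by
  have e01 : P 0 ≠ P 1 := fun h => by have := hinj h; simp at this
  have e02 : P 0 ≠ P 2 := fun h => by have := hinj h; simp at this
  have e03 : P 0 ≠ P 3 := fun h => by have := hinj h; simp at this
  have e04 : P 0 ≠ P 4 := fun h => by have := hinj h; simp at this
  have e05 : P 0 ≠ P 5 := fun h => by have := hinj h; simp at this
  have e12 : P 1 ≠ P 2 := fun h => by have := hinj h; simp at this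
  have e13 : P 1 ≠ P 3 := fun h => by have := hinj h; simp at this
  have e14 : P 1 ≠ P 4 := fun h => by have := hinj h; simp at this
  have e15 : P 1 ≠ P 5 := fun h => by have := hinj h; simp at this
  have e23 : P 2 ≠ P 3 := fun h => by have := hinj h; simp at this
  have e24 : P 2 ≠ P 4 := fun h => by have := hinj h; simp at this
  have e25 : P 2 ≠ P 5 := fun h => by have := hinj h; simp at this
  have e34 : P 3 ≠ P 4 := fun h => by have := hinj h; simp at this
  have e35 : P 3 ≠ P 5 := fun h => by have := hinj h; simp at this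
  have e45 : P 4 ≠ P 5 := fun h => by have := hinj h; simp at this
  cases s <;> cases d1 <;> cases d2 <;> simp only [Bool.false_eq_true, if_false, if_true,
    iff_false, iff_true] at s1 s2 s3 ha hb <;>
  · intro a b
    fin_cases a <;> fin_cases b <;> simp [tblIn] <;> omega

theorem ncard_le_of_code {ι V C : Type*} [Fintype C] (pos : ι → V → ℕ) (X : Finset V)
    (code : ι → C) (h : ∀ i j, code i = code j → ∀ x ∈ X, ∀ y ∈ X,
      (pos i x < pos i y ↔ pos j x < pos j y)) :
    (ordSet pos X).ncard ≤ Fintype.card C := by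
  classical
  let g : C → (X → X → Prop) := fun c =>
    if hc : ∃ i, code i = c then fun (x y : X) => pos hc.choose (x : V) < pos hc.choose (y : V)
    else fun _ _ => True
  have hsub : ordSet pos X ⊆ g '' Set.univ := by
    rintro r ⟨i, rfl⟩
    refine ⟨code i, trivial, ?_⟩
    have hc : ∃ j, code j = code i := ⟨i, rfl⟩
    simp only [g]
    rw [dif_pos hc]
    funext x y
    exact propext (h _ _ hc.choose_spec _ x.2 _ y.2)
  calc (ordSet pos X).ncard ≤ (g '' Set.univ).ncard :=
        Set.ncard_le_ncard hsub (Set.finite_univ.image _)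
    _ ≤ (Set.univ : Set C).ncard := Set.ncard_image_le Set.finite_univ
    _ = Fintype.card C := by rw [Set.ncard_univ, Nat.card_eq_fintype_card]

open Classical in
theorem sixteen {V : Type*} {m : ℕ} (pos : Fin m → V → ℕ)
    (hpos : ∀ i, Function.Injective (pos i)) {K : ℕ} (hKm : K < m) {s : Fin m → Bool}
    {E : Finset (Fin m)} {x₁ x₂ x₃ : V × V} (h1 : HasType pos s x₁) (h2 : HasType pos s x₂)
    (h3 : HasType pos s x₃) (hc : Config pos K E x₁ x₂ x₃) :
    ∃ X : Finset V, X.card = 6 ∧ (ordSet pos X).ncard ≤ 16 := by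
  let p : Fin 6 → V := ![x₁.1, x₁.2, x₂.1, x₂.2, x₃.1, x₃.2]
  obtain ⟨i₀, hi₀⟩ : ∃ i, i ∉ E := by
    by_contra hcon
    push Not at hcon
    have : E = Finset.univ := Finset.eq_univ_of_forall hcon
    have h := hc.card
    rw [this, Finset.card_univ, Fintype.card_fin] at h
    omega
  have hout : ∀ i, i ∉ E → ∀ a b, pos i (p a) < pos i (p b) ↔
      tblOut (s i) (decide (hi pos i x₁ < lo pos i x₃)) (decide (hi pos i x₁ < lo pos i x₂)) a <
      tblOut (s i) (decide (hi pos i x₁ < lo pos i x₃)) (decide (hi pos i x₁ < lo pos i x₂)) b := by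
    intro i hiE
    have e12 := hc.sep12 i hiE
    have e3 := hc.sep3 i hiE
    apply tblOut_spec (fun a => pos i (p a)) _ _ _
    · intro h; exact h1.ne (hpos i h)
    · intro h; exact h2.ne (hpos i h)
    · intro h; exact h3.ne (hpos i h)
    · exact h1.iff i
    · exact h2.iff i
    · exact h3.iff i
    · by_cases h : hi pos i x₁ < lo pos i x₂
      · rw [if_pos (by simpa using h)]; exact h
      · rw [if_neg (by simpa using h)]
        rcases e12 with e | e
        · exact absurd e h
        · exact e
    · by_cases h : hi pos i x₁ < lo pos i x₃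
      · rw [if_pos (by simpa using h)]
        rcases e3 with e | e
        · exact e
        · exfalso
          have := e.1
          unfold hi lo at this h
          omega
      · rw [if_neg (by simpa using h)]
        rcases e3 with e | e
        · exact absurd e.1 h
        · exact e
  have htinj : ∀ (s d1 d2 : Bool), Function.Injective (tblOut s d1 d2) := by
    intro s d1 d2
    cases s <;> cases d1 <;> cases d2 <;> decide
  have hpinj : Function.Injective p := by
    intro a b hab
    by_contra hne
    have ha := hout i₀ hi₀ a b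
    have hb := hout i₀ hi₀ b a
    rw [hab] at ha hb
    have h0 : tblOut (s i₀) (decide (hi pos i₀ x₁ < lo pos i₀ x₃))
        (decide (hi pos i₀ x₁ < lo pos i₀ x₂)) a = tblOut (s i₀)
        (decide (hi pos i₀ x₁ < lo pos i₀ x₃)) (decide (hi pos i₀ x₁ < lo pos i₀ x₂)) b := by
      have e1 := (not_congr ha).mp (lt_irrefl _)
      have e2 := (not_congr hb).mp (lt_irrefl _)
      omega
    exact hne (htinj _ _ _ h0)
  have hin : ∀ i, i ∈ E → ∀ a b, pos i (p a) < pos i (p b) ↔
      tblIn (s i) (decide (pos i x₁.1 < pos i x₂.1)) (decide (pos i x₁.2 < pos i x₂.2)) a <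
      tblIn (s i) (decide (pos i x₁.1 < pos i x₂.1)) (decide (pos i x₁.2 < pos i x₂.2)) b := by
    intro i hiE
    have d02 : pos i (p 0) ≠ pos i (p 2) := fun h => by
      have := hpinj (hpos i h); simp at this
    have d13 : pos i (p 1) ≠ pos i (p 3) := fun h => by
      have := hpinj (hpos i h); simp at this
    apply tblIn_spec (fun a => pos i (p a)) _ _ _
    · exact (hpos i).comp hpinj
    · exact h1.iff i
    · exact h2.iff i
    · exact h3.iff i
    · exact hc.cross12 i hiE
    · exact hc.cross13 i hiE
    · exact hc.cross23 i hiE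
    · by_cases h : pos i x₁.1 < pos i x₂.1
      · rw [if_pos (by simpa using h)]
        rcases hc.amono i hiE with e | e
        · exact e
        · exfalso; have := e.2; omega
      · rw [if_neg (by simpa using h)]
        rcases hc.amono i hiE with e | e
        · exfalso
          have h5 := e.1
          have h6 : pos i (p 0) = pos i (p 2) := by
            show pos i x₁.1 = pos i x₂.1
            omega
          exact d02 h6
        · exact e
    · by_cases h : pos i x₁.2 < pos i x₂.2
      · rw [if_pos (by simpa using h)]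
        rcases hc.bmono i hiE with e | e
        · exact e
        · exfalso; have := e.2; omega
      · rw [if_neg (by simpa using h)]
        rcases hc.bmono i hiE with e | e
        · exfalso
          have h5 := e.1
          have h6 : pos i (p 1) = pos i (p 3) := by
            show pos i x₁.2 = pos i x₂.2
            omega
          exact d13 h6
        · exact e
  refine ⟨Finset.univ.image p, ?_, ?_⟩
  · rw [Finset.card_image_of_injective _ hpinj]; simp
  · let code : Fin m → Bool × Bool × Bool × Bool := fun i =>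
      if i ∈ E then (true, s i, decide (pos i x₁.1 < pos i x₂.1),
        decide (pos i x₁.2 < pos i x₂.2))
      else (false, s i, decide (hi pos i x₁ < lo pos i x₃), decide (hi pos i x₁ < lo pos i x₂))
    have h := ncard_le_of_code pos (Finset.univ.image p) code (by
      intro i j hij x hx y hy
      obtain ⟨a, -, rfl⟩ := Finset.mem_image.mp hx
      obtain ⟨b, -, rfl⟩ := Finset.mem_image.mp hy
      by_cases hi : i ∈ E
      · by_cases hj : j ∈ E
        · simp only [code, if_pos hi, if_pos hj, Prod.mk.injEq] at hij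
          rw [hin i hi a b, hin j hj a b, hij.2.1, hij.2.2.1, hij.2.2.2]
        · simp only [code, if_pos hi, if_neg hj, Prod.mk.injEq] at hij
          exact absurd hij.1 (by decide)
      · by_cases hj : j ∈ E
        · simp only [code, if_neg hi, if_pos hj, Prod.mk.injEq] at hij
          exact absurd hij.1 (by decide)
        · simp only [code, if_neg hi, if_neg hj, Prod.mk.injEq] at hij
          rw [hout i hi a b, hout j hj a b, hij.2.1, hij.2.2.1, hij.2.2.2])
    simpa using h

end Pool.Agent.LibShatter
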