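import Mathlib
import Pool.Agent.LibShatter.Sixteen

/-!
The lower bound: the shatter number for `(6, 17)` grows faster than the square root of `log n`.
-/

namespace Pool.Agent.LibShatter

open Finset

/-- some family shatters all sets. -/
def Feasible (k n t : ℕ) : Prop := ∃ M, ∃ P : Finset (Equiv.Perm (Fin n)),
      P.card = M ∧ ∀ X : Finset (Fin n), X.card = k → Shatters P t X

theorem lower_finite {n m K lam q J : ℕ} (hn : 6 ≤ n) (hfeas : Feasible 6 n 17)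
    (hKm : K < m) (hq1 : 1 ≤ q)
    (hq : q ^ (K + 1) = 4 * 2 ^ lam) (hK : 2 * K + 1 ≤ lam)
    (hJ : 2 * (K * (4 ^ K + 1) + 2) ≤ J)
    (hmJ : m ≤ lam * (J - 2 * (K * (4 ^ K + 1) + 2)))
    (hV : 2 * ((2 * m * q ^ 2) ^ m) ^ J ≤ n) :
    m < shatterNumber 6 n 17 := by
  apply lt_shatterNumber (by norm_num) hfeas hn
  intro pos hpos
  obtain ⟨s, E, x₁, x₂, x₃, h1, h2, h3, hc⟩ := exists_config pos hpos (by omega) hq1 hq hK hJ hmJ
    (by simpa using hV)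
  obtain ⟨X, hX, hle⟩ := sixteen pos hpos hKm h1 h2 h3 hc
  exact ⟨X, hX, by omega⟩

theorem lin_le_two_pow (c a : ℕ) (ha : 2 * c + 10 ≤ a) : c * (a + 8) ≤ 2 ^ a := by
  have hc : c < 2 ^ c := Nat.lt_two_pow_self
  induction a, ha using Nat.le_induction with
  | base =>
    have h1 : 2 * c + 10 + 8 ≤ 2 ^ (c + 10) := by
      rw [pow_add]; norm_num; omega
    calc c * (2 * c + 10 + 8) ≤ 2 ^ c * 2 ^ (c + 10) := Nat.mul_le_mul hc.le h1
      _ = 2 ^ (2 * c + 10) := by rw [← pow_add]; congr 1; ring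
  | succ a ha ih =>
    have h2 : c ≤ 2 ^ a := hc.le.trans (Nat.pow_le_pow_right (by norm_num) (by omega))
    calc c * (a + 1 + 8) = c * (a + 8) + c := by ring
      _ ≤ 2 ^ a + 2 ^ a := Nat.add_le_add ih h2
      _ = 2 ^ (a + 1) := by rw [pow_succ]; ring

theorem log_small (c m : ℕ) (hm : 2 ^ (2 * c + 10) ≤ m) : c * (Nat.log 2 m + 8) ≤ m := by
  have hm0 : m ≠ 0 := by
    have : 0 < 2 ^ (2 * c + 10) := Nat.pow_pos (by norm_num)
    omega
  have h1 : 2 * c + 10 ≤ Nat.log 2 m := (Nat.le_log_iff_pow_le (by norm_num) hm0).mpr hm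
  exact (lin_le_two_pow c _ h1).trans (Nat.pow_log_le_self 2 hm0)

theorem lower_asym (C : ℕ) (hC : 1 ≤ C) : ∃ n₀ : ℕ, ∀ n, n₀ ≤ n → Feasible 6 n 17 →
    Nat.sqrt (C * Nat.log 2 n) < shatterNumber 6 n 17 := by
  obtain ⟨K, hKdef⟩ : ∃ K, K = 32 * C := ⟨_, rfl⟩
  obtain ⟨T, hTdef⟩ : ∃ T, T = K * (4 ^ K + 1) + 2 := ⟨_, rfl⟩
  obtain ⟨B, hBdef⟩ : ∃ B, B = 2 * T := ⟨_, rfl⟩
  have hKpos : 0 < K := by omega
  have hBpos : 0 < B := by omega
  obtain ⟨M₀, hM₀⟩ : ∃ M₀, M₀ = 2 ^ (2 * (B * K) + 10) := ⟨_, rfl⟩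
  -- threshold for `ℓ = Nat.log 2 n`
  obtain ⟨ℓ₀, hℓ₀⟩ : ∃ ℓ₀, ℓ₀ = M₀ ^ 2 + 12 * (K + 1) ^ 2 + 32 * C + 6 := ⟨_, rfl⟩
  refine ⟨2 ^ ℓ₀, fun n hn hfeas => ?_⟩
  have hn0 : n ≠ 0 := by
    have : 0 < 2 ^ ℓ₀ := Nat.pow_pos (by norm_num)
    omega
  obtain ⟨ℓ, hℓ⟩ : ∃ ℓ, ℓ = Nat.log 2 n := ⟨_, rfl⟩
  have hℓ1 : ℓ₀ ≤ ℓ := by
    rw [hℓ]; exact (Nat.le_log_iff_pow_le (by norm_num) hn0).mpr hn
  have hℓn : 2 ^ ℓ ≤ n := by rw [hℓ]; exact Nat.pow_log_le_self 2 hn0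
  rw [← hℓ]
  obtain ⟨a, ha⟩ : ∃ a, a = Nat.sqrt (C * ℓ) := ⟨_, rfl⟩
  have ha2 : a * a ≤ C * ℓ := by rw [ha]; exact Nat.sqrt_le _
  have ha3 : M₀ ≤ a := by
    rw [ha]
    apply Nat.le_sqrt.mpr
    calc M₀ * M₀ = M₀ ^ 2 := by ring
      _ ≤ ℓ := by omega
      _ = 1 * ℓ := by ring
      _ ≤ C * ℓ := Nat.mul_le_mul_right _ hC
  rw [← ha]
  obtain ⟨m, hm⟩ : ∃ m, m = a + K + 1 := ⟨_, rfl⟩
  obtain ⟨p, hp⟩ : ∃ p, p = m / (K * B) + 3 := ⟨_, rfl⟩
  obtain ⟨L, hL⟩ : ∃ L, L = Nat.log 2 m + 1 := ⟨_, rfl⟩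
  have hmL : m ≤ 2 ^ L := by
    rw [hL]; exact (Nat.lt_pow_succ_log_self (by norm_num) m).le
  have hKBpos : 0 < K * B := Nat.mul_pos hKpos hBpos
  have hlogm : B * K * (L + 7) ≤ m := by
    have h := log_small (B * K) m (by omega)
    rw [hL]
    calc B * K * (Nat.log 2 m + 1 + 7) = B * K * (Nat.log 2 m + 8) := by ring
      _ ≤ m := h
  have hlt : a < m := by omega
  refine lt_trans hlt ?_
  have hp3 : 3 ≤ p := by rw [hp]; exact Nat.le_add_left _ _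
  obtain ⟨lam, hlam⟩ : ∃ lam, (K + 1) * p = lam + 2 := by
    have h1 : 2 ≤ (K + 1) * p := by
      calc 2 ≤ 1 * 3 := by norm_num
        _ ≤ (K + 1) * p := Nat.mul_le_mul (by omega) hp3
    exact ⟨(K + 1) * p - 2, (Nat.sub_add_cancel h1).symm⟩
  have hlam2 : K * p + p = lam + 2 := by rw [← hlam]; ring
  have hlamK : K * p ≤ lam := by omega
  apply lower_finite (K := K) (lam := lam) (q := 2 ^ p) (J := 4 * T) (hfeas := hfeas)
  · -- 6 ≤ n
    have h1 : ℓ < 2 ^ ℓ := Nat.lt_two_pow_self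
    omega
  · omega
  · exact Nat.one_le_two_pow
  · rw [← pow_mul, mul_comm p, hlam, pow_add]; ring
  · have h2 : 3 * K ≤ K * p := by
      calc 3 * K = K * 3 := by ring
        _ ≤ K * p := Nat.mul_le_mul_left _ hp3
    omega
  · omega
  · -- m ≤ lam * B
    have h1 : 4 * T - 2 * (K * (4 ^ K + 1) + 2) = B := by omega
    rw [h1]
    have h2 : m < K * B * (m / (K * B) + 1) := Nat.lt_mul_div_succ m hKBpos
    calc m ≤ K * B * (m / (K * B) + 1) := h2.le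
      _ ≤ K * B * p := Nat.mul_le_mul_left _ (by omega)
      _ = K * p * B := by ring
      _ ≤ lam * B := Nat.mul_le_mul_right _ hlamK
  · -- size
    have hkey : 1 + (1 + L + 2 * p) * m * (2 * B) ≤ ℓ := by
      -- multiply by K
      have h1 : K * (B * (m / (K * B))) ≤ m := by
        calc K * (B * (m / (K * B))) = (K * B) * (m / (K * B)) := by ring
          _ ≤ m := Nat.mul_div_le _ _
      have h2 : K * ((1 + L + 2 * p) * m * (2 * B)) ≤ 6 * (m * m) := by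
        calc K * ((1 + L + 2 * p) * m * (2 * B)) =
            4 * m * (K * (B * (m / (K * B)))) + 2 * m * (B * K * (L + 7)) := by
              rw [hp]; ring
          _ ≤ 4 * m * m + 2 * m * m :=
              Nat.add_le_add (Nat.mul_le_mul_left _ h1) (Nat.mul_le_mul_left _ hlogm)
          _ = _ := by ring
      have h3 : m * m ≤ 2 * (C * ℓ) + 2 * (K + 1) ^ 2 := by
        have h4 : m * m ≤ 2 * (a * a) + 2 * (K + 1) ^ 2 := by
          rw [hm]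
          zify
          nlinarith [sq_nonneg ((a : ℤ) - (K + 1))]
        omega
      have h5 : 12 * (K + 1) ^ 2 + 32 * C ≤ 20 * (C * ℓ) := by
        have : ℓ ≤ C * ℓ := by
          calc ℓ = 1 * ℓ := by ring
            _ ≤ C * ℓ := Nat.mul_le_mul_right _ hC
        omega
      have h6 : K * (1 + (1 + L + 2 * p) * m * (2 * B)) ≤ K * ℓ := by
        calc K * (1 + (1 + L + 2 * p) * m * (2 * B)) =
            K + K * ((1 + L + 2 * p) * m * (2 * B)) := by ring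
          _ ≤ K + 6 * (2 * (C * ℓ) + 2 * (K + 1) ^ 2) := by omega
          _ ≤ 32 * (C * ℓ) := by omega
          _ = K * ℓ := by rw [hKdef]; ring
      exact Nat.le_of_mul_le_mul_left h6 hKpos
    calc 2 * ((2 * m * (2 ^ p) ^ 2) ^ m) ^ (4 * T)
        ≤ 2 * ((2 * 2 ^ L * (2 ^ p) ^ 2) ^ m) ^ (4 * T) := by
          apply Nat.mul_le_mul_left
          apply Nat.pow_le_pow_left
          apply Nat.pow_le_pow_left
          apply Nat.mul_le_mul_right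
          exact Nat.mul_le_mul_left _ hmL
      _ = 2 ^ (1 + (1 + L + 2 * p) * m * (2 * B)) := by
          have e1 : 2 * 2 ^ L * (2 ^ p) ^ 2 = 2 ^ (1 + L + 2 * p) := by
            rw [pow_add, pow_add, ← pow_mul, mul_comm p 2]; ring
          rw [e1, ← pow_mul, ← pow_mul, pow_add 2 1]
          congr 2
          rw [hBdef]; ring
      _ ≤ 2 ^ ℓ := Nat.pow_le_pow_right (by norm_num) hkey
      _ ≤ n := hℓn

end Pool.Agent.LibShatter
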