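import Mathlib
import Pool.Agent.LibShatter.Family
import Pool.Agent.LibShatter.Count

/-!
Every six points receive at least seventeen orders from the family.
-/

namespace Pool.Agent.LibShatter

open Finset

variable {D d mB mT mG : ℕ}

/-- six points in increasing order, with the first differences of consecutive points. -/
structure Six (𝓕 : Family D d mB mT mG) (X : Finset (Pt D d)) where
  x : Fin 6 → Pt D d
  mem : ∀ i, x i ∈ X
  mono : ∀ i j, i < j → 𝓕.p0 (x i) < 𝓕.p0 (x j)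
  l : Fin 5 → Fin D
  q : Fin 5 → Fin d
  fd : ∀ i : Fin 5, FD (x i.castSucc) (x i.succ) (l i) (q i)

theorem exists_six (𝓕 : Family D d mB mT mG) (X : Finset (Pt D d)) (hX : X.card = 6) :
    Nonempty (Six 𝓕 X) := by
  classical
  have hcard : (X.image 𝓕.p0).card = 6 := by
    rw [Finset.card_image_of_injective _ 𝓕.h0.inj, hX]
  let e := (X.image 𝓕.p0).orderEmbOfFin hcard
  have he : ∀ i, ∃ x ∈ X, 𝓕.p0 x = e i := by
    intro i
    have := Finset.orderEmbOfFin_mem (X.image 𝓕.p0) hcard i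
    rw [Finset.mem_image] at this
    exact this
  choose x hx hpx using he
  have hmono : ∀ i j, i < j → 𝓕.p0 (x i) < 𝓕.p0 (x j) := by
    intro i j hij
    rw [hpx, hpx]
    exact e.strictMono hij
  have hfd : ∀ i : Fin 5, ∃ l q, FD (x i.castSucc) (x i.succ) l q := by
    intro i
    exact 𝓕.exists_FD (hmono _ _ (Fin.castSucc_lt_succ))
  choose l q hlq using hfd
  exact ⟨⟨x, hx, hmono, l, q, hlq⟩⟩

/-- comparison of levels. -/
def LevLt (l : Fin D) (q : Fin d) (l' : Fin D) (q' : Fin d) : Prop :=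
  l < l' ∨ (l = l' ∧ q < q')

theorem FD.trans_left {x y z : Pt D d} {l l' : Fin D} {q q' : Fin d} (h : FD x y l q)
    (h' : FD y z l' q') (hlt : LevLt l q l' q') : FD x z l q := by
  rcases hlt with hlt | ⟨rfl, hlt⟩
  · refine ⟨fun l₀ hl₀ => (h.1 l₀ hl₀).trans (h'.1 l₀ (hl₀.trans hlt)), ?_⟩
    rw [← h'.1 l hlt]
    exact h.2
  · refine ⟨fun l₀ hl₀ => (h.1 l₀ hl₀).trans (h'.1 l₀ hl₀), ?_, h.2.2.1, ?_⟩
    · intro q₀ hq₀
      exact (h.2.1 q₀ hq₀).trans (h'.2.1 q₀ (hq₀.trans hlt))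
    · rw [← h'.2.1 q hlt]
      exact h.2.2.2

theorem FD.trans_right {x y z : Pt D d} {l l' : Fin D} {q q' : Fin d} (h : FD x y l q)
    (h' : FD y z l' q') (hlt : LevLt l' q' l q) : FD x z l' q' := by
  rcases hlt with hlt | ⟨rfl, hlt⟩
  · refine ⟨fun l₀ hl₀ => (h.1 l₀ (hl₀.trans hlt)).trans (h'.1 l₀ hl₀), ?_⟩
    rw [h.1 l' hlt]
    exact h'.2
  · refine ⟨fun l₀ hl₀ => (h.1 l₀ hl₀).trans (h'.1 l₀ hl₀), ?_, ?_, h'.2.2.2⟩
    · intro q₀ hq₀
      exact (h.2.1 q₀ (hq₀.trans hlt)).trans (h'.2.1 q₀ hq₀)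
    · rw [h.2.1 q' hlt]
      exact h'.2.2.1

variable {𝓕 : Family D d mB mT mG} {X : Finset (Pt D d)}

/-- the label of a consecutive pair. -/
def Six.lab (s : Six 𝓕 X) (i : Fin 5) : Lab D d :=
  (s.l i, s.q i, trunc (s.q i) (s.x i.castSucc (s.l i)))

theorem Six.lab_l (s : Six 𝓕 X) {i j : Fin 5} (h : s.lab i = s.lab j) : s.l i = s.l j :=
  congrArg Prod.fst h

theorem Six.lab_q (s : Six 𝓕 X) {i j : Fin 5} (h : s.lab i = s.lab j) : s.q i = s.q j :=
  congrArg (fun z => z.2.1) h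

theorem Six.lab_t (s : Six 𝓕 X) {i j : Fin 5} (h : s.lab i = s.lab j) :
    ∀ q', q' < s.q i → s.x i.castSucc (s.l i) q' = s.x j.castSucc (s.l i) q' := by
  have ht : trunc (s.q i) (s.x i.castSucc (s.l i)) = trunc (s.q j) (s.x j.castSucc (s.l j)) :=
    congrArg (fun z => z.2.2) h
  rw [← s.lab_l h, ← s.lab_q h] at ht
  exact eq_of_trunc ht

theorem Six.fdb4 (s : Six 𝓕 X) {i j : Fin 5} (h : s.lab i = s.lab j) :
    FDB (s.x i.castSucc (s.l i)) (s.x i.succ (s.l i)) (s.q i) ∧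
    FDB (s.x i.castSucc (s.l i)) (s.x j.succ (s.l i)) (s.q i) ∧
    FDB (s.x j.castSucc (s.l i)) (s.x i.succ (s.l i)) (s.q i) ∧
    FDB (s.x j.castSucc (s.l i)) (s.x j.succ (s.l i)) (s.q i) := by
  have hi := (s.fd i).2
  have hj := (s.fd j).2
  rw [← s.lab_l h, ← s.lab_q h] at hj
  have ht := s.lab_t h
  refine ⟨hi, ⟨?_, hi.2.1, hj.2.2⟩, ⟨?_, hj.2.1, hi.2.2⟩, hj⟩
  · intro q' hq'
    exact (ht q' hq').trans (hj.1 q' hq')
  · intro q' hq'
    exact (ht q' hq').symm.trans (hi.1 q' hq')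

theorem Six.coinc (s : Six 𝓕 X) {i j : Fin 5} (hij : i < j) (h : s.lab i = s.lab j) :
    ∃ b, b < s.l i ∧ s.x i.castSucc b ≠ s.x j.castSucc b := by
  by_contra hcon
  push Not at hcon
  have key : FD (s.x j.castSucc) (s.x i.succ) (s.l i) (s.q i) := by
    refine ⟨?_, (s.fdb4 h).2.2.1⟩
    intro l' hl'
    rw [← hcon l' hl', (s.fd i).1 l' hl']
  have h1 := 𝓕.p0_lt key
  have h2 : i.succ ≤ j.castSucc := by
    rw [Fin.le_def]
    rw [Fin.lt_def] at hij
    simpa using hij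
  rcases h2.lt_or_eq with h3 | h3
  · exact lt_asymm h1 (s.mono _ _ h3)
  · rw [h3] at h1; exact lt_irrefl _ h1

theorem Six.sep (s : Six 𝓕 X) {i j : Fin 5} (hij : i < j) (h : s.lab i = s.lab j)
    {β : Fin D → Blk d → ℕ} {pos : Pt D d → ℕ} (hβ : ∀ l, Function.Injective (β l))
    (hpos : IsOuter (id : Fin D → Fin D) β pos) :
    Sep4 (fun a b => pos a < pos b) (s.x i.castSucc) (s.x i.succ) (s.x j.castSucc)
      (s.x j.succ) := by
  obtain ⟨b, hb, hne⟩ := s.coinc hij h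
  have hl := s.lab_l h
  refine sep_of hβ hpos b ?_ ?_ hne
  · intro l' hl'
    exact (s.fd i).1 l' (lt_of_le_of_lt hl' hb)
  · intro l' hl'
    exact (s.fd j).1 l' (lt_of_le_of_lt hl' (hl ▸ hb))

theorem Six.top_cross (s : Six 𝓕 X) {i j : Fin 5} (h : s.lab i = s.lab j) (m : Fin mT) :
    Sep4 (fun a b => 𝓕.pT (s.l i) m a < 𝓕.pT (s.l i) m b) (s.x i.castSucc) (s.x j.castSucc)
      (s.x i.succ) (s.x j.succ) := by
  obtain ⟨h1, h2, h3, h4⟩ := s.fdb4 h
  refine cross_of (𝓕.bTinj m) (𝓕.hT (s.l i) m) 0 (s.q i) (𝓕.H m (s.l i, s.q i)) ?_ ?_ ?_ ?_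
    h1 h2 h3 h4
  · intro σ τ hf
    exact 𝓕.bTlt m _ σ τ _ hf
  · intro l hl; exact absurd hl (Fin.not_lt_zero _)
  · intro l hl; exact absurd hl (Fin.not_lt_zero _)
  · intro l hl; exact absurd hl (Fin.not_lt_zero _)

theorem Six.differ_base_top (s : Six 𝓕 X) {i j : Fin 5} (hij : i < j) (h : s.lab i = s.lab j)
    (a : Fin mB) (m : Fin mT) :
    Differ 𝓕.pos X (Sum.inl a) (Sum.inr (Sum.inl (s.l i, m))) :=
  differ_of_sep (s.mem _) (s.mem _) (s.mem _) (s.mem _)
    (s.sep hij h (𝓕.bBinj a) (𝓕.hB a)) (s.top_cross h m)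

theorem Six.base_signs (s : Six 𝓕 X) {k : ℕ} (v : Fin k → Fin 5)
    (hv : Function.Injective (fun j => s.lab (v j))) :
    ∃ u : (Fin k → Bool) → Fin mB, Signs 𝓕.pos X k (fun ε => Sum.inl (u ε)) := by
  classical
  have : ∀ ε : Fin k → Bool, ∃ i, ∀ j, 𝓕.F i (s.lab (v j)) = ε j := by
    intro ε
    obtain ⟨i, hi⟩ := 𝓕.indF s.lab (Function.extend (fun j => s.lab (v j)) ε (fun _ => false))
    refine ⟨i, fun j => ?_⟩
    rw [hi (v j)]
    exact hv.extend_apply ε _ j
  choose u hu using this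
  refine ⟨u, fun j => s.x (v j).castSucc, fun j => s.x (v j).succ, fun _ => s.mem _,
    fun _ => s.mem _, ?_⟩
  intro ε j
  show 𝓕.pB (u ε) _ < 𝓕.pB (u ε) _ ↔ _
  rw [𝓕.base_lt (s.fd (v j)), ← hu ε j]
  rfl

/-- first difference when block `j` is read first. -/
def TFD (j : Fin D) (x y : Pt D d) (l : Fin D) (q : Fin d) : Prop :=
  (l = j ∧ FDB (x j) (y j) q) ∨ (x j = y j ∧ FD x y l q)

theorem TFD.bits {j : Fin D} {x y : Pt D d} {l : Fin D} {q : Fin d} (h : TFD j x y l q) :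
    x l q = false ∧ y l q = true := by
  rcases h with ⟨rfl, h⟩ | ⟨-, h⟩
  · exact ⟨h.2.1, h.2.2⟩
  · exact ⟨h.2.2.1, h.2.2.2⟩

theorem Family.exists_TFD (𝓕 : Family D d mB mT mG) (j : Fin D) {x y : Pt D d} (h : x ≠ y) :
    ∃ l q, TFD j x y l q ∨ TFD j y x l q := by
  by_cases hj : x j = y j
  · rcases lt_or_gt_of_ne (fun hh => h (𝓕.h0.inj hh)) with h1 | h1
    · obtain ⟨l, q, h2⟩ := 𝓕.exists_FD h1
      exact ⟨l, q, Or.inl (Or.inr ⟨hj, h2⟩)⟩
    · obtain ⟨l, q, h2⟩ := 𝓕.exists_FD h1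
      exact ⟨l, q, Or.inr (Or.inr ⟨hj.symm, h2⟩)⟩
  · obtain ⟨q, h1 | h1⟩ := exists_FDB hj
    · exact ⟨j, q, Or.inl (Or.inl ⟨rfl, h1⟩)⟩
    · exact ⟨j, q, Or.inr (Or.inl ⟨rfl, h1⟩)⟩

theorem Family.top_lt (𝓕 : Family D d mB mT mG) {j : Fin D} {x y : Pt D d} {l : Fin D}
    {q : Fin d} (h : TFD j x y l q) (m : Fin mT) :
    𝓕.pT j m x < 𝓕.pT j m y ↔ 𝓕.H m (l, q) = false := by
  rcases h with ⟨rfl, h⟩ | ⟨hj, h⟩
  · rw [outer_lt_iff (𝓕.bTinj m) (𝓕.hT l m) 0
      (fun l' hl' => absurd hl' (Fin.not_lt_zero _)) h.ne]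
    exact 𝓕.bTlt m _ _ _ _ h
  · have h1 : ∀ l', l' < l.succ → x ((Fin.cons j id : Fin (D + 1) → Fin D) l') =
        y ((Fin.cons j id : Fin (D + 1) → Fin D) l') := by
      intro l'
      refine Fin.cases ?_ ?_ l'
      · intro _
        simpa using hj
      · intro l'' hl''
        have : l'' < l := Fin.succ_lt_succ_iff.mp hl''
        simpa using h.1 l'' this
    rw [outer_lt_iff (𝓕.bTinj m) (𝓕.hT j m) l.succ h1 (by simpa using h.2.ne)]
    exact 𝓕.bTlt m _ _ _ _ (by simpa using h.2)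

theorem Family.three_levels (𝓕 : Family D d mB mT mG) (X : Finset (Pt D d)) (hX : 4 < X.card)
    (j : Fin D) : ∃ (a b : Fin 3 → Pt D d) (lev : Fin 3 → Fin D × Fin d),
      Function.Injective lev ∧ (∀ i, a i ∈ X) ∧ (∀ i, b i ∈ X) ∧
      ∀ i, TFD j (a i) (b i) (lev i).1 (lev i).2 := by
  classical
  let S : Finset (Fin D × Fin d) :=
    Finset.univ.filter (fun n => ∃ x ∈ X, ∃ y ∈ X, TFD j x y n.1 n.2)
  have hS : 3 ≤ S.card := by
    by_contra hcon
    have hinj : Function.Injective (fun (x : X) (n : S) => (x : Pt D d) n.1.1 n.1.2) := by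
      intro x y hxy
      by_contra hne
      have hne' : (x : Pt D d) ≠ y := fun hh => hne (Subtype.ext hh)
      obtain ⟨l, q, h | h⟩ := 𝓕.exists_TFD j hne'
      · have hmem : (l, q) ∈ S := by
          simp only [S, Finset.mem_filter, Finset.mem_univ, true_and]
          exact ⟨x, x.2, y, y.2, h⟩
        have h1 := congrFun hxy ⟨(l, q), hmem⟩
        simp only at h1
        rw [h.bits.1, h.bits.2] at h1
        exact absurd h1 (by decide)
      · have hmem : (l, q) ∈ S := by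
          simp only [S, Finset.mem_filter, Finset.mem_univ, true_and]
          exact ⟨y, y.2, x, x.2, h⟩
        have h1 := congrFun hxy ⟨(l, q), hmem⟩
        simp only at h1
        rw [h.bits.1, h.bits.2] at h1
        exact absurd h1 (by decide)
    have h1 := Fintype.card_le_of_injective _ hinj
    have h2 : Fintype.card (S → Bool) = 2 ^ S.card := by simp
    have h3 : Fintype.card X = X.card := by simp
    have h4 : 2 ^ S.card ≤ 2 ^ 2 := Nat.pow_le_pow_right (by norm_num) (by omega)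
    omega
  obtain ⟨e⟩ : Nonempty (Fin 3 ↪ S) := by
    apply Function.Embedding.nonempty_of_card_le
    simpa using hS
  have h1 : ∀ i : Fin 3, ∃ x ∈ X, ∃ y ∈ X, TFD j x y (e i).1.1 (e i).1.2 := by
    intro i
    have := (e i).2
    simpa only [S, Finset.mem_filter, Finset.mem_univ, true_and] using this
  choose a ha b hb hab using h1
  refine ⟨a, b, fun i => (e i).1, ?_, ha, hb, hab⟩
  intro i i' hii
  exact e.injective (Subtype.ext hii)

theorem Family.top_signs (𝓕 : Family D d mB mT mG) (X : Finset (Pt D d)) (hX : 4 < X.card)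
    (j : Fin D) : ∃ v : (Fin 3 → Bool) → Fin mT,
      Signs 𝓕.pos X 3 (fun ε => Sum.inr (Sum.inl (j, v ε))) := by
  classical
  obtain ⟨a, b, lev, hinj, ha, hb, hT⟩ := 𝓕.three_levels X hX j
  have : ∀ ε : Fin 3 → Bool, ∃ i, ∀ k, 𝓕.H i (lev k) = ε k := by
    intro ε
    obtain ⟨i, hi⟩ := 𝓕.indH ![lev 0, lev 1, lev 2, lev 2, lev 2]
      (Function.extend lev ε (fun _ => false))
    refine ⟨i, fun k => ?_⟩
    have h1 : 𝓕.H i (lev k) = Function.extend lev ε (fun _ => false) (lev k) := by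
      fin_cases k
      · exact hi 0
      · exact hi 1
      · exact hi 2
    rw [h1]
    exact hinj.extend_apply ε _ k
  choose v hv using this
  refine ⟨v, a, b, ha, hb, ?_⟩
  intro ε k
  show 𝓕.pT j (v ε) _ < 𝓕.pT j (v ε) _ ↔ _
  rw [𝓕.top_lt (hT k), ← hv ε k]

theorem triple_differ {u v w : Pt D d} (hu : u ∈ X) (hv : v ∈ X) (hw : w ∈ X) {l : Fin D}
    {q1 q2 : Fin d} (h1 : FD u v l q1) (h2 : FD v w l q2) (hne : q1 ≠ q2) :
    ∃ g : Fin mG, ∀ a : Fin mB,
      Differ 𝓕.pos X (Sum.inl a) (Sum.inr (Sum.inr (Sum.inr g))) := by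
  have huv : u l ≠ v l := h1.2.ne
  have hvw : v l ≠ w l := h2.2.ne
  have auv : ∀ l', l' < l → u l' = v l' := h1.1
  have avw : ∀ l', l' < l → v l' = w l' := h2.1
  rcases lt_or_gt_of_ne hne with hlt | hlt
  · have h3 : FD u w l q1 := h1.trans_left h2 (Or.inr ⟨rfl, hlt⟩)
    have huw : u l ≠ w l := h3.2.ne
    obtain ⟨g, g1, g2⟩ := 𝓕.gmid (v l) (u l) (w l) huv.symm hvw huw
    refine ⟨g, fun a => differ_of_between (o := u) (a := v) (b := w) hu hv hw ?_ ?_ ?_⟩
    · show 𝓕.pB a u < 𝓕.pB a v ↔ 𝓕.pB a u < 𝓕.pB a w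
      rw [𝓕.base_lt h1, 𝓕.base_lt h3]
    · show 𝓕.pG g v < 𝓕.pG g u
      rw [outer_lt_iff (fun _ => 𝓕.ginj g) (𝓕.hG g) l (fun l' hl' => (auv l' hl').symm) huv.symm]
      exact g1
    · show 𝓕.pG g u < 𝓕.pG g w
      rw [outer_lt_iff (fun _ => 𝓕.ginj g) (𝓕.hG g) l h3.1 huw]
      exact g2
  · have h3 : FD u w l q2 := h1.trans_right h2 (Or.inr ⟨rfl, hlt⟩)
    have huw : u l ≠ w l := h3.2.ne
    obtain ⟨g, g1, g2⟩ := 𝓕.gmid (u l) (w l) (v l) huw huv hvw.symm
    refine ⟨g, fun a => differ_of_between (o := w) (a := u) (b := v) hw hu hv ?_ ?_ ?_⟩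
    · show 𝓕.pB a w < 𝓕.pB a u ↔ 𝓕.pB a w < 𝓕.pB a v
      rw [𝓕.base_gt h2, 𝓕.base_gt h3]
      rw [trunc_eq (σ := u l) (τ := v l) (fun q' hq' => h1.2.1 q' (lt_trans hq' hlt))]
    · show 𝓕.pG g u < 𝓕.pG g w
      rw [outer_lt_iff (fun _ => 𝓕.ginj g) (𝓕.hG g) l h3.1 huw]
      exact g1
    · show 𝓕.pG g w < 𝓕.pG g v
      rw [outer_lt_iff (fun _ => 𝓕.ginj g) (𝓕.hG g) l (fun l' hl' => (avw l' hl').symm) hvw.symm]
      exact g2

theorem Six.caseA (s : Six 𝓕 X) (hX : X.card = 6) {t : Fin 3 → Fin 5}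
    (ht : Function.Injective (fun j => s.lab (t j))) {r r' : Fin 5} (hr : r < r')
    (hrr : s.lab r = s.lab r') {u v w : Pt D d} (hu : u ∈ X) (hv : v ∈ X) (hw : w ∈ X)
    {l : Fin D} {q1 q2 : Fin d} (h1 : FD u v l q1) (h2 : FD v w l q2) (hne : q1 ≠ q2) :
    17 ≤ (ordSet 𝓕.pos X).ncard := by
  obtain ⟨U, hU⟩ := s.base_signs t ht
  obtain ⟨V, hV⟩ := 𝓕.top_signs X (by omega) (s.l r)
  obtain ⟨g, hg⟩ := triple_differ (𝓕 := 𝓕) hu hv hw h1 h2 hne
  refine count_three hU hV (w := Sum.inr (Sum.inr (Sum.inr g))) ?_ ?_ ?_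
  · intro ε δ
    exact s.differ_base_top hr hrr _ _
  · intro ε
    exact hg _
  · intro ε
    exact (differ_of_sep (pos := 𝓕.pos) (i := Sum.inr (Sum.inr (Sum.inr g)))
      (j := Sum.inr (Sum.inl (s.l r, V ε))) (s.mem _) (s.mem _) (s.mem _) (s.mem _)
      (s.sep hr hrr (fun _ => 𝓕.ginj g) (𝓕.hG g)) (s.top_cross hrr (V ε))).symm

theorem Six.caseB (s : Six 𝓕 X) (hX : X.card = 6) {t : Fin 3 → Fin 5}
    (ht : Function.Injective (fun j => s.lab (t j))) {r r' p p' : Fin 5} (hr : r < r')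
    (hrr : s.lab r = s.lab r') (hp : p < p') (hpp : s.lab p = s.lab p')
    (hlt : s.l p < s.l r) : 17 ≤ (ordSet 𝓕.pos X).ncard := by
  obtain ⟨U, hU⟩ := s.base_signs t ht
  obtain ⟨V, hV⟩ := 𝓕.top_signs X (by omega) (s.l r)
  obtain ⟨m, -⟩ := 𝓕.indH (fun _ => (s.l r, s.q r)) (fun _ => false)
  refine count_three hU hV (w := Sum.inr (Sum.inl (s.l p, m))) ?_ ?_ ?_
  · intro ε δ
    exact s.differ_base_top hr hrr _ _
  · intro ε
    exact s.differ_base_top hp hpp _ _
  · intro ε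
    refine (differ_of_sep (pos := 𝓕.pos) (i := Sum.inr (Sum.inl (s.l p, m)))
      (j := Sum.inr (Sum.inl (s.l r, V ε))) (s.mem r.castSucc) (s.mem r.succ)
      (s.mem r'.castSucc) (s.mem r'.succ) ?_ (s.top_cross hrr (V ε))).symm
    obtain ⟨b, hb, hne⟩ := s.coinc hr hrr
    have hl := s.lab_l hrr
    refine sep_of (𝓕.bTinj m) (𝓕.hT (s.l p) m) b.succ ?_ ?_ ?_
    · intro l'
      refine Fin.cases ?_ ?_ l'
      · intro _
        simpa using (s.fd r).1 _ hlt
      · intro l'' hl''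
        have : l'' ≤ b := Fin.succ_le_succ_iff.mp hl''
        simpa using (s.fd r).1 l'' (lt_of_le_of_lt this hb)
    · intro l'
      refine Fin.cases ?_ ?_ l'
      · intro _
        simpa using (s.fd r').1 _ (hl ▸ hlt)
      · intro l'' hl''
        have : l'' ≤ b := Fin.succ_le_succ_iff.mp hl''
        simpa using (s.fd r').1 l'' (lt_of_le_of_lt this (hl ▸ hb))
    · simpa using hne

theorem Six.caseC (s : Six 𝓕 X) (hX : X.card = 6) {t : Fin 3 → Fin 5}
    (ht : Function.Injective (fun j => s.lab (t j))) {a b c e : Fin 5} (hab : a < b)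
    (hlab : s.lab a = s.lab b) (hce : c < e) (hlce : s.lab c = s.lab e)
    (hac : s.l a = s.l c) (j : Fin D) (hj : j < s.l a)
    (hne : s.x a.castSucc j ≠ s.x b.castSucc j) (heq : s.x c.castSucc j = s.x e.castSucc j) :
    17 ≤ (ordSet 𝓕.pos X).ncard := by
  obtain ⟨U, hU⟩ := s.base_signs t ht
  obtain ⟨V, hV⟩ := 𝓕.top_signs X (by omega) (s.l a)
  refine count_three hU hV (w := Sum.inr (Sum.inr (Sum.inl (j, s.l a)))) ?_ ?_ ?_
  · intro ε δ
    exact s.differ_base_top hab hlab _ _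
  · intro ε
    refine differ_of_sep (s.mem c.castSucc) (s.mem c.succ) (s.mem e.castSucc)
      (s.mem e.succ) (s.sep hce hlce (𝓕.bBinj _) (𝓕.hB _)) ?_
    show Sep4 (fun y z => 𝓕.pP j (s.l a) y < 𝓕.pP j (s.l a) z) _ _ _ _
    obtain ⟨h1, h2, h3, h4⟩ := s.fdb4 hlce
    rw [← hac] at h1 h2 h3 h4
    have hjc : j < s.l c := hac ▸ hj
    have hje : j < s.l e := (s.lab_l hlce) ▸ hjc
    have hc : ∀ l : Fin (D + 2), l < 1 →
        (Fin.cons j (Fin.cons (s.l a) id : Fin (D + 1) → Fin D) : Fin (D + 2) → Fin D) l = j := by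
      intro l hl
      have : l = 0 := by
        rw [Fin.lt_def] at hl
        apply Fin.ext
        simp at hl ⊢
        exact hl
      rw [this]
      rfl
    refine cross_of 𝓕.b0inj (𝓕.hP j (s.l a)) 1 (s.q c) false ?_ ?_ ?_ ?_ h1 h2 h3 h4
    · intro σ τ hf
      simp only [iff_true]
      exact 𝓕.b0lt _ _ _ _ hf
    · intro l hl
      rw [hc l hl]
      exact heq
    · intro l hl
      rw [hc l hl]
      exact (s.fd c).1 j hjc
    · intro l hl
      rw [hc l hl]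
      exact heq.trans ((s.fd e).1 j hje)
  · intro ε
    refine (differ_of_sep (pos := 𝓕.pos) (i := Sum.inr (Sum.inr (Sum.inl (j, s.l a))))
      (j := Sum.inr (Sum.inl (s.l a, V ε))) (s.mem a.castSucc) (s.mem a.succ)
      (s.mem b.castSucc) (s.mem b.succ) ?_ (s.top_cross hlab (V ε))).symm
    have hl := s.lab_l hlab
    refine sep_of 𝓕.b0inj (𝓕.hP j (s.l a)) 0 ?_ ?_ ?_
    · intro l' hl'
      have h0 : l' = 0 := Fin.le_zero_iff.mp hl'
      rw [h0]
      exact (s.fd a).1 j hj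
    · intro l' hl'
      have h0 : l' = 0 := Fin.le_zero_iff.mp hl'
      rw [h0]
      exact (s.fd b).1 j (hl ▸ hj)
    · exact hne

theorem exists_four {α : Type*} [DecidableEq α] (n : Fin 5 → α)
    (h : 4 ≤ (Finset.univ.image n).card) :
    ∃ v : Fin 4 → Fin 5, Function.Injective (fun j => n (v j)) := by
  obtain ⟨e⟩ : Nonempty (Fin 4 ↪ (Finset.univ.image n)) := by
    apply Function.Embedding.nonempty_of_card_le
    simpa using h
  have h1 : ∀ i : Fin 4, ∃ k, n k = (e i).1 := by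
    intro i
    have := (e i).2
    rw [Finset.mem_image] at this
    obtain ⟨k, -, hk⟩ := this
    exact ⟨k, hk⟩
  choose v hv using h1
  refine ⟨v, ?_⟩
  intro i j hij
  simp only [hv] at hij
  exact e.injective (Subtype.ext hij)

theorem exists_rank {α : Type*} [LinearOrder α] (n : Fin 5 → α)
    (h : (Finset.univ.image n).card ≤ 3) :
    ∃ f : Fin 5 → Fin 3, ∀ i j, f i < f j ↔ n i < n j := by
  classical
  let T := Finset.univ.image n
  have hmem : ∀ i, n i ∈ T := fun i => Finset.mem_image_of_mem _ (Finset.mem_univ _)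
  have hlt : ∀ i, (T.filter (· < n i)).card < 3 := by
    intro i
    have : T.filter (· < n i) ⊂ T := by
      rw [Finset.filter_ssubset]
      exact ⟨n i, hmem i, lt_irrefl _⟩
    exact lt_of_lt_of_le (Finset.card_lt_card this) h
  refine ⟨fun i => ⟨_, hlt i⟩, ?_⟩
  have hmono : ∀ i j, n i < n j → (T.filter (· < n i)).card < (T.filter (· < n j)).card := by
    intro i j hij
    apply Finset.card_lt_card
    rw [Finset.ssubset_iff_of_subset]
    · exact ⟨n i, by simp [hmem i, hij], by simp⟩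
    · intro z hz
      rw [Finset.mem_filter] at hz ⊢
      exact ⟨hz.1, hz.2.trans hij⟩
  intro i j
  rw [Fin.lt_def]
  constructor
  · intro h1
    by_contra hcon
    rcases lt_or_eq_of_le (not_lt.mp hcon) with h2 | h2
    · exact absurd h1 (not_lt.mpr (hmono _ _ h2).le)
    · simp only [h2] at h1
      exact lt_irrefl _ h1
  · exact hmono i j

theorem levLt_trichotomy (l : Fin D) (q : Fin d) (l' : Fin D) (q' : Fin d) :
    LevLt l q l' q' ∨ (l = l' ∧ q = q') ∨ LevLt l' q' l q := by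
  unfold LevLt
  rcases lt_trichotomy l l' with h | h | h
  · exact Or.inl (Or.inl h)
  · rcases lt_trichotomy q q' with h' | h' | h'
    · exact Or.inl (Or.inr ⟨h, h'⟩)
    · exact Or.inr (Or.inl ⟨h, h'⟩)
    · exact Or.inr (Or.inr (Or.inr ⟨h.symm, h'⟩))
  · exact Or.inr (Or.inr (Or.inl h))

theorem Six.agree_bit (s : Six 𝓕 X) (k : Fin 5) {l : Fin D} {q : Fin d}
    (h : LevLt l q (s.l k) (s.q k)) : s.x k.castSucc l q = s.x k.succ l q := by
  rcases h with h | ⟨rfl, h⟩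
  · rw [(s.fd k).1 l h]
  · exact (s.fd k).2.1 q h

theorem Six.between (s : Six 𝓕 X) {i j : Fin 5} (hij : i < j) (hl : s.l i = s.l j)
    (hq : s.q i = s.q j) : ∃ k, i < k ∧ k < j ∧ LevLt (s.l k) (s.q k) (s.l i) (s.q i) := by
  by_contra hcon
  push Not at hcon
  have claim : ∀ m : ℕ, ∀ k : Fin 5, k ≤ j → k.val = i.val + 1 + m →
      s.x k.castSucc (s.l i) (s.q i) = true := by
    intro m
    induction m with
    | zero =>
      intro k _ hk
      have : k.castSucc = i.succ := by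
        apply Fin.ext
        simp
        omega
      rw [this]
      exact (s.fd i).2.2.2
    | succ m ih =>
      intro k hkj hk
      have hlt : k.val - 1 < 5 := by omega
      have h1 := ih ⟨k.val - 1, hlt⟩ (by rw [Fin.le_def] at hkj ⊢; simp; omega)
        (by simp; omega)
      have h2 : (⟨k.val - 1, hlt⟩ : Fin 5).succ = k.castSucc := by
        apply Fin.ext
        simp
        omega
      rw [← h2]
      rcases levLt_trichotomy (s.l ⟨k.val - 1, hlt⟩) (s.q ⟨k.val - 1, hlt⟩) (s.l i) (s.q i)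
        with h3 | ⟨h3, h4⟩ | h3
      · exact absurd h3 (hcon _ (by rw [Fin.lt_def]; simp; omega)
          (by rw [Fin.le_def] at hkj; rw [Fin.lt_def]; simp; omega))
      · have h5 := (s.fd ⟨k.val - 1, hlt⟩).2.2.1
        rw [h3, h4, h1] at h5
        exact absurd h5 (by decide)
      · rw [← s.agree_bit _ h3]
        exact h1
  have h1 := claim (j.val - i.val - 1) j le_rfl (by rw [Fin.lt_def] at hij; omega)
  have h2 := (s.fd j).2.2.1
  rw [← hl, ← hq, h1] at h2
  exact absurd h2 (by decide)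

/-- the pattern condition, as a boolean. -/
def okU (a b c d e : Fin 3) : Bool :=
  decide (a ≠ b) && decide (b ≠ c) && decide (c ≠ d) && decide (d ≠ e) &&
  decide (a = c → b < a) && decide (b = d → c < b) && decide (c = e → d < c) &&
  decide (a = d → b < a ∨ c < a) && decide (b = e → c < b ∨ d < b) &&
  decide (a = e → b < a ∨ c < a ∨ d < a)

/-- the code of a pattern. -/
def codeU (a b c d e : Fin 3) : ℕ := a.val * 10000 + b.val * 1000 + c.val * 100 + d.val * 10 + e.val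

theorem classify_bool : ∀ a b c d e : Fin 3, okU a b c d e = true →
    (codeU a b c d e = 12012 ∨ codeU a b c d e = 12021 ∨ codeU a b c d e = 21012 ∨
      codeU a b c d e = 21021 ∨ codeU a b c d e = 21201 ∨ codeU a b c d e = 10212 ∨
      codeU a b c d e = 21202 ∨ codeU a b c d e = 20212) := by
  decide +kernel

theorem classify (a b c d e : Fin 3) (h01 : a ≠ b) (h12 : b ≠ c) (h23 : c ≠ d) (h34 : d ≠ e)
    (h02 : a = c → b < a) (h13 : b = d → c < b) (h24 : c = e → d < c)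
    (h03 : a = d → b < a ∨ c < a) (h14 : b = e → c < b ∨ d < b)
    (h04 : a = e → b < a ∨ c < a ∨ d < a) :
    (codeU a b c d e = 12012 ∨ codeU a b c d e = 12021 ∨ codeU a b c d e = 21012 ∨
      codeU a b c d e = 21021 ∨ codeU a b c d e = 21201 ∨ codeU a b c d e = 10212 ∨
      codeU a b c d e = 21202 ∨ codeU a b c d e = 20212) := by
  apply classify_bool
  simp only [okU, Bool.and_eq_true, decide_eq_true_eq]
  exact ⟨⟨⟨⟨⟨⟨⟨⟨⟨h01, h12⟩, h23⟩, h34⟩, h02⟩, h13⟩, h24⟩, h03⟩, h14⟩, h04⟩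

theorem decode (a b c d e : Fin 3) (a' b' c' d' e' : Fin 3)
    (h : codeU a b c d e = codeU a' b' c' d' e') : a = a' ∧ b = b' ∧ c = c' ∧ d = d' ∧ e = e' := by
  unfold codeU at h
  have h1 := a.isLt
  have h2 := b.isLt
  have h3 := c.isLt
  have h4 := d.isLt
  have h5 := e.isLt
  have h1' := a'.isLt
  have h2' := b'.isLt
  have h3' := c'.isLt
  have h4' := d'.isLt
  have h5' := e'.isLt
  refine ⟨Fin.ext ?_, Fin.ext ?_, Fin.ext ?_, Fin.ext ?_, Fin.ext ?_⟩ <;> omega

theorem Six.six_case (s : Six 𝓕 X) (hX : X.card = 6) {t : Fin 3 → Fin 5}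
    (ht : Function.Injective (fun j => s.lab (t j))) {p p' r r' a b : Fin 5} (hp : p < p')
    (hpp : s.lab p = s.lab p') (hr : r < r') (hrr : s.lab r = s.lab r')
    (hlev : LevLt (s.l p) (s.q p) (s.l r) (s.q r)) (hab : a.succ = b.castSucc)
    (h : (s.l a = s.l p ∧ s.q a = s.q p ∧ s.l b = s.l r ∧ s.q b = s.q r) ∨
      (s.l a = s.l r ∧ s.q a = s.q r ∧ s.l b = s.l p ∧ s.q b = s.q p)) :
    17 ≤ (ordSet 𝓕.pos X).ncard := by
  rcases hlev with hlt | ⟨hl, hq⟩
  · exact s.caseB hX ht hr hrr hp hpp hlt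
  · have h1 := s.fd a
    have h2 := s.fd b
    rw [← hab] at h2
    have hlab : s.l b = s.l a := by
      rcases h with ⟨e1, -, e2, -⟩ | ⟨e1, -, e2, -⟩
      · rw [e1, e2, hl]
      · rw [e1, e2, hl]
    rw [hlab] at h2
    have hne : s.q a ≠ s.q b := by
      rcases h with ⟨-, e1, -, e2⟩ | ⟨-, e1, -, e2⟩
      · rw [e1, e2]; exact ne_of_lt hq
      · rw [e1, e2]; exact (ne_of_lt hq).symm
    exact s.caseA hX ht hr hrr (s.mem _) (s.mem _) (s.mem _) h1 h2 hne

theorem Six.main (s : Six 𝓕 X) (hX : X.card = 6) : 17 ≤ (ordSet 𝓕.pos X).ncard := by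
  classical
  by_cases h5 : Function.Injective s.lab
  · obtain ⟨U, hU⟩ := s.base_signs id h5
    exact count_five hU
  obtain ⟨r₀, r₁, hr01, hrr01⟩ : ∃ r r', r < r' ∧ s.lab r = s.lab r' := by
    unfold Function.Injective at h5
    push Not at h5
    obtain ⟨i, j, h1, h2⟩ := h5
    rcases lt_or_gt_of_ne h2 with h3 | h3
    · exact ⟨i, j, h3, h1⟩
    · exact ⟨j, i, h3, h1.symm⟩
  by_cases h4 : ∃ v : Fin 4 → Fin 5, Function.Injective (fun j => s.lab (v j))
  · obtain ⟨v, hv⟩ := h4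
    obtain ⟨U, hU⟩ := s.base_signs v hv
    obtain ⟨m, -⟩ := 𝓕.indH (fun _ => (s.l r₀, s.q r₀)) (fun _ => false)
    exact count_four hU (w := Sum.inr (Sum.inl (s.l r₀, m)))
      (fun ε => s.differ_base_top hr01 hrr01 _ _)
  -- the levels
  let n : Fin 5 → Fin D ×ₗ Fin d := fun i => toLex (s.l i, s.q i)
  have hn : ∀ i j, n i < n j ↔ LevLt (s.l i) (s.q i) (s.l j) (s.q j) := by
    intro i j
    simp only [n, Prod.Lex.toLex_lt_toLex]
    rfl
  have hcard : (Finset.univ.image n).card ≤ 3 := by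
    by_contra hcon
    obtain ⟨v, hv⟩ := exists_four n (by omega)
    apply h4
    refine ⟨v, ?_⟩
    intro i j hij
    apply hv
    simp only [n]
    rw [s.lab_l hij, s.lab_q hij]
  obtain ⟨f, hf⟩ := exists_rank n hcard
  have hfl : ∀ i j, f i < f j ↔ LevLt (s.l i) (s.q i) (s.l j) (s.q j) := fun i j =>
    (hf i j).trans (hn i j)
  have hfe : ∀ i j, f i = f j → s.l i = s.l j ∧ s.q i = s.q j := by
    intro i j hij
    rcases levLt_trichotomy (s.l i) (s.q i) (s.l j) (s.q j) with h | h | h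
    · have := (hfl i j).mpr h
      exact absurd hij (ne_of_lt this)
    · exact h
    · have := (hfl j i).mpr h
      exact absurd hij.symm (ne_of_lt this)
  have hlf : ∀ i j, s.lab i = s.lab j → f i = f j := by
    intro i j hij
    rcases lt_trichotomy (f i) (f j) with h | h | h
    · have h1 := (hfl i j).mp h
      unfold LevLt at h1
      rw [s.lab_l hij, s.lab_q hij] at h1
      rcases h1 with h1 | h1
      · exact absurd h1 (lt_irrefl _)
      · exact absurd h1.2 (lt_irrefl _)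
    · exact h
    · have h1 := (hfl j i).mp h
      unfold LevLt at h1
      rw [s.lab_l hij, s.lab_q hij] at h1
      rcases h1 with h1 | h1
      · exact absurd h1 (lt_irrefl _)
      · exact absurd h1.2 (lt_irrefl _)
  have hU : ∀ i j, i < j → f i = f j → ∃ k, i < k ∧ k < j ∧ f k < f i := by
    intro i j hij hfij
    obtain ⟨h1, h2⟩ := hfe i j hfij
    obtain ⟨k, h3, h4, h5⟩ := s.between hij h1 h2
    exact ⟨k, h3, h4, (hfl k i).mpr h5⟩
  -- consequences for consecutive indices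
  have hadj : ∀ i j : Fin 5, j.val = i.val + 1 → f i ≠ f j := by
    intro i j hij h
    obtain ⟨k, h1, h2, -⟩ := hU i j (by rw [Fin.lt_def]; omega) h
    rw [Fin.lt_def] at h1 h2
    omega
  have key := classify (f 0) (f 1) (f 2) (f 3) (f 4) (hadj 0 1 rfl) (hadj 1 2 rfl) (hadj 2 3 rfl)
    (hadj 3 4 rfl)
    (by
      intro h
      obtain ⟨k, h1, h2, h3⟩ := hU 0 2 (by decide) h
      fin_cases k <;> simp_all)
    (by
      intro h
      obtain ⟨k, h1, h2, h3⟩ := hU 1 3 (by decide) h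
      fin_cases k <;> simp_all)
    (by
      intro h
      obtain ⟨k, h1, h2, h3⟩ := hU 2 4 (by decide) h
      fin_cases k <;> simp_all)
    (by
      intro h
      obtain ⟨k, h1, h2, h3⟩ := hU 0 3 (by decide) h
      fin_cases k <;> simp_all)
    (by
      intro h
      obtain ⟨k, h1, h2, h3⟩ := hU 1 4 (by decide) h
      fin_cases k <;> simp_all)
    (by
      intro h
      obtain ⟨k, h1, h2, h3⟩ := hU 0 4 (by decide) h
      fin_cases k <;> simp_all)
  -- representatives of the three levels and equality of labels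
  have hfin : ∀ t : Fin 3 → Fin 5, (∀ k, f (t k) = k) →
      Function.Injective (fun j => s.lab (t j)) ∧ ∀ i j, f i = f j → s.lab i = s.lab j := by
    intro t ht
    refine ⟨?_, ?_⟩
    · intro i j hij
      have := hlf _ _ hij
      rwa [ht, ht] at this
    · intro i j hij
      by_contra hne
      apply h4
      obtain ⟨k, hk⟩ : ∃ k, k = f i := ⟨_, rfl⟩
      have d1 : k + 1 ≠ k := (by decide : ∀ k : Fin 3, k + 1 ≠ k) k
      have d2 : k + 2 ≠ k := (by decide : ∀ k : Fin 3, k + 2 ≠ k) k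
      have d3 : k + 1 ≠ k + 2 := (by decide : ∀ k : Fin 3, k + 1 ≠ k + 2) k
      have hne' : s.lab j ≠ s.lab i := fun h => hne h.symm
      have g1 : ∀ u : Fin 5, f u = k → ∀ m : Fin 3, m ≠ k → s.lab u ≠ s.lab (t m) := by
        intro u hu m hm h
        have := hlf _ _ h
        rw [hu, ht] at this
        exact hm this.symm
      have g2 : ∀ u : Fin 5, f u = k → ∀ m : Fin 3, m ≠ k → s.lab (t m) ≠ s.lab u :=
        fun u hu m hm h => g1 u hu m hm h.symm
      have g3 : ∀ m m' : Fin 3, m ≠ m' → s.lab (t m) ≠ s.lab (t m') := by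
        intro m m' hm h
        have := hlf _ _ h
        rw [ht, ht] at this
        exact hm this
      have hi := hk.symm
      have hj : f j = k := by rw [← hij, hk]
      refine ⟨![i, j, t (k + 1), t (k + 2)], ?_⟩
      intro a b hab
      fin_cases a <;> fin_cases b
      · rfl
      · exact absurd hab hne
      · exact absurd hab (g1 i hi _ d1)
      · exact absurd hab (g1 i hi _ d2)
      · exact absurd hab hne'
      · rfl
      · exact absurd hab (g1 j hj _ d1)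
      · exact absurd hab (g1 j hj _ d2)
      · exact absurd hab (g2 i hi _ d1)
      · exact absurd hab (g2 j hj _ d1)
      · rfl
      · exact absurd hab (g3 _ _ d3)
      · exact absurd hab (g2 i hi _ d2)
      · exact absurd hab (g2 j hj _ d2)
      · exact absurd hab (g3 _ _ d3.symm)
      · rfl
  have hlq : ∀ i j, f i = f j → s.l i = s.l j ∧ s.q i = s.q j := hfe
  rcases key with h | h | h | h | h | h | h | h
  · -- 12012
    obtain ⟨f0, f1, f2, f3, f4⟩ := decode _ _ _ _ _ 1 2 0 1 2 (h.trans (by decide))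
    obtain ⟨ht, hle⟩ := hfin ![2, 0, 1] (by intro k; fin_cases k <;> assumption)
    exact s.six_case hX ht (p := 0) (p' := 3) (r := 1) (r' := 4) (a := 0) (b := 1) (by decide)
      (hle _ _ (by rw [f0, f3])) (by decide) (hle _ _ (by rw [f1, f4]))
      ((hfl 0 1).mp (by rw [f0, f1]; decide)) rfl (Or.inl ⟨rfl, rfl, rfl, rfl⟩)
  · -- 12021
    obtain ⟨f0, f1, f2, f3, f4⟩ := decode _ _ _ _ _ 1 2 0 2 1 (h.trans (by decide))
    obtain ⟨ht, hle⟩ := hfin ![2, 0, 1] (by intro k; fin_cases k <;> assumption)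
    exact s.six_case hX ht (p := 0) (p' := 4) (r := 1) (r' := 3) (a := 0) (b := 1) (by decide)
      (hle _ _ (by rw [f0, f4])) (by decide) (hle _ _ (by rw [f1, f3]))
      ((hfl 0 1).mp (by rw [f0, f1]; decide)) rfl (Or.inl ⟨rfl, rfl, rfl, rfl⟩)
  · -- 21012
    obtain ⟨f0, f1, f2, f3, f4⟩ := decode _ _ _ _ _ 2 1 0 1 2 (h.trans (by decide))
    obtain ⟨ht, hle⟩ := hfin ![2, 1, 0] (by intro k; fin_cases k <;> assumption)
    exact s.six_case hX ht (p := 1) (p' := 3) (r := 0) (r' := 4) (a := 0) (b := 1) (by decide)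
      (hle _ _ (by rw [f1, f3])) (by decide) (hle _ _ (by rw [f0, f4]))
      ((hfl 1 0).mp (by rw [f0, f1]; decide)) rfl (Or.inr ⟨rfl, rfl, rfl, rfl⟩)
  · -- 21021
    obtain ⟨f0, f1, f2, f3, f4⟩ := decode _ _ _ _ _ 2 1 0 2 1 (h.trans (by decide))
    obtain ⟨ht, hle⟩ := hfin ![2, 1, 0] (by intro k; fin_cases k <;> assumption)
    exact s.six_case hX ht (p := 1) (p' := 4) (r := 0) (r' := 3) (a := 0) (b := 1) (by decide)
      (hle _ _ (by rw [f1, f4])) (by decide) (hle _ _ (by rw [f0, f3]))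
      ((hfl 1 0).mp (by rw [f0, f1]; decide)) rfl (Or.inr ⟨rfl, rfl, rfl, rfl⟩)
  · -- 21201
    obtain ⟨f0, f1, f2, f3, f4⟩ := decode _ _ _ _ _ 2 1 2 0 1 (h.trans (by decide))
    obtain ⟨ht, hle⟩ := hfin ![3, 1, 0] (by intro k; fin_cases k <;> assumption)
    exact s.six_case hX ht (p := 1) (p' := 4) (r := 0) (r' := 2) (a := 0) (b := 1) (by decide)
      (hle _ _ (by rw [f1, f4])) (by decide) (hle _ _ (by rw [f0, f2]))
      ((hfl 1 0).mp (by rw [f0, f1]; decide)) rfl (Or.inr ⟨rfl, rfl, rfl, rfl⟩)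
  · -- 10212
    obtain ⟨f0, f1, f2, f3, f4⟩ := decode _ _ _ _ _ 1 0 2 1 2 (h.trans (by decide))
    obtain ⟨ht, hle⟩ := hfin ![1, 0, 2] (by intro k; fin_cases k <;> assumption)
    exact s.six_case hX ht (p := 0) (p' := 3) (r := 2) (r' := 4) (a := 2) (b := 3) (by decide)
      (hle _ _ (by rw [f0, f3])) (by decide) (hle _ _ (by rw [f2, f4]))
      ((hfl 0 2).mp (by rw [f0, f2]; decide)) rfl
      (Or.inr ⟨rfl, rfl, (hlq 3 0 (by rw [f3, f0])).1, (hlq 3 0 (by rw [f3, f0])).2⟩)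
  · -- 21202
    obtain ⟨f0, f1, f2, f3, f4⟩ := decode _ _ _ _ _ 2 1 2 0 2 (h.trans (by decide))
    obtain ⟨ht, hle⟩ := hfin ![3, 1, 0] (by intro k; fin_cases k <;> assumption)
    have e02 := hle 0 2 (by rw [f0, f2])
    have e04 := hle 0 4 (by rw [f0, f4])
    have q31 := (hfl 3 1).mp (by rw [f3, f1]; decide)
    have q10 := (hfl 1 0).mp (by rw [f1, f0]; decide)
    have q32 := (hfl 3 2).mp (by rw [f3, f2]; decide)
    rcases q10 with h10 | ⟨h10, h10'⟩
    · rcases q31 with h31 | ⟨h31, h31'⟩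
      · have h30 : s.l 3 < s.l 0 := h31.trans h10
        have h32 : s.l 3 < s.l 2 := by rw [← s.lab_l e02]; exact h30
        have c1 : s.x 0 (s.l 3) = s.x 1 (s.l 3) := (s.fd 0).1 _ h30
        have c2 : s.x 1 (s.l 3) = s.x 2 (s.l 3) := (s.fd 1).1 _ h31
        have c3 : s.x 2 (s.l 3) = s.x 3 (s.l 3) := (s.fd 2).1 _ h32
        have c4 : s.x 3 (s.l 3) ≠ s.x 4 (s.l 3) := (s.fd 3).2.ne
        refine s.caseC hX ht (a := 0) (b := 4) (c := 0) (e := 2) (by decide) e04 (by decide) e02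
          rfl (s.l 3) h30 ?_ ?_
        · show s.x 0 (s.l 3) ≠ s.x 4 (s.l 3)
          rw [c1, c2, c3]
          exact c4
        · show s.x 0 (s.l 3) = s.x 2 (s.l 3)
          rw [c1, c2]
      · -- blocks of 3 and 1 equal
        have g1 : FD (s.x 1) (s.x 2) (s.l 1) (s.q 1) := s.fd 1
        have g2 : FD (s.x 2) (s.x 3) (s.l 2) (s.q 2) := s.fd 2
        have g3 : FD (s.x 3) (s.x 4) (s.l 3) (s.q 3) := s.fd 3
        have g4 := g2.trans_right g3 q32
        rw [h31] at g4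
        exact s.caseA hX ht (r := 0) (r' := 2) (by decide) e02 (s.mem _) (s.mem _) (s.mem _)
          g1 g4 (ne_of_lt h31').symm
    · have g0 : FD (s.x 0) (s.x 1) (s.l 0) (s.q 0) := s.fd 0
      have g1 : FD (s.x 1) (s.x 2) (s.l 1) (s.q 1) := s.fd 1
      rw [h10] at g1
      exact s.caseA hX ht (r := 0) (r' := 2) (by decide) e02 (s.mem _) (s.mem _) (s.mem _)
        g0 g1 (ne_of_lt h10').symm
  · -- 20212
    obtain ⟨f0, f1, f2, f3, f4⟩ := decode _ _ _ _ _ 2 0 2 1 2 (h.trans (by decide))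
    obtain ⟨ht, hle⟩ := hfin ![1, 3, 0] (by intro k; fin_cases k <;> assumption)
    have e02 := hle 0 2 (by rw [f0, f2])
    have e24 := hle 2 4 (by rw [f2, f4])
    have q13 := (hfl 1 3).mp (by rw [f3, f1]; decide)
    have q12 := (hfl 1 2).mp (by rw [f1, f2]; decide)
    have q32 := (hfl 3 2).mp (by rw [f3, f2]; decide)
    rcases q32 with h32 | ⟨h32, h32'⟩
    · rcases q13 with h13 | ⟨h13, h13'⟩
      · have h12 : s.l 1 < s.l 2 := h13.trans h32
        have h10 : s.l 1 < s.l 0 := by rw [s.lab_l e02]; exact h12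
        have c1 : s.x 0 (s.l 1) = s.x 1 (s.l 1) := (s.fd 0).1 _ h10
        have c2 : s.x 1 (s.l 1) ≠ s.x 2 (s.l 1) := (s.fd 1).2.ne
        have c3 : s.x 2 (s.l 1) = s.x 3 (s.l 1) := (s.fd 2).1 _ h12
        have c4 : s.x 3 (s.l 1) = s.x 4 (s.l 1) := (s.fd 3).1 _ h13
        refine s.caseC hX ht (a := 0) (b := 2) (c := 2) (e := 4) (by decide) e02 (by decide) e24
          (s.lab_l e02) (s.l 1) h10 ?_ ?_
        · show s.x 0 (s.l 1) ≠ s.x 2 (s.l 1)
          rw [c1]
          exact c2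
        · show s.x 2 (s.l 1) = s.x 4 (s.l 1)
          rw [c3, c4]
      · have g1 : FD (s.x 1) (s.x 2) (s.l 1) (s.q 1) := s.fd 1
        have g2 : FD (s.x 2) (s.x 3) (s.l 2) (s.q 2) := s.fd 2
        have g3 : FD (s.x 3) (s.x 4) (s.l 3) (s.q 3) := s.fd 3
        have g4 := g1.trans_left g2 q12
        rw [← h13] at g3
        exact s.caseA hX ht (r := 0) (r' := 2) (by decide) e02 (s.mem _) (s.mem _) (s.mem _)
          g4 g3 (ne_of_lt h13')
    · have g2 : FD (s.x 2) (s.x 3) (s.l 2) (s.q 2) := s.fd 2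
      have g3 : FD (s.x 3) (s.x 4) (s.l 3) (s.q 3) := s.fd 3
      rw [h32] at g3
      exact s.caseA hX ht (r := 0) (r' := 2) (by decide) e02 (s.mem _) (s.mem _) (s.mem _)
        g2 g3 (ne_of_lt h32').symm

/-- every six points receive at least seventeen orders. -/
theorem Family.seventeen (𝓕 : Family D d mB mT mG) (X : Finset (Pt D d)) (hX : X.card = 6) :
    17 ≤ (ordSet 𝓕.pos X).ncard := by
  obtain ⟨s⟩ := exists_six 𝓕 X hX
  exact s.main hX

end Pool.Agent.LibShatter
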