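import Mathlib
import Pool.Agent.LibShatter.Seventeen
import Pool.Agent.LibShatter.Lower

/-!
The upper bound: the shatter number for `(6, 17)` is at most a constant times `(log n) ^ (2/3)`.
-/

namespace Pool.Agent.LibShatter

open Finset

theorem cube_le_two_pow (D : ℕ) : D * D ^ 2 ≤ 2 ^ (3 * D) := by
  have h : D ≤ 2 ^ D := Nat.lt_two_pow_self.le
  calc D * D ^ 2 = D ^ 3 := by ring
    _ ≤ (2 ^ D) ^ 3 := Nat.pow_le_pow_left h 3
    _ = 2 ^ (3 * D) := by rw [← pow_mul, mul_comm]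

theorem exists_family_cube (D : ℕ) :
    Nonempty (Family D (D ^ 2) (22 * (5 * (D ^ 2 + 3 * D) + 6)) (22 * (5 * (3 * D) + 6))
      (22 * (5 * (D ^ 2 + 1) + 6))) := by
  apply exists_family
  · have h1 : Fintype.card (Lab D (D ^ 2)) = D * D ^ 2 * 2 ^ (D ^ 2) := by
      simp [Lab, mul_assoc]
    rw [h1, pow_add, mul_comm (2 ^ (D ^ 2))]
    exact Nat.mul_le_mul_right _ (cube_le_two_pow D)
  · have h1 : Fintype.card (Fin D × Fin (D ^ 2)) = D * D ^ 2 := by simp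
    rw [h1]
    exact cube_le_two_pow D
  · have h1 : Fintype.card (Blk (D ^ 2) × Bool) = 2 ^ (D ^ 2 + 1) := by
      simp [pow_succ]
    rw [h1]

theorem upper_finite (D n : ℕ) (hD : 1 ≤ D) (hn : n ≤ 2 ^ (D ^ 3)) :
    ∃ P : Finset (Equiv.Perm (Fin n)), P.card ≤ 1400 * D ^ 2 ∧
      ∀ X : Finset (Fin n), X.card = 6 → Shatters P 17 X := by
  obtain ⟨𝓕⟩ := exists_family_cube D
  have hcard : Fintype.card (Pt D (D ^ 2)) = 2 ^ (D ^ 3) := by
    simp only [Pt, Blk, Fintype.card_pi, Fintype.card_bool, Finset.prod_const, Finset.card_univ,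
      Fintype.card_fin]
    rw [← pow_mul]
    congr 1
  obtain ⟨P, hP1, hP2⟩ := exists_shattering 6 17 𝓕.pos 𝓕.pos_inj
    (fun X hX => 𝓕.seventeen X hX) n (by rw [hcard]; exact hn)
  refine ⟨P, hP1.trans ?_, hP2⟩
  simp only [Idx, Fintype.card_sum, Fintype.card_prod, Fintype.card_fin]
  nlinarith [Nat.mul_le_mul hD hD, Nat.mul_le_mul_left D hD]

theorem feasible (n : ℕ) : Feasible 6 n 17 := by
  have h : n ≤ 2 ^ ((n + 1) ^ 3) := by
    have h1 : n < 2 ^ n := Nat.lt_two_pow_self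
    have h2 : 2 ^ n ≤ 2 ^ ((n + 1) ^ 3) := by
      apply Nat.pow_le_pow_right (by norm_num)
      calc n ≤ n + 1 := by omega
        _ = (n + 1) ^ 1 := by ring
        _ ≤ (n + 1) ^ 3 := Nat.pow_le_pow_right (by omega) (by norm_num)
    omega
  obtain ⟨P, -, hP⟩ := upper_finite (n + 1) n (by omega) h
  exact ⟨P.card, P, rfl, hP⟩

theorem upper_bound (D n : ℕ) (hD : 1 ≤ D) (hn : n ≤ 2 ^ (D ^ 3)) :
    shatterNumber 6 n 17 ≤ 1400 * D ^ 2 := by
  obtain ⟨P, hP1, hP2⟩ := upper_finite D n hD hn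
  exact le_trans (Nat.sInf_le ⟨P, rfl, hP2⟩) hP1

end Pool.Agent.LibShatter
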